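import Pool.Agent.TH3.IR.Defs

/-! # Flattening: the leading coefficient of a polynomial after `x = z`, `y = 1 + t Y` -/

set_option autoImplicit false

namespace Pool.Agent.TH3.IR

open Finset MvPolynomial Pool.Agent.TH603.EL

namespace FlatL

variable {F : Type} [Field F]

theorem cf_tz_mul (b : ℝ) (p q : ℤ) (x : HR F) (a : ℝ) (i j : ℤ) :
    cf (tz F b p q * x) a i j = cf x (a - b) (i - p) (j - q) := by
  have h : (tz F b p q * x).coeff a =
      AddMonoidAlgebra.single (p, q) (1 : F) * x.coeff (a - b) := by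
    unfold tz
    have := HahnSeries.coeff_single_mul_add
      (r := (AddMonoidAlgebra.single (p, q) (1 : F) : Lau F)) (x := x) (a := a - b) (b := b)
    rwa [sub_add_cancel] at this
  unfold cf
  rw [h, AddMonoidAlgebra.coeff_single_mul_apply, one_mul]
  congr 1
  ext <;> simp <;> ring

theorem cf_add (x y : HR F) (a : ℝ) (i j : ℤ) : cf (x + y) a i j = cf x a i j + cf y a i j := by
  simp [cf]

theorem cf_zero (a : ℝ) (i j : ℤ) : cf (0 : HR F) a i j = 0 := by
  simp [cf]

theorem exists_cf {x : HR F} {a : ℝ} (h : x.coeff a ≠ 0) : ∃ i j : ℤ, cf x a i j ≠ 0 := by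
  by_contra hc
  push Not at hc
  apply h
  ext ⟨i, j⟩
  have := hc i j
  unfold cf at this
  simpa using this

theorem coeff_ne {x : HR F} {a : ℝ} {i j : ℤ} (h : cf x a i j ≠ 0) : x.coeff a ≠ 0 := by
  intro hc
  apply h
  simp [cf, hc]

theorem tz_pow (b : ℝ) (p q : ℤ) (n : ℕ) : (tz F b p q) ^ n = tz F (n * b) (n * p) (n * q) := by
  unfold tz
  rw [HahnSeries.single_pow, AddMonoidAlgebra.single_pow, one_pow]
  simp [nsmul_eq_mul]

/-- the value at `Y' = t Y` -/
noncomputable def T (F : Type) [Field F] : Polynomial (HK F) →+* HR F :=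
  Polynomial.eval₂RingHom incl (tz F 1 0 1)

/-- the value at `1 + t Y` -/
noncomputable def E (F : Type) [Field F] : Polynomial (HK F) →+* HR F :=
  Polynomial.eval₂RingHom incl (1 + tz F 1 0 1)

theorem cf_T (q : Polynomial (HK F)) (a : ℝ) (i j : ℤ) :
    cf (T F q) a i j = if i = 0 ∧ 0 ≤ j then (q.coeff j.toNat).coeff (a - j) else 0 := by
  induction q using Polynomial.induction_on' with
  | add p q hp hq =>
    rw [map_add, cf_add, hp, hq]
    split_ifs <;> simp
  | monomial n c =>
    have h : T F (Polynomial.monomial n c) = tz F n 0 n * incl c := by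
      rw [T, Polynomial.coe_eval₂RingHom, Polynomial.eval₂_monomial, tz_pow, mul_comm]
      simp
    rw [h, cf_tz_mul, cf_incl, Polynomial.coeff_monomial]
    by_cases h1 : i - 0 = 0 ∧ j - (n : ℤ) = 0
    · have h2 : i = 0 ∧ 0 ≤ j := by omega
      have h3 : n = j.toNat := by omega
      have h4 : (j : ℝ) = n := by
        have : j = n := by omega
        rw [this]
        simp
      rw [if_pos h1, if_pos h2, if_pos h3, h4]
    · rw [if_neg h1]
      split_ifs with h2 h3
      · exfalso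
        apply h1
        omega
      · simp
      · rfl

theorem E_eq (p : Polynomial (HK F)) : E F p = T F (Polynomial.taylor 1 p) := by
  rw [Polynomial.taylor_apply, E, T, Polynomial.coe_eval₂RingHom, Polynomial.coe_eval₂RingHom,
    Polynomial.eval₂_comp, Polynomial.eval₂_add, Polynomial.eval₂_X, Polynomial.eval₂_C, map_one,
    add_comm]

theorem cf_E (p : Polynomial (HK F)) (a : ℝ) (i j : ℤ) :
    cf (E F p) a i j =
      if i = 0 ∧ 0 ≤ j then ((Polynomial.taylor 1 p).coeff j.toNat).coeff (a - j) else 0 := by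
  rw [E_eq, cf_T]

theorem E_ne_zero {p : Polynomial (HK F)} (hp : p ≠ 0) : E F p ≠ 0 := by
  have h1 : Polynomial.taylor 1 p ≠ 0 := by
    intro h
    apply hp
    exact Polynomial.taylor_injective 1 (by rw [h, map_zero])
  obtain ⟨n, hn⟩ : ∃ n, (Polynomial.taylor 1 p).coeff n ≠ 0 := by
    by_contra hc
    push Not at hc
    exact h1 (Polynomial.ext (by simpa using hc))
  obtain ⟨u, hu⟩ : ∃ u, ((Polynomial.taylor 1 p).coeff n).coeff u ≠ 0 := by
    by_contra hc
    push Not at hc
    exact hn (HahnSeries.ext (by funext u; simpa using hc u))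
  intro h
  have h2 := cf_E p (u + n) 0 n
  rw [h, cf_zero, if_pos ⟨rfl, Int.natCast_nonneg n⟩] at h2
  apply hu
  simpa using h2.symm

theorem low_one_add : Low (1 + tz F 1 0 1) 0 :=
  low_one.add ((low_tz 1 0 1).mono zero_le_one)

theorem coeff_one_add : (1 + tz F 1 0 1).coeff 0 = 1 := by
  rw [HahnSeries.coeff_add, low_tz 1 0 1 0 zero_lt_one, add_zero, HahnSeries.coeff_one, if_pos rfl]

theorem E_lead {p : Polynomial (HK F)} (hp : p ≠ 0) :
    ∃ a : ℝ, Low (E F p) a ∧ (E F p).coeff a ≠ 0 ∧ ∀ i k : ℤ, cf (E F p) a i k ≠ 0 →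
      0 ≤ k ∧ k ≤ (p.natDegree : ℤ) - p.natTrailingDegree := by
  obtain ⟨q, hq⟩ : (Polynomial.X : Polynomial (HK F)) ^ p.natTrailingDegree ∣ p := by
    rw [Polynomial.X_pow_dvd_iff]
    intro n hn
    exact Polynomial.coeff_eq_zero_of_lt_natTrailingDegree hn
  have hq0 : q ≠ 0 := by
    rintro rfl
    rw [mul_zero] at hq
    exact hp hq
  have hdeg : p.natDegree = p.natTrailingDegree + q.natDegree := by
    conv_lhs => rw [hq]
    rw [Polynomial.natDegree_mul (pow_ne_zero _ Polynomial.X_ne_zero) hq0,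
      Polynomial.natDegree_X_pow]
  have hE : E F p = (1 + tz F 1 0 1) ^ p.natTrailingDegree * E F q := by
    conv_lhs => rw [hq]
    rw [map_mul, map_pow]
    congr 2
    rw [E, Polynomial.coe_eval₂RingHom, Polynomial.eval₂_X]
  have h1 : Low ((1 + tz F 1 0 1) ^ p.natTrailingDegree) 0 := low_one_add.pow_zero' _
  have h2 : ((1 + tz F 1 0 1) ^ p.natTrailingDegree).coeff 0 = 1 := by
    have := (low_one_add (F := F)).coeff_pow p.natTrailingDegree
    rw [mul_zero, coeff_one_add, one_pow] at this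
    exact this
  have h3 : E F q ≠ 0 := E_ne_zero hq0
  have h4 : Low (E F q) (E F q).order := fun b hb => HahnSeries.coeff_eq_zero_of_lt_order hb
  have h5 : (E F p).coeff (E F q).order = (E F q).coeff (E F q).order := by
    have := h1.coeff_mul h4
    rw [zero_add, h2, one_mul, ← hE] at this
    exact this
  refine ⟨(E F q).order, ?_, ?_, ?_⟩
  · have := h1.mul h4
    rwa [zero_add, ← hE] at this
  · rw [h5]
    exact fun h => h3 (HahnSeries.coeff_order_eq_zero.1 h)
  · intro i k h
    have h6 : cf (E F p) (E F q).order i k = cf (E F q) (E F q).order i k := by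
      simp only [cf, h5]
    rw [h6, cf_E] at h
    split_ifs at h with h7
    · refine ⟨h7.2, ?_⟩
      by_contra hc
      apply h
      rw [Polynomial.coeff_eq_zero_of_natDegree_lt]
      · simp
      · rw [Polynomial.natDegree_taylor]
        omega
    · exact absurd rfl h

/-- the polynomial of the column `i` -/
noncomputable def col (d : ℕ) (f : (ℤ × ℤ) →₀ HK F) (i : ℤ) : Polynomial (HK F) :=
  ∑ b ∈ Finset.Icc (0 : ℤ) d, Polynomial.monomial b.toNat (f (i, b))

theorem col_coeff {d : ℕ} {f : (ℤ × ℤ) →₀ HK F} {i : ℤ} {n : ℕ} (h : (col d f i).coeff n ≠ 0) :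
    (i, (n : ℤ)) ∈ f.support := by
  unfold col at h
  rw [Polynomial.finsetSum_coeff] at h
  obtain ⟨b, hb, h1⟩ := Finset.exists_ne_zero_of_sum_ne_zero h
  rw [Polynomial.coeff_monomial] at h1
  split_ifs at h1 with h2
  · have h3 : b = n := by
      rw [Finset.mem_Icc] at hb
      omega
    rw [← h3, Finsupp.mem_support_iff]
    exact h1
  · exact absurd rfl h1

theorem coeff_col {d : ℕ} {f : (ℤ × ℤ) →₀ HK F} {i b : ℤ} (h0 : 0 ≤ b) (h1 : b ≤ d) :
    (col d f i).coeff b.toNat = f (i, b) := by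
  unfold col
  rw [Polynomial.finsetSum_coeff, Finset.sum_eq_single b]
  · rw [Polynomial.coeff_monomial, if_pos rfl]
  · intro c hc hne
    rw [Finset.mem_Icc] at hc
    rw [Polynomial.coeff_monomial, if_neg]
    omega
  · intro h
    exact absurd (Finset.mem_Icc.2 ⟨h0, h1⟩) h

theorem ev_hom {d : ℕ} {f : (ℤ × ℤ) →₀ HK F}
    (hf : ∀ m ∈ f.support, 0 ≤ m.1 ∧ 0 ≤ m.2 ∧ m.1 + m.2 ≤ d) :
    ev (aff (tz F 0 1 0) (1 + tz F 1 0 1)) (hom d f) =
      ∑ i ∈ Finset.Icc (0 : ℤ) d, tz F 0 i 0 * E F (col d f i) := by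
  have h0 : aff (tz F 0 1 0) (1 + tz F 1 0 1) 0 = 1 := by simp [aff]
  have h1 : aff (tz F 0 1 0) (1 + tz F 1 0 1) 1 = tz F 0 1 0 := by
    have : ¬ (1 : ZMod 3) = 0 := by decide
    simp [aff]
  have h2 : aff (tz F 0 1 0) (1 + tz F 1 0 1) 2 = 1 + tz F 1 0 1 := by
    have h3 : ¬ (2 : ZMod 3) = 0 := by decide
    have h4 : ¬ (2 : ZMod 3) = 1 := by decide
    simp [aff, h3, h4]
  unfold hom
  rw [Finsupp.sum, map_sum]
  have hs : f.support ⊆ Finset.Icc (0 : ℤ) d ×ˢ Finset.Icc (0 : ℤ) d := by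
    intro m hm
    obtain ⟨h3, h4, h5⟩ := hf m hm
    rw [Finset.mem_product, Finset.mem_Icc, Finset.mem_Icc]
    omega
  rw [Finset.sum_subset hs, Finset.sum_product]
  · apply Finset.sum_congr rfl
    intro i hi
    rw [Finset.mem_Icc] at hi
    unfold col
    rw [map_sum, Finset.mul_sum]
    apply Finset.sum_congr rfl
    intro b _
    rw [map_mul, map_mul, map_mul, map_pow, map_pow, map_pow, ev_C, ev_X, ev_X, ev_X, h0, h1, h2,
      one_pow, one_mul, tz_pow, E, Polynomial.coe_eval₂RingHom, Polynomial.eval₂_monomial]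
    have h6 : tz F ((i.toNat : ℝ) * 0) (i.toNat * 1) (i.toNat * 0) = tz F 0 i 0 := by
      have : (i.toNat : ℤ) = i := Int.toNat_of_nonneg hi.1
      rw [this]
      simp
    simp only at h6 ⊢
    rw [h6]
    ring
  · intro m _ hm
    rw [Finsupp.notMem_support_iff.1 hm]
    simp

end FlatL

open FlatL

theorem evp_flat {F : Type} [Field F] {x y : F} (hx : x ≠ 0) (hy : y ≠ 0) (l : ZMod 3) :
    evp hx hy (aff (tz F 0 1 0) (1 + tz F 1 0 1) l) ≠ 0 := by
  unfold aff
  split_ifs with h0 h1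
  · rw [map_one]
    exact one_ne_zero
  · intro h
    have h2 := congrArg (fun u => HahnSeries.coeff u 0) h
    simp only [evp_coeff, coeff_tz, HahnSeries.coeff_zero] at h2
    have h3 := Pool.Agent.TH176.Nag.evL_mon x y hx hy ((1 : ℤ), (0 : ℤ))
    unfold Pool.Agent.TH176.Nag.mon at h3
    rw [h3] at h2
    simp [hx] at h2
  · intro h
    have h2 := congrArg (fun u => HahnSeries.coeff u 0) h
    simp only [evp_coeff, coeff_one_add, HahnSeries.coeff_zero, map_one] at h2
    exact one_ne_zero h2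

/-- the leading coefficient after a flattening -/
theorem flat_lead {F : Type} [Field F] [CharZero F] {d : ℕ} {f : (ℤ × ℤ) →₀ HK F} (hne : f ≠ 0)
    (hf : ∀ m ∈ f.support, 0 ≤ m.1 ∧ 0 ≤ m.2 ∧ m.1 + m.2 ≤ d) :
    SliceLead (aff (tz F 0 1 0) (1 + tz F 1 0 1)) d
      {m | 0 ≤ m.2 ∧ ∃ b b' : ℤ, (m.1, b) ∈ f.support ∧ (m.1, b') ∈ f.support ∧ m.2 ≤ b' - b} f := by
  unfold SliceLead
  rw [ev_hom hf]
  set G : HR F := ∑ i ∈ Finset.Icc (0 : ℤ) d, tz F 0 i 0 * E F (col d f i) with hG
  have hcf : ∀ (a : ℝ) (i k : ℤ), cf G a i k =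
      if 0 ≤ i ∧ i ≤ d then cf (E F (col d f i)) a 0 k else 0 := by
    intro a i k
    rw [hG, Lead.cf_sum]
    have h1 : ∀ i' ∈ Finset.Icc (0 : ℤ) d, cf (tz F 0 i' 0 * E F (col d f i')) a i k =
        if i' = i then cf (E F (col d f i)) a 0 k else 0 := by
      intro i' _
      rw [FlatL.cf_tz_mul, sub_zero, sub_zero]
      split_ifs with h2
      · rw [h2, sub_self]
      · rw [cf_E, if_neg]
        omega
    rw [Finset.sum_congr rfl h1, Finset.sum_ite_eq']
    simp only [Finset.mem_Icc]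
  have hG0 : G ≠ 0 := by
    obtain ⟨m, hm⟩ : ∃ m, f m ≠ 0 := by
      by_contra hc
      push Not at hc
      exact hne (Finsupp.ext hc)
    obtain ⟨h3, h4, h5⟩ := hf m (Finsupp.mem_support_iff.2 hm)
    have h6 : col d f m.1 ≠ 0 := by
      intro h
      have := coeff_col (f := f) (i := m.1) h4 (by omega : m.2 ≤ (d : ℤ))
      rw [h, Polynomial.coeff_zero] at this
      exact hm this.symm
    obtain ⟨a, _, h7, _⟩ := E_lead h6
    obtain ⟨i, k, h8⟩ := exists_cf h7
    intro h
    have h9 := hcf a m.1 k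
    rw [h, cf_zero, if_pos (by omega)] at h9
    rw [cf_E] at h8 h9
    split_ifs at h8 with h10
    · rw [if_pos ⟨rfl, h10.2⟩] at h9
      exact h8 h9.symm
    · exact h8 rfl
  refine ⟨G.order, fun b hb => HahnSeries.coeff_eq_zero_of_lt_order hb,
    fun h => hG0 (HahnSeries.coeff_order_eq_zero.1 h), ?_⟩
  intro i k hik
  rw [hcf] at hik
  split_ifs at hik with hi
  · have hc : col d f i ≠ 0 := by
      intro h
      rw [h, map_zero, cf_zero] at hik
      exact hik rfl
    obtain ⟨a, h1, h2, h3⟩ := E_lead hc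
    have h4 : a = G.order := by
      apply le_antisymm
      · by_contra hlt
        push Not at hlt
        exact coeff_ne hik (h1 _ hlt)
      · by_contra hlt
        push Not at hlt
        obtain ⟨i', k', h5⟩ := exists_cf h2
        have h6 : cf G a i k' ≠ 0 := by
          rw [hcf, if_pos hi]
          rw [cf_E] at h5 ⊢
          split_ifs at h5 with h7
          · rw [if_pos ⟨rfl, h7.2⟩]
            exact h5
          · exact absurd rfl h5
        exact coeff_ne h6 (HahnSeries.coeff_eq_zero_of_lt_order hlt)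
    rw [← h4] at hik
    obtain ⟨h5, h6⟩ := h3 0 k hik
    refine ⟨h5, (col d f i).natTrailingDegree, (col d f i).natDegree, ?_, ?_, h6⟩
    · apply col_coeff (d := d)
      rw [← Polynomial.trailingCoeff]
      exact Polynomial.trailingCoeff_nonzero_iff_nonzero.2 hc
    · apply col_coeff (d := d)
      rw [Polynomial.coeff_natDegree]
      exact Polynomial.leadingCoeff_ne_zero.2 hc
  · exact absurd rfl hik

end Pool.Agent.TH3.IR
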