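import Pool.Agent.TH3.IR.Defs
import Pool.Agent.TH868.NG.Van3

/-! # IR2: the relative principle

A Laurent polynomial in `(x ; h)` is cut into slices along the coordinates `0` and `j`; the leading
coefficients of the slices of smallest order form a Laurent polynomial with exponents in `D'`. -/

set_option autoImplicit false

namespace Pool.Agent.TH3.IR

open Finset MvPolynomial Pool.Agent.TH603.EL Pool.Agent.TH176.Nag Pool.Agent.TH868.NG

section slice
variable {K : Type} [Field K] {σ : Type} [DecidableEq σ]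

/-- the exponent `(a ; c)` with the `j`-coordinate `b` -/
def eS (j : σ) (c : σ → ℤ) (n : ℤ × ℤ) : ℤ × (σ → ℤ) := (n.1, Function.update c j n.2)

theorem eS_inj (j : σ) (c : σ → ℤ) : Function.Injective (eS j c) := by
  rintro ⟨a, b⟩ ⟨a', b'⟩ h
  have h1 : a = a' := congrArg Prod.fst h
  have h2 : Function.update c j b = Function.update c j b' := congrArg Prod.snd h
  have h3 := congrFun h2 j
  rw [Function.update_self, Function.update_self] at h3
  rw [h1, h3]

/-- the slice of `f` -/
noncomputable def sl (j : σ) (c : σ → ℤ) (f : (ℤ × (σ → ℤ)) →₀ K) : (ℤ × ℤ) →₀ K :=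
  f.comapDomain (eS j c) (eS_inj j c).injOn

theorem sl_apply (j : σ) (c : σ → ℤ) (f : (ℤ × (σ → ℤ)) →₀ K) (n : ℤ × ℤ) :
    sl j c f n = f (eS j c n) := rfl

/-- the set of all slices -/
noncomputable def Cs (j : σ) (f : (ℤ × (σ → ℤ)) →₀ K) : Finset (σ → ℤ) := by
  classical exact f.support.image (fun m => Function.update m.2 j 0)

theorem mem_Cs {j : σ} {f : (ℤ × (σ → ℤ)) →₀ K} {c : σ → ℤ} :
    c ∈ Cs j f ↔ ∃ m ∈ f.support, Function.update m.2 j 0 = c := by
  classical
  unfold Cs
  rw [Finset.mem_image]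

theorem Cs_zero {j : σ} {f : (ℤ × (σ → ℤ)) →₀ K} {c : σ → ℤ} (h : c ∈ Cs j f) : c j = 0 := by
  obtain ⟨m, _, rfl⟩ := mem_Cs.1 h
  rw [Function.update_self]

theorem eS_back (j : σ) (m : ℤ × (σ → ℤ)) : eS j (Function.update m.2 j 0) (m.1, m.2 j) = m := by
  unfold eS
  simp only [Function.update_idem, Function.update_eq_self]

theorem sum_slices {B : Type*} [AddCommMonoid B] (j : σ) (f : (ℤ × (σ → ℤ)) →₀ K)
    (Φ : ℤ × (σ → ℤ) → K → B) :
    f.sum Φ = ∑ c ∈ Cs j f, (sl j c f).sum fun n v => Φ (eS j c n) v := by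
  classical
  unfold Finsupp.sum
  rw [← Finset.sum_fiberwise_of_maps_to (g := fun m : ℤ × (σ → ℤ) => Function.update m.2 j 0)
    (fun m hm => mem_Cs.2 ⟨m, hm, rfl⟩)]
  apply Finset.sum_congr rfl
  intro c hc
  have hc0 := Cs_zero hc
  refine Finset.sum_nbij' (fun m => (m.1, m.2 j)) (fun n => eS j c n) ?_ ?_ ?_ ?_ ?_
  · intro m hm
    rw [Finset.mem_filter] at hm
    rw [Finsupp.mem_support_iff, sl_apply, ← hm.2, eS_back]
    exact Finsupp.mem_support_iff.1 hm.1
  · intro n hn
    rw [Finsupp.mem_support_iff, sl_apply] at hn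
    rw [Finset.mem_filter, Finsupp.mem_support_iff]
    refine ⟨hn, ?_⟩
    unfold eS
    simp only [Function.update_idem]
    rw [← hc0, Function.update_eq_self]
  · intro m hm
    rw [Finset.mem_filter] at hm
    rw [← hm.2]
    exact eS_back j m
  · intro n _
    unfold eS
    simp only [Function.update_self]
  · intro m hm
    rw [Finset.mem_filter] at hm
    have : eS j c (m.1, m.2 j) = m := by
      rw [← hm.2]
      exact eS_back j m
    rw [sl_apply, this]
    show Φ m (f m) = Φ (eS j c (m.1, m.2 j)) (f m)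
    rw [this]

theorem sl_ne_zero {j : σ} {f : (ℤ × (σ → ℤ)) →₀ K} {c : σ → ℤ} (h : c ∈ Cs j f) :
    sl j c f ≠ 0 := by
  obtain ⟨m, hm, rfl⟩ := mem_Cs.1 h
  intro h0
  have h1 : sl j (Function.update m.2 j 0) f (m.1, m.2 j) = 0 := by
    rw [h0, Finsupp.zero_apply]
  rw [sl_apply, eS_back] at h1
  exact Finsupp.mem_support_iff.1 hm h1

theorem eS_ne {j : σ} {c c' : σ → ℤ} (hc : c j = 0) (hc' : c' j = 0) (h : c ≠ c') (n : ℤ × ℤ) :
    eS j c n ∉ Set.range (eS j c') := by
  rintro ⟨n', h'⟩
  have h2 : Function.update c' j n'.2 = Function.update c j n.2 := congrArg Prod.snd h'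
  apply h
  have h3 := congrArg (fun u => Function.update u j 0) h2
  simp only [Function.update_idem] at h3
  rw [← hc, Function.update_eq_self] at h3
  rw [hc, ← hc', Function.update_eq_self] at h3
  exact h3.symm

variable [Fintype σ]

/-- the factor of the slice in the moments -/
noncomputable def kap (j : σ) (c : σ → ℤ) (y : σ → K) (γ : σ → ℕ) : K :=
  ∏ l ∈ univ.erase j, ((c l : K) ^ γ l * y l ^ c l)

theorem mo_term (x : K) (y : σ → K) (α : ℕ) (γ : σ → ℕ) (j : σ) (c : σ → ℤ) (n : ℤ × ℤ) :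
    (((eS j c n).1 : K) ^ α * ∏ l, ((eS j c n).2 l : K) ^ γ l) * ch x y (eS j c n) =
      kap j c y γ * (((n.1 : K) ^ α * (n.2 : K) ^ γ j) * (x ^ n.1 * y j ^ n.2)) := by
  unfold ch kap eS
  simp only
  rw [← Finset.mul_prod_erase univ (fun l => ((Function.update c j n.2 l : ℤ) : K) ^ γ l)
    (Finset.mem_univ j), ← Finset.mul_prod_erase univ (fun l => y l ^ (Function.update c j n.2 l))
    (Finset.mem_univ j), Finset.prod_mul_distrib]
  simp only [Function.update_self]
  have h1 : ∏ l ∈ univ.erase j, ((Function.update c j n.2 l : ℤ) : K) ^ γ l =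
      ∏ l ∈ univ.erase j, (c l : K) ^ γ l := by
    apply Finset.prod_congr rfl
    intro l hl
    rw [Function.update_of_ne (Finset.ne_of_mem_erase hl)]
  have h2 : ∏ l ∈ univ.erase j, y l ^ (Function.update c j n.2 l) =
      ∏ l ∈ univ.erase j, y l ^ c l := by
    apply Finset.prod_congr rfl
    intro l hl
    rw [Function.update_of_ne (Finset.ne_of_mem_erase hl)]
  rw [h1, h2]
  ring

theorem mo_slices (f : (ℤ × (σ → ℤ)) →₀ K) (x : K) (y : σ → K) (α : ℕ) (γ : σ → ℕ) (j : σ) :
    mo f x y α γ = ∑ c ∈ Cs j f, kap j c y γ *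
      pr (sl j c f) x (y j) (fun u => u.1 ^ α * u.2 ^ γ j) := by
  unfold mo
  rw [sum_slices j]
  apply Finset.sum_congr rfl
  intro c _
  unfold pr Finsupp.sum
  rw [Finset.mul_sum]
  apply Finset.sum_congr rfl
  intro n _
  have := mo_term x y α γ j c n
  linear_combination (sl j c f n) * this

theorem mo_add (f g : (ℤ × (σ → ℤ)) →₀ K) (x : K) (y : σ → K) (α : ℕ) (γ : σ → ℕ) :
    mo (f + g) x y α γ = mo f x y α γ + mo g x y α γ := by
  unfold mo
  exact Finsupp.sum_add_index' (fun _ => by ring) (fun _ _ _ => by ring)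

theorem mo_sum {κ : Type*} (s : Finset κ) (f : κ → (ℤ × (σ → ℤ)) →₀ K) (x : K) (y : σ → K) (α : ℕ)
    (γ : σ → ℕ) : mo (∑ c ∈ s, f c) x y α γ = ∑ c ∈ s, mo (f c) x y α γ := by
  classical
  induction s using Finset.induction_on with
  | empty => simp [mo]
  | insert a s ha ih => rw [Finset.sum_insert ha, Finset.sum_insert ha, mo_add, ih]

theorem mo_map (j : σ) (c : σ → ℤ) (G : (ℤ × ℤ) →₀ K) (x : K) (y : σ → K) (α : ℕ) (γ : σ → ℕ) :
    mo (G.mapDomain (eS j c)) x y α γ = kap j c y γ *
      pr G x (y j) (fun u => u.1 ^ α * u.2 ^ γ j) := by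
  unfold mo
  rw [Finsupp.sum_mapDomain_index (fun _ => by ring) (fun _ _ _ => by ring)]
  unfold pr Finsupp.sum
  rw [Finset.mul_sum]
  apply Finset.sum_congr rfl
  intro n _
  have := mo_term x y α γ j c n
  linear_combination (G n) * this

end slice

section lin
variable {K : Type} [Field K]

theorem pr_add' (f g : (ℤ × ℤ) →₀ K) (x y : K) (P : K × K → K) :
    pr (f + g) x y P = pr f x y P + pr g x y P := by
  unfold pr
  exact Finsupp.sum_add_index' (fun _ => by ring) (fun _ _ _ => by ring)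

theorem pr_smul' (k : K) (f : (ℤ × ℤ) →₀ K) (x y : K) (P : K × K → K) :
    pr (k • f) x y P = k * pr f x y P := by
  unfold pr
  rw [Finsupp.sum_smul_index' (fun _ => by ring)]
  unfold Finsupp.sum
  rw [Finset.mul_sum]
  apply Finset.sum_congr rfl
  intro n _
  simp only [smul_eq_mul]
  ring

theorem pr_sum' {κ : Type*} (s : Finset κ) (f : κ → (ℤ × ℤ) →₀ K) (x y : K) (P : K × K → K) :
    pr (∑ c ∈ s, f c) x y P = ∑ c ∈ s, pr (f c) x y P := by
  classical
  induction s using Finset.induction_on with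
  | empty => simp [pr]
  | insert a s ha ih => rw [Finset.sum_insert ha, Finset.sum_insert ha, pr_add', ih]

theorem LM_of_mono {f : (ℤ × ℤ) →₀ K} {x y : K} {w : ℕ}
    (h : ∀ a b : ℕ, a + b < w → pr f x y (fun u : K × K => u.1 ^ a * u.2 ^ b) = 0) :
    LM f x y w := by
  intro P hP
  have : PF K w ≤ LinearMap.ker (prL f x y) := by
    unfold PF
    rw [Submodule.span_le]
    rintro P ⟨a, b, hab, rfl⟩
    exact h a b hab
  exact this hP

variable {F : Type} [Field F]

theorem evh_add (U : ZMod 3 → HR F) (d : ℕ) (f g : (ℤ × ℤ) →₀ HK F) :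
    ev U (hom d (f + g)) = ev U (hom d f) + ev U (hom d g) := by
  rw [ev_hom, ev_hom, ev_hom]
  exact Finsupp.sum_add_index' (fun _ => by rw [map_zero, zero_mul])
    (fun _ _ _ => by rw [map_add, add_mul])

theorem evh_smul (U : ZMod 3 → HR F) (d : ℕ) (k : HK F) (f : (ℤ × ℤ) →₀ HK F) :
    ev U (hom d (k • f)) = incl k * ev U (hom d f) := by
  rw [ev_hom, ev_hom, Finsupp.sum_smul_index' (fun _ => by rw [map_zero, zero_mul])]
  unfold Finsupp.sum
  rw [Finset.mul_sum]
  apply Finset.sum_congr rfl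
  intro n _
  simp only [smul_eq_mul, map_mul, mul_assoc]

theorem evh_sum (U : ZMod 3 → HR F) (d : ℕ) {κ : Type*} (s : Finset κ)
    (f : κ → (ℤ × ℤ) →₀ HK F) :
    ev U (hom d (∑ c ∈ s, f c)) = ∑ c ∈ s, ev U (hom d (f c)) := by
  classical
  induction s using Finset.induction_on with
  | empty => rw [Finset.sum_empty, Finset.sum_empty, ev_hom, Finsupp.sum_zero_index]
  | insert a s ha ih => rw [Finset.sum_insert ha, Finset.sum_insert ha, evh_add, ih]

theorem coeff_incl_C_mul (k : F) (u : HR F) (a : ℝ) :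
    ((incl (HahnSeries.C k) * u).coeff a).coeff = k • (u.coeff a).coeff := by
  have h1 : incl (HahnSeries.C k) = HahnSeries.C (AddMonoidAlgebra.single (0 : ℤ × ℤ) k) := by
    apply cf_ext
    intro b i l
    rw [cf_incl]
    unfold cf
    rw [HahnSeries.C_apply, HahnSeries.C_apply]
    by_cases hb : b = 0
    · subst hb
      rw [HahnSeries.coeff_single_same, HahnSeries.coeff_single_same]
      by_cases hil : i = 0 ∧ l = 0
      · obtain ⟨rfl, rfl⟩ := hil
        rw [if_pos ⟨rfl, rfl⟩]
        exact (Finsupp.single_eq_same (a := (0 : ℤ × ℤ)) (b := k)).symm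
      · rw [if_neg hil]
        have : ((0 : ℤ × ℤ) ≠ (i, l)) := by
          intro h
          rw [Prod.ext_iff] at h
          exact hil ⟨h.1.symm, h.2.symm⟩
        simp [this]
    · rw [HahnSeries.coeff_single_of_ne hb, HahnSeries.coeff_single_of_ne hb]
      simp
  rw [h1, HahnSeries.C_mul_eq_smul, HahnSeries.coeff_smul]
  ext n
  rw [smul_eq_mul, AddMonoidAlgebra.coeff_single_zero_mul]
  simp

end lin

/-- the relative principle -/
theorem EmpS_step {ι σ : Type} [Fintype σ] [DecidableEq σ] {w : ι → ℕ} (j : σ) {d : ℕ}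
    {D D' : Set (ℤ × (σ → ℤ))} (hD : ∀ m ∈ D, 0 ≤ m.1 ∧ 0 ≤ m.2 j ∧ m.1 + m.2 j ≤ d)
    (H : ∀ (F : Type) [Field F] [CharZero F], ∃ U : ZMod 3 → HR F,
      (∀ (x y : F) (hx : x ≠ 0) (hy : y ≠ 0) (l : ZMod 3), evp hx hy (U l) ≠ 0) ∧
      ∀ (c : σ → ℤ) (f : (ℤ × ℤ) →₀ HK F), f ≠ 0 →
        (∀ m ∈ f.support, (m.1, Function.update c j m.2) ∈ D) →
        SliceLead U d {m | (m.1, Function.update c j m.2) ∈ D'} f)
    (h : EmpS w D') : EmpS w D := by
  classical
  obtain ⟨F, _, _, x, y, hx, hy, hf⟩ := h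
  obtain ⟨U, hU, hS⟩ := H F
  let X : ι → HK F := fun i => evp (hx i) (hy i j) (U 1) / evp (hx i) (hy i j) (U 0)
  let Y : ι → σ → HK F := fun i l =>
    if l = j then evp (hx i) (hy i j) (U 2) / evp (hx i) (hy i j) (U 0)
    else HahnSeries.C (y i l)
  have hYj : ∀ i, Y i j = evp (hx i) (hy i j) (U 2) / evp (hx i) (hy i j) (U 0) :=
    fun i => if_pos rfl
  have hYl : ∀ i l, l ≠ j → Y i l = HahnSeries.C (y i l) := fun i l hl => if_neg hl
  refine ⟨HK F, inferInstance, inferInstance, X, Y, ?_, ?_, ?_⟩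
  · intro i
    exact div_ne_zero (hU _ _ _ _ _) (hU _ _ _ _ _)
  · intro i l
    by_cases hl : l = j
    · subst hl
      rw [hYj]
      exact div_ne_zero (hU _ _ _ _ _) (hU _ _ _ _ _)
    · rw [hYl i l hl]
      intro h0
      exact hy i l (HahnSeries.C_injective (h0.trans (map_zero _).symm))
  intro f hfD hLM
  by_contra hne
  -- the slices
  have hsl : ∀ c ∈ Cs j f, SliceLead U d {m | (m.1, Function.update c j m.2) ∈ D'} (sl j c f) := by
    intro c hc
    refine hS c _ (sl_ne_zero hc) ?_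
    intro m hm
    apply hfD
    rw [Finset.mem_coe, Finsupp.mem_support_iff]
    rw [Finsupp.mem_support_iff, sl_apply] at hm
    exact hm
  have hCs : (Cs j f).Nonempty := by
    obtain ⟨m, hm⟩ := Finsupp.support_nonempty_iff.2 hne
    exact ⟨_, mem_Cs.2 ⟨m, hm, rfl⟩⟩
  choose! A hlow hA hsupp using hsl
  obtain ⟨c0, hc0, hmin⟩ := Finset.exists_min_image (Cs j f) A hCs
  -- the leading coefficients
  let G : (σ → ℤ) → (ℤ × ℤ) →₀ F := fun c => ((ev U (hom d (sl j c f))).coeff (A c0)).coeff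
  let g : (ℤ × (σ → ℤ)) →₀ F := ∑ c ∈ Cs j f, (G c).mapDomain (eS j c)
  have hg0 : g ≠ 0 := by
    have h1 : G c0 ≠ 0 := by
      intro h0
      apply hA c0 hc0
      ext n
      exact DFunLike.congr_fun h0 n
    obtain ⟨n, hn⟩ := Finsupp.ne_iff.1 h1
    intro h0
    apply hn
    have h2 : g (eS j c0 n) = G c0 n := by
      show (∑ c ∈ Cs j f, (G c).mapDomain (eS j c)) (eS j c0 n) = G c0 n
      rw [Finsupp.finsetSum_apply, Finset.sum_eq_single c0]
      · exact Finsupp.mapDomain_apply (eS_inj j c0) _ _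
      · intro c hc hcc
        exact Finsupp.mapDomain_of_notMem_range _ _
          (eS_ne (Cs_zero hc0) (Cs_zero hc) (Ne.symm hcc) n)
      · intro h3
        exact absurd hc0 h3
    rw [← h2, h0]
    rfl
  apply hg0
  apply hf
  · -- the support
    intro m hm
    rw [Finset.mem_coe, Finsupp.mem_support_iff] at hm
    have h1 : (∑ c ∈ Cs j f, (G c).mapDomain (eS j c)) m ≠ 0 := hm
    rw [Finsupp.finsetSum_apply] at h1
    obtain ⟨c, hc, h2⟩ := Finset.exists_ne_zero_of_sum_ne_zero h1
    have h3 := Finsupp.mapDomain_support (Finsupp.mem_support_iff.2 h2)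
    rw [Finset.mem_image] at h3
    obtain ⟨n, hn, rfl⟩ := h3
    rw [Finsupp.mem_support_iff] at hn
    have h4 : A c = A c0 := by
      by_contra h5
      have h6 : A c0 < A c := lt_of_le_of_ne (hmin c hc) (Ne.symm h5)
      apply hn
      have h7 : (ev U (hom d (sl j c f))).coeff (A c0) = 0 := hlow c hc _ h6
      show ((ev U (hom d (sl j c f))).coeff (A c0)).coeff n = 0
      rw [h7]
      rfl
    have h5 := hsupp c hc n.1 n.2
    rw [h4] at h5
    exact h5 hn
  · -- the multiplicities
    intro i α γ hαγ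
    show mo (∑ c ∈ Cs j f, (G c).mapDomain (eS j c)) (x i) (y i) α γ = 0
    rw [mo_sum]
    have hS1 : ∀ c ∈ Cs j f, mo ((G c).mapDomain (eS j c)) (x i) (y i) α γ =
        kap j c (y i) γ * pr (G c) (x i) (y i j) (fun u => u.1 ^ α * u.2 ^ γ j) :=
      fun c _ => mo_map j c (G c) _ _ _ _
    rw [Finset.sum_congr rfl hS1]
    have hsplit : ∑ l, γ l = γ j + ∑ l ∈ univ.erase j, γ l :=
      (Finset.add_sum_erase univ γ (Finset.mem_univ j)).symm
    set r : ℕ := ∑ l ∈ univ.erase j, γ l with hr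
    -- the combined polynomial
    let GG : (ℤ × ℤ) →₀ HK F := ∑ c ∈ Cs j f, (HahnSeries.C (kap j c (y i) γ) : HK F) • sl j c f
    have hkap : ∀ (c : σ → ℤ) (b : ℕ), kap j c (Y i) (Function.update γ j b) =
        (HahnSeries.C (kap j c (y i) γ) : HK F) := by
      intro c b
      unfold kap
      rw [map_prod]
      apply Finset.prod_congr rfl
      intro l hl
      have hl' := Finset.ne_of_mem_erase hl
      rw [Function.update_of_ne hl', hYl i l hl', map_mul, map_pow, map_intCast, map_zpow₀]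
    have hGLM : LM GG (X i) (Y i j) (w i - r) := by
      apply LM_of_mono
      intro a b hab
      have h1 := hLM i a (Function.update γ j b) (by
        have : ∑ l, Function.update γ j b l = b + r := by
          rw [← Finset.add_sum_erase univ _ (Finset.mem_univ j), Function.update_self, hr]
          congr 1
          apply Finset.sum_congr rfl
          intro l hl
          rw [Function.update_of_ne (Finset.ne_of_mem_erase hl)]
        rw [this]
        omega)
      rw [mo_slices _ _ _ _ _ j] at h1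
      rw [← h1]
      show pr (∑ c ∈ Cs j f, (HahnSeries.C (kap j c (y i) γ) : HK F) • sl j c f) _ _ _ = _
      rw [pr_sum']
      apply Finset.sum_congr rfl
      intro c _
      rw [pr_smul', hkap, Function.update_self]
    have htri : ∀ m ∈ GG.support, 0 ≤ m.1 ∧ 0 ≤ m.2 ∧ m.1 + m.2 ≤ d := by
      intro m hm
      rw [Finsupp.mem_support_iff] at hm
      have h1 : (∑ c ∈ Cs j f, (HahnSeries.C (kap j c (y i) γ) : HK F) • sl j c f) m ≠ 0 := hm
      rw [Finsupp.finsetSum_apply] at h1
      obtain ⟨c, _, h2⟩ := Finset.exists_ne_zero_of_sum_ne_zero h1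
      rw [Finsupp.smul_apply, smul_eq_mul] at h2
      have h3 : f (eS j c m) ≠ 0 := right_ne_zero_of_mul h2
      have h4 := hD _ (hfD (Finset.mem_coe.2 (Finsupp.mem_support_iff.2 h3)))
      unfold eS at h4
      simp only [Function.update_self] at h4
      exact h4
    rw [hYj] at hGLM
    have h5 := LM_transfer (hx i) (hy i j) (U := U) (fun l => hU _ _ _ _ l) htri hGLM (A c0)
    have h6 : ((ev U (hom d GG)).coeff (A c0)).coeff =
        ∑ c ∈ Cs j f, kap j c (y i) γ • G c := by
      have e1 : ev U (hom d GG) = ∑ c ∈ Cs j f,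
          incl (HahnSeries.C (kap j c (y i) γ)) * ev U (hom d (sl j c f)) := by
        show ev U (hom d (∑ c ∈ Cs j f, (HahnSeries.C (kap j c (y i) γ) : HK F) • sl j c f)) = _
        rw [evh_sum]
        exact Finset.sum_congr rfl fun c _ => evh_smul _ _ _ _
      rw [e1, HahnSeries.coeff_sum]
      ext n
      rw [Finsupp.finsetSum_apply]
      have e2 : ∀ (s : Finset (σ → ℤ)) (v : (σ → ℤ) → Pool.Agent.TH603.EL.Lau F),
          (∑ c ∈ s, v c).coeff n = ∑ c ∈ s, (v c).coeff n := by
        intro s v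
        induction s using Finset.induction_on with
        | empty => simp
        | insert a s ha ih =>
          rw [Finset.sum_insert ha, Finset.sum_insert ha, ← ih]
          rfl
      rw [e2]
      apply Finset.sum_congr rfl
      intro c _
      rw [coeff_incl_C_mul]
    rw [h6] at h5
    have h7 := h5 _ (mem_PF_mono (K := F) (a := α) (b := γ j) (w := w i - r) (by omega))
    rw [pr_sum'] at h7
    rw [← h7]
    apply Finset.sum_congr rfl
    intro c _
    rw [pr_smul']

end Pool.Agent.TH3.IR
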