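import Pool.Agent.TH3.IR.Defs

/-! Division by the nodal curve (piece IR9, second prover helper480). -/

set_option autoImplicit false

namespace Pool.Agent.TH3.IR

open Finset MvPolynomial Pool.Agent.TH603.EL

/-- the nodal curve -/
noncomputable def nod (F : Type) [Field F] : Polynomial (Polynomial (HK F)) :=
  (Polynomial.X - 1) ^ 2 - Polynomial.C (Polynomial.X * (Polynomial.X - 1) ^ 2 +
    Polynomial.C (HahnSeries.single (1 : ℝ) (1 : F)))

/-- the exponents of `f` (outer variable `y`, inner variable `x`) lie in the triangle -/
def InTri {K : Type} [Field K] (L R l r : ℝ) (f : Polynomial (Polynomial K)) : Prop :=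
  ∀ b, ∀ n ∈ (f.coeff b).support, L + l * b ≤ n ∧ (n : ℝ) ≤ R - r * b

namespace Div

variable {K : Type} [Field K]

/-- the exponents of `p` lie in `[lo, hi]` -/
def Sup (lo hi : ℝ) (p : Polynomial K) : Prop := ∀ n ∈ p.support, lo ≤ n ∧ (n : ℝ) ≤ hi

theorem Sup.mono {lo hi lo' hi' : ℝ} {p : Polynomial K} (h : Sup lo hi p) (h1 : lo' ≤ lo)
    (h2 : hi ≤ hi') : Sup lo' hi' p := fun n hn => ⟨h1.trans (h n hn).1, (h n hn).2.trans h2⟩

theorem Sup.zero {lo hi : ℝ} : Sup lo hi (0 : Polynomial K) := by
  intro n hn
  simp at hn

theorem Sup.add {lo hi : ℝ} {p q : Polynomial K} (hp : Sup lo hi p) (hq : Sup lo hi q) :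
    Sup lo hi (p + q) := by
  intro n hn
  rw [Polynomial.mem_support_iff, Polynomial.coeff_add] at hn
  by_cases h : p.coeff n = 0
  · apply hq n
    rw [Polynomial.mem_support_iff]
    intro h'
    exact hn (by rw [h, h', add_zero])
  · exact hp n (Polynomial.mem_support_iff.2 h)

theorem Sup.neg {lo hi : ℝ} {p : Polynomial K} (hp : Sup lo hi p) : Sup lo hi (-p) := by
  intro n hn
  rw [Polynomial.support_neg] at hn
  exact hp n hn

theorem Sup.sub {lo hi : ℝ} {p q : Polynomial K} (hp : Sup lo hi p) (hq : Sup lo hi q) :
    Sup lo hi (p - q) := by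
  rw [sub_eq_add_neg]
  exact hp.add hq.neg

theorem Sup.mul {lo hi : ℝ} {p c : Polynomial K} (hp : Sup lo hi p) (hc : c.natDegree ≤ 3) :
    Sup lo (hi + 3) (p * c) := by
  intro n hn
  rw [Polynomial.mem_support_iff, Polynomial.coeff_mul] at hn
  obtain ⟨⟨i, j⟩, hij, hne⟩ := Finset.exists_ne_zero_of_sum_ne_zero hn
  rw [Finset.HasAntidiagonal.mem_antidiagonal] at hij
  have h1 : p.coeff i ≠ 0 := left_ne_zero_of_mul hne
  have h2 : c.coeff j ≠ 0 := right_ne_zero_of_mul hne
  obtain ⟨h3, h4⟩ := hp i (Polynomial.mem_support_iff.2 h1)
  have h5 : j ≤ 3 := (Polynomial.le_natDegree_of_ne_zero h2).trans hc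
  have h6 : (n : ℝ) = i + j := by
    have : n = i + j := hij.symm
    rw [this]
    push_cast
    ring
  have h7 : (j : ℝ) ≤ 3 := by exact_mod_cast h5
  have h8 : (0 : ℝ) ≤ j := Nat.cast_nonneg j
  rw [h6]
  constructor <;> linarith

theorem div_aux {c : Polynomial K} (hc : c.natDegree ≤ 3) {L R l r : ℝ} (hl : 0 ≤ l)
    (hr : 3 / 2 ≤ r) (N : ℕ) : ∀ f : Polynomial (Polynomial K), f.natDegree ≤ N →
    InTri L R l r f → ∃ (A B : Polynomial K) (q : Polynomial (Polynomial K)),
      f = Polynomial.C A + Polynomial.C B * Polynomial.X +
        (Polynomial.X ^ 2 - 2 * Polynomial.X + Polynomial.C c) * q ∧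
      Sup L R A ∧ Sup (L + l) (R - r) B ∧ InTri (L + 2 * l) (R - 2 * r) l r q ∧
      (q = 0 ∨ q.natDegree + 2 ≤ f.natDegree) := by
  induction N with
  | zero =>
    intro f hf hT
    refine ⟨f.coeff 0, 0, 0, ?_, ?_, Sup.zero, ?_, Or.inl rfl⟩
    · rw [Polynomial.eq_C_of_natDegree_le_zero hf]
      simp
    · intro n hn
      have := hT 0 n hn
      simpa using this
    · intro b n hn
      simp at hn
  | succ N ih =>
    intro f hf hT
    by_cases hlt : f.natDegree ≤ 1
    · refine ⟨f.coeff 0, f.coeff 1, 0, ?_, ?_, ?_, ?_, Or.inl rfl⟩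
      · conv_lhs => rw [Polynomial.eq_X_add_C_of_natDegree_le_one hlt]
        ring
      · intro n hn
        have := hT 0 n hn
        simpa using this
      · intro n hn
        have := hT 1 n hn
        simpa using this
      · intro b n hn
        simp at hn
    · obtain ⟨m, hm⟩ : ∃ m, f.natDegree = m + 2 := ⟨f.natDegree - 2, by omega⟩
      obtain ⟨a, ha⟩ : ∃ a, a = f.coeff (m + 2) := ⟨_, rfl⟩
      have haS : Sup (L + l * (m + 2 : ℕ)) (R - r * (m + 2 : ℕ)) a := by
        intro n hn
        rw [ha] at hn
        exact hT (m + 2) n hn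
      obtain ⟨f', hf'⟩ : ∃ f' : Polynomial (Polynomial K), f' = f -
          (Polynomial.monomial (m + 2) a - Polynomial.monomial (m + 1) (2 * a) +
            Polynomial.monomial m (a * c)) := ⟨_, rfl⟩
      have hco : ∀ b, f'.coeff b = f.coeff b - ((if m + 2 = b then a else 0) -
          (if m + 1 = b then 2 * a else 0) + (if m = b then a * c else 0)) := by
        intro b
        rw [hf']
        simp only [Polynomial.coeff_sub, Polynomial.coeff_add, Polynomial.coeff_monomial]
      have hdeg : f'.natDegree ≤ m + 1 := by
        rw [Polynomial.natDegree_le_iff_coeff_eq_zero]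
        intro b hb
        rw [hco]
        by_cases h1 : m + 2 = b
        · subst h1
          rw [if_pos rfl, if_neg (by omega), if_neg (by omega), ← ha]
          ring
        · rw [if_neg h1, if_neg (by omega), if_neg (by omega),
            Polynomial.coeff_eq_zero_of_natDegree_lt (by omega)]
          ring
      have hT' : InTri L R l r f' := by
        intro b
        have hr0 : 0 ≤ r := by linarith
        show Sup (L + l * b) (R - r * b) (f'.coeff b)
        rw [hco]
        by_cases h1 : m + 2 = b
        · subst h1
          rw [if_pos rfl, if_neg (by omega), if_neg (by omega), ← ha]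
          have : a - (a - 0 + 0) = 0 := by ring
          rw [this]
          exact Sup.zero
        · rw [if_neg h1]
          by_cases h2 : m + 1 = b
          · subst h2
            rw [if_pos rfl, if_neg (by omega)]
            have e : f.coeff (m + 1) - (0 - 2 * a + 0) = f.coeff (m + 1) + (a + a) := by ring
            rw [e]
            have ha' : Sup (L + l * (m + 1 : ℕ)) (R - r * (m + 1 : ℕ)) a := by
              apply haS.mono
              · push_cast
                nlinarith
              · push_cast
                nlinarith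
            exact Sup.add (hT (m + 1)) (ha'.add ha')
          · rw [if_neg h2]
            by_cases h3 : m = b
            · subst h3
              rw [if_pos rfl]
              have e : f.coeff m - (0 - 0 + a * c) = f.coeff m - a * c := by ring
              rw [e]
              refine Sup.sub (hT m) ((haS.mul hc).mono ?_ ?_)
              · push_cast
                nlinarith
              · push_cast
                nlinarith
            · rw [if_neg h3]
              have e : f.coeff b - (0 - 0 + 0) = f.coeff b := by ring
              rw [e]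
              exact hT b
      obtain ⟨A, B, q, hq, hA, hB, hqT, hqd⟩ := ih f' (by omega) hT'
      refine ⟨A, B, q + Polynomial.monomial m a, ?_, hA, hB, ?_, Or.inr ?_⟩
      · have e1 : f = f' + (Polynomial.monomial (m + 2) a - Polynomial.monomial (m + 1) (2 * a) +
            Polynomial.monomial m (a * c)) := by rw [hf']; ring
        have e2 : Polynomial.monomial (m + 2) a - Polynomial.monomial (m + 1) (2 * a) +
            Polynomial.monomial m (a * c) =
            (Polynomial.X ^ 2 - 2 * Polynomial.X + Polynomial.C c) * Polynomial.monomial m a := by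
          simp only [← Polynomial.C_mul_X_pow_eq_monomial, map_mul, map_ofNat]
          ring
        rw [e1, e2, mul_add, ← add_assoc, ← hq]
      · intro b
        show Sup (L + 2 * l + l * b) (R - 2 * r - r * b) ((q + Polynomial.monomial m a).coeff b)
        rw [Polynomial.coeff_add, Polynomial.coeff_monomial]
        apply Sup.add (hqT b)
        by_cases h1 : m = b
        · subst h1
          rw [if_pos rfl]
          apply haS.mono
          · push_cast
            linarith
          · push_cast
            linarith
        · rw [if_neg h1]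
          exact Sup.zero
      · have h1 : (Polynomial.monomial m a : Polynomial (Polynomial K)).natDegree ≤ m :=
          Polynomial.natDegree_monomial_le a
        have h2 : q.natDegree ≤ m := by
          rcases hqd with h | h
          · rw [h]
            simp
          · omega
        have h3 := Polynomial.natDegree_add_le q (Polynomial.monomial m a)
        have h4 := max_le h2 h1
        omega

end Div

/-- division by the nodal curve respects the triangle -/
theorem nod_div {F : Type} [Field F] {L R l r : ℝ} (hl : 0 ≤ l) (hr : 3 / 2 ≤ r)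
    {f : Polynomial (Polynomial (HK F))} (hf : InTri L R l r f) :
    ∃ (A B : Polynomial (HK F)) (q : Polynomial (Polynomial (HK F))),
      f = Polynomial.C A + Polynomial.C B * Polynomial.X + nod F * q ∧
      (∀ n ∈ A.support, L ≤ n ∧ (n : ℝ) ≤ R) ∧ (∀ n ∈ B.support, L + l ≤ n ∧ (n : ℝ) ≤ R - r) ∧
      InTri (L + 2 * l) (R - 2 * r) l r q ∧ (f ≠ 0 → q.natDegree < f.natDegree ∨ q = 0) := by
  obtain ⟨t, ht⟩ : ∃ t : HK F, t = HahnSeries.single (1 : ℝ) (1 : F) := ⟨_, rfl⟩
  have hc : (1 - (Polynomial.X * (Polynomial.X - 1) ^ 2 + Polynomial.C t) :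
      Polynomial (HK F)).natDegree ≤ 3 := by
    compute_degree
  obtain ⟨A, B, q, h1, h2, h3, h4, h5⟩ := Div.div_aux hc hl hr f.natDegree f le_rfl hf
  refine ⟨A, B, q, ?_, h2, h3, h4, fun _ => ?_⟩
  · rw [h1]
    unfold nod
    rw [← ht]
    simp only [map_sub, map_add, map_mul, map_one, map_pow]
    ring
  · rcases h5 with h | h
    · exact Or.inr h
    · exact Or.inl (by omega)

end Pool.Agent.TH3.IR
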