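import Pool.Agent.TH3.IR.Pair
import Pool.Agent.TH3.IR.Div

/-! The leading coefficient of a polynomial in the tube around the nodal curve
(piece IR10, written by helper989). -/

set_option autoImplicit false

namespace Pool.Agent.TH3.IR

open Finset MvPolynomial Pool.Agent.TH603.EL Pool.Agent.TH176.Nag

/-- the value of a polynomial in `x`, `y` at the tube -/
noncomputable def evt {F : Type} [Field F] (c b : HR F) : Polynomial (Polynomial (HK F)) →+* HR F :=
  Polynomial.eval₂RingHom (Polynomial.eval₂RingHom incl (c ^ 2)) (1 + b)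

namespace Nodal0

theorem evt_C {F : Type} [Field F] (c b : HR F) (A : Polynomial (HK F)) :
    evt c b (Polynomial.C A) = A.eval₂ incl (c ^ 2) := by
  unfold evt
  rw [Polynomial.coe_eval₂RingHom, Polynomial.eval₂_C, Polynomial.coe_eval₂RingHom]

theorem evt_X {F : Type} [Field F] (c b : HR F) : evt c b Polynomial.X = 1 + b := by
  unfold evt
  rw [Polynomial.coe_eval₂RingHom, Polynomial.eval₂_X]

theorem evt_CA {F : Type} [Field F] (c b : HR F) (A B : Polynomial (HK F)) :
    evt c b (Polynomial.C A + Polynomial.C B * Polynomial.X) =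
      A.eval₂ incl (c ^ 2) + B.eval₂ incl (c ^ 2) * (1 + b) := by
  rw [map_add, map_mul, evt_C, evt_C, evt_X]

theorem tz_mul {F : Type} [Field F] (a a' : ℝ) (i i' j j' : ℤ) :
    tz F a i j * tz F a' i' j' = tz F (a + a') (i + i') (j + j') := by
  unfold tz
  rw [HahnSeries.single_mul_single, AddMonoidAlgebra.single_mul_single, one_mul]
  rfl

theorem incl_t {F : Type} [Field F] : incl (HahnSeries.single (1 : ℝ) (1 : F)) = tz F 1 0 0 := by
  apply cf_ext
  intro a i j
  rw [cf_incl]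
  unfold cf tz
  by_cases ha : a = 1
  · subst ha
    rw [HahnSeries.coeff_single_same, HahnSeries.coeff_single_same, AddMonoidAlgebra.coeff_single,
      Finsupp.single_apply]
    by_cases hij : i = 0 ∧ j = 0
    · rw [if_pos hij, if_pos (by rw [hij.1, hij.2])]
    · rw [if_neg hij, if_neg (by
        intro h
        apply hij
        rw [Prod.mk.injEq] at h
        exact ⟨h.1.symm, h.2.symm⟩)]
  · rw [HahnSeries.coeff_single_of_ne ha, HahnSeries.coeff_single_of_ne ha]
    simp

/-- two leading coefficients with different exponents of `Y` do not cancel -/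
theorem comb {F : Type} [Field F] {x y : HR F} {a1 a2 : ℝ} {P Q : ℤ → ℤ → Prop}
    (hx : Low x a1) (hx0 : x.coeff a1 ≠ 0) (hxP : ∀ i j : ℤ, cf x a1 i j ≠ 0 → j = 0 ∧ P i j)
    (hy : Low y a2) (hy0 : y.coeff a2 ≠ 0) (hyQ : ∀ i j : ℤ, cf y a2 i j ≠ 0 → 1 ≤ j ∧ Q i j) :
    ∃ a : ℝ, Low (x + y) a ∧ (x + y).coeff a ≠ 0 ∧ ∀ i j : ℤ, cf (x + y) a i j ≠ 0 →
      (j = 0 ∧ P i j) ∨ (1 ≤ j ∧ Q i j) := by
  rcases lt_trichotomy a1 a2 with h | h | h
  · have e : (x + y).coeff a1 = x.coeff a1 := by rw [HahnSeries.coeff_add, hy a1 h, add_zero]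
    refine ⟨a1, hx.add (hy.mono h.le), by rw [e]; exact hx0, fun i j hij => Or.inl ?_⟩
    apply hxP
    unfold cf at hij ⊢
    rw [← e]
    exact hij
  · subst h
    have e : ∀ i j : ℤ, cf (x + y) a1 i j = cf x a1 i j + cf y a1 i j := by
      intro i j
      unfold cf
      rw [HahnSeries.coeff_add]
      rfl
    refine ⟨a1, hx.add hy, ?_, fun i j hij => ?_⟩
    · intro h0
      apply hx0
      ext ⟨i, j⟩
      by_contra hne
      have h1 : cf x a1 i j ≠ 0 := hne
      have h2 : cf y a1 i j ≠ 0 := by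
        intro h3
        have h4 := e i j
        rw [h3, add_zero] at h4
        apply h1
        rw [← h4]
        unfold cf
        rw [h0]
        rfl
      have h5 := (hxP i j h1).1
      have h6 := (hyQ i j h2).1
      omega
    · by_cases h1 : cf x a1 i j = 0
      · right
        apply hyQ
        intro h2
        apply hij
        rw [e, h1, h2, add_zero]
      · left
        exact hxP i j h1
  · have e : (x + y).coeff a2 = y.coeff a2 := by rw [HahnSeries.coeff_add, hx a2 h, zero_add]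
    refine ⟨a2, (hx.mono h.le).add hy, by rw [e]; exact hy0, fun i j hij => Or.inr ?_⟩
    apply hyQ
    unfold cf at hij ⊢
    rw [← e]
    exact hij

/-- multiplication by `t ^ e Y` -/
theorem tz_lead {F : Type} [Field F] (e : ℝ) {y : HR F} {a : ℝ} (hy : Low y a)
    (hy0 : y.coeff a ≠ 0) :
    Low (tz F e 0 1 * y) (e + a) ∧ (tz F e 0 1 * y).coeff (e + a) ≠ 0 ∧
      ∀ i j : ℤ, cf (tz F e 0 1 * y) (e + a) i j = cf y a i (j - 1) := by
  have h1 := (low_tz (F := F) e 0 1).mul hy
  have h2 := (low_tz (F := F) e 0 1).coeff_mul hy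
  have h3 : ∀ i j : ℤ, cf (tz F e 0 1 * y) (e + a) i j = cf y a i (j - 1) := by
    intro i j
    unfold cf
    rw [h2, coeff_tz, AddMonoidAlgebra.coeff_single_mul_apply, one_mul]
    congr 1
    simp [sub_eq_neg_add]
  refine ⟨h1, ?_, h3⟩
  intro h0
  apply hy0
  ext ⟨i, j⟩
  have h4 := h3 i (j + 1)
  rw [add_sub_cancel_right] at h4
  change cf y a i j = 0
  rw [← h4]
  unfold cf
  rw [h0]
  rfl

end Nodal0

open Nodal0

theorem evt_nod {F : Type} [Field F] [CharZero F] {τ s : ℝ} {c b : HR F}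
    (hc2 : 2 * (c ^ 3 - c) = xi F τ - eta F τ s) (hb : 2 * b = xi F τ + eta F τ s) :
    evt c b (nod F) = tz F (1 + s) 0 1 := by
  have h1 : evt c b (nod F) = b ^ 2 - (c ^ 3 - c) ^ 2 - tz F 1 0 0 := by
    rw [← incl_t]
    unfold nod
    have hsub : ∀ x y : Polynomial (Polynomial (HK F)),
        evt c b (x - y) = evt c b x - evt c b y := by
      intro x y
      have h := (evt c b).map_add (x - y) y
      have e : x - y + y = x := sub_add_cancel x y
      rw [e] at h
      exact eq_sub_of_add_eq h.symm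
    rw [hsub, RingHom.map_pow, hsub, RingHom.map_one, evt_X, evt_C]
    simp only [Polynomial.eval₂_add, Polynomial.eval₂_mul, Polynomial.eval₂_pow,
      Polynomial.eval₂_sub, Polynomial.eval₂_one, Polynomial.eval₂_C, Polynomial.eval₂_X]
    ring
  have h2 : 4 * (b ^ 2 - (c ^ 3 - c) ^ 2) = 4 * (xi F τ * eta F τ s) := by
    have : 4 * (b ^ 2 - (c ^ 3 - c) ^ 2) = (2 * b) ^ 2 - (2 * (c ^ 3 - c)) ^ 2 := by ring
    rw [this, hb, hc2]
    ring
  have h4 : (4 : HR F) ≠ 0 := by
    intro h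
    have h5 := congrArg (fun x : HR F => cf x 0 0 0) h
    have h6 : (4 : HR F) = incl (4 : HK F) := by rw [map_ofNat]
    rw [h6] at h5
    simp only [cf_incl] at h5
    have h7 : ((4 : HK F)).coeff 0 = 4 := by
      have : (4 : HK F) = HahnSeries.C (4 : F) := by rw [map_ofNat]
      rw [this]
      simp
    rw [h7] at h5
    simp [cf] at h5
  have h3 : b ^ 2 - (c ^ 3 - c) ^ 2 = xi F τ * eta F τ s := mul_left_cancel₀ h4 h2
  rw [h1, h3]
  unfold xi eta
  rw [mul_add, mul_one, mul_add, tz_mul, tz_mul, tz_mul]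
  have e1 : τ + (1 - τ) = 1 := by ring
  have e2 : τ + (1 - τ + s) = 1 + s := by ring
  rw [e1, e2]
  simp

theorem nodal_lead0 {F : Type} [Field F] [CharZero F] {τ s : ℝ} (h0 : 0 < τ) (h1 : τ < 1)
    {c b : HR F} (hc : c ∈ Cone F τ s) (hc2 : 2 * (c ^ 3 - c) = xi F τ - eta F τ s)
    (hc1 : Low (c - 1) (min τ (1 - τ))) (hb : 2 * b = xi F τ + eta F τ s)
    {f : Polynomial (Polynomial (HK F))} {L R l r : ℝ} (hl : 0 ≤ l) (hr : 3 / 2 ≤ r) (hne : f ≠ 0)
    (hf : InTri L R l r f) (hs : 2 * (R - L) < s) (hs0 : 0 < s) :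
    ∃ a : ℝ, Low (evt c b f) a ∧ (evt c b f).coeff a ≠ 0 ∧
      ∀ i j : ℤ, cf (evt c b f) a i j ≠ 0 →
        0 ≤ j ∧ -(2 * (R - L - 2 * (l + r) * j) * τ) ≤ i ∧
          (i : ℝ) ≤ 2 * (R - L - 2 * (l + r) * j) * (1 - τ) := by
  obtain ⟨n, hn⟩ : ∃ n, n = f.natDegree := ⟨_, rfl⟩
  induction n using Nat.strong_induction_on generalizing f L R with
  | _ n ih =>
    obtain ⟨A, B, q, hfq, hA, hB, hq, hdeg⟩ := nod_div hl hr hf
    have hev : evt c b f = evt c b (Polynomial.C A + Polynomial.C B * Polynomial.X) +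
        tz F (1 + s) 0 1 * evt c b q := by
      conv_lhs => rw [hfq]
      rw [map_add, map_mul, evt_nod hc2 hb]
    have hpair : A ≠ 0 ∨ B ≠ 0 → ∃ a : ℝ,
        Low (evt c b (Polynomial.C A + Polynomial.C B * Polynomial.X)) a ∧
        (evt c b (Polynomial.C A + Polynomial.C B * Polynomial.X)).coeff a ≠ 0 ∧
        ∀ i j : ℤ, cf (evt c b (Polynomial.C A + Polynomial.C B * Polynomial.X)) a i j ≠ 0 →
          j = 0 ∧ (-(2 * (R - L - 2 * (l + r) * j) * τ) ≤ i ∧
            (i : ℝ) ≤ 2 * (R - L - 2 * (l + r) * j) * (1 - τ)) := by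
      intro hAB
      obtain ⟨a, ha1, ha2, ha3⟩ := pair_lead h0 h1 hc hc2 hc1 hb hl hr hAB hA hB hs hs0
      rw [← evt_CA] at ha1 ha2
      refine ⟨a, ha1, ha2, fun i j hij => ?_⟩
      obtain ⟨h3, h4, h5⟩ := ha3 i j (by rw [← evt_CA]; exact hij)
      subst h3
      refine ⟨rfl, ?_, ?_⟩
      · simpa using h4
      · simpa using h5
    rcases eq_or_ne q 0 with hq0 | hq0
    · subst hq0
      have hAB : A ≠ 0 ∨ B ≠ 0 := by
        by_contra hcon
        push Not at hcon
        apply hne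
        rw [hfq, hcon.1, hcon.2]
        simp
      rw [map_zero, mul_zero, add_zero] at hev
      rw [hev]
      obtain ⟨a, ha1, ha2, ha3⟩ := hpair hAB
      exact ⟨a, ha1, ha2, fun i j hij => ⟨(ha3 i j hij).1.ge, (ha3 i j hij).2⟩⟩
    · have hlt : q.natDegree < n := by
        rcases hdeg hne with h | h
        · omega
        · exact absurd h hq0
      obtain ⟨a, ha1, ha2, ha3⟩ := ih q.natDegree hlt hq0 hq
        (by nlinarith) rfl
      obtain ⟨hy1, hy2, hy3⟩ := tz_lead (F := F) (1 + s) ha1 ha2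
      have hyQ : ∀ i j : ℤ, cf (tz F (1 + s) 0 1 * evt c b q) (1 + s + a) i j ≠ 0 →
          1 ≤ j ∧ (-(2 * (R - L - 2 * (l + r) * j) * τ) ≤ i ∧
            (i : ℝ) ≤ 2 * (R - L - 2 * (l + r) * j) * (1 - τ)) := by
        intro i j hij
        rw [hy3] at hij
        obtain ⟨h3, h4, h5⟩ := ha3 i (j - 1) hij
        push_cast at h4 h5
        refine ⟨by omega, ?_, ?_⟩
        · refine le_trans (le_of_eq ?_) h4
          ring
        · refine h5.trans (le_of_eq ?_)
          ring
      by_cases hAB : A ≠ 0 ∨ B ≠ 0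
      · obtain ⟨a', hb1, hb2, hb3⟩ := hpair hAB
        obtain ⟨a'', k1, k2, k3⟩ := comb hb1 hb2 hb3 hy1 hy2 hyQ
        rw [hev]
        refine ⟨a'', k1, k2, fun i j hij => ?_⟩
        rcases k3 i j hij with ⟨h, h'⟩ | ⟨h, h'⟩
        · exact ⟨h.ge, h'⟩
        · exact ⟨by omega, h'⟩
      · push Not at hAB
        rw [hAB.1, hAB.2] at hev
        simp only [map_zero, zero_mul, add_zero, zero_add] at hev
        rw [hev]
        exact ⟨1 + s + a, hy1, hy2, fun i j hij =>
          ⟨by have := (hyQ i j hij).1; omega, (hyQ i j hij).2⟩⟩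

end Pool.Agent.TH3.IR
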