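import Pool.Agent.TH3.IR.Defs

/-! # Affine changes of the first coordinate -/

set_option autoImplicit false

namespace Pool.Agent.TH3.IR

open Finset Pool.Agent.TH603.EL

namespace Comap

section PFS
variable (K : Type) [Field K] (σ : Type) [Fintype σ]

/-- polynomial functions on `K × K ^ σ` of degree less than `w` -/
def PFS (w : ℕ) : Submodule K (K × (σ → K) → K) :=
  Submodule.span K {P | ∃ (α : ℕ) (γ : σ → ℕ), α + ∑ i, γ i < w ∧
    P = fun u => u.1 ^ α * ∏ i, u.2 i ^ γ i}

variable {K σ}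

theorem mem_PFS {α w : ℕ} {γ : σ → ℕ} (h : α + ∑ i, γ i < w) :
    (fun u : K × (σ → K) => u.1 ^ α * ∏ i, u.2 i ^ γ i) ∈ PFS K σ w :=
  Submodule.subset_span ⟨α, γ, h, rfl⟩

theorem PFS_mono {w w' : ℕ} (h : w ≤ w') : PFS K σ w ≤ PFS K σ w' := by
  apply Submodule.span_mono
  rintro P ⟨a, b, hab, rfl⟩
  exact ⟨a, b, by omega, rfl⟩

theorem PFS_mul_fst {w : ℕ} {P : K × (σ → K) → K} (hP : P ∈ PFS K σ w) :
    (fun u => u.1 * P u) ∈ PFS K σ (w + 1) := by
  induction hP using Submodule.span_induction with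
  | mem x h =>
    obtain ⟨a, b, hab, rfl⟩ := h
    have h1 := mem_PFS (K := K) (α := a + 1) (γ := b) (w := w + 1) (by omega)
    have e : (fun u : K × (σ → K) => u.1 * (u.1 ^ a * ∏ i, u.2 i ^ b i)) =
        fun u => u.1 ^ (a + 1) * ∏ i, u.2 i ^ b i := by
      funext u
      ring
    rw [e]
    exact h1
  | zero =>
    have e : (fun u : K × (σ → K) => u.1 * (0 : K × (σ → K) → K) u) = 0 := by
      funext u
      simp
    rw [e]
    exact (PFS K σ (w + 1)).zero_mem
  | add x y _ _ hx hy =>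
    have e : (fun u : K × (σ → K) => u.1 * (x + y) u) =
        (fun u => u.1 * x u) + fun u => u.1 * y u := by
      funext u
      simp [mul_add]
    rw [e]
    exact (PFS K σ (w + 1)).add_mem hx hy
  | smul a x _ hx =>
    have e : (fun u : K × (σ → K) => u.1 * (a • x) u) = a • fun u => u.1 * x u := by
      funext u
      simp
      ring
    rw [e]
    exact (PFS K σ (w + 1)).smul_mem a hx

theorem PFS_mul_snd {w : ℕ} (j : σ) {P : K × (σ → K) → K} (hP : P ∈ PFS K σ w) :
    (fun u => u.2 j * P u) ∈ PFS K σ (w + 1) := by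
  classical
  induction hP using Submodule.span_induction with
  | mem x h =>
    obtain ⟨a, b, hab, rfl⟩ := h
    have hs : ∑ i, (b i + if i = j then 1 else 0) = ∑ i, b i + 1 := by
      rw [Finset.sum_add_distrib]
      simp
    have h1 := mem_PFS (K := K) (α := a) (γ := fun i => b i + if i = j then 1 else 0)
      (w := w + 1) (by rw [hs]; omega)
    have e : (fun u : K × (σ → K) => u.2 j * (u.1 ^ a * ∏ i, u.2 i ^ b i)) =
        fun u => u.1 ^ a * ∏ i, u.2 i ^ (b i + if i = j then 1 else 0) := by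
      funext u
      have h2 : ∏ i, u.2 i ^ (b i + if i = j then 1 else 0) = (∏ i, u.2 i ^ b i) * u.2 j := by
        have h3 : ∀ i, u.2 i ^ (b i + if i = j then 1 else 0) =
            u.2 i ^ b i * (if i = j then u.2 i else 1) := by
          intro i
          rw [pow_add]
          split_ifs with h
          · rw [pow_one]
          · rw [pow_zero]
        rw [Finset.prod_congr rfl fun i _ => h3 i, Finset.prod_mul_distrib]
        simp
      rw [h2]
      ring
    rw [e]
    exact h1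
  | zero =>
    have e : (fun u : K × (σ → K) => u.2 j * (0 : K × (σ → K) → K) u) = 0 := by
      funext u
      simp
    rw [e]
    exact (PFS K σ (w + 1)).zero_mem
  | add x y _ _ hx hy =>
    have e : (fun u : K × (σ → K) => u.2 j * (x + y) u) =
        (fun u => u.2 j * x u) + fun u => u.2 j * y u := by
      funext u
      simp [mul_add]
    rw [e]
    exact (PFS K σ (w + 1)).add_mem hx hy
  | smul a x _ hx =>
    have e : (fun u : K × (σ → K) => u.2 j * (a • x) u) = a • fun u => u.2 j * x u := by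
      funext u
      simp
      ring
    rw [e]
    exact (PFS K σ (w + 1)).smul_mem a hx

theorem PFS_mul_aff {w : ℕ} {P : K × (σ → K) → K} (hP : P ∈ PFS K σ w) (c0 c1 : K) (p : σ → K) :
    (fun u => (c1 * u.1 + ∑ i, p i * u.2 i + c0) * P u) ∈ PFS K σ (w + 1) := by
  have h0 := (PFS K σ (w+1)).smul_mem c0 (PFS_mono (Nat.le_succ w) hP)
  have h1 := (PFS K σ (w+1)).smul_mem c1 (PFS_mul_fst hP)
  have h2 := (PFS K σ (w+1)).sum_mem (t := Finset.univ) (f := fun i : σ =>
    p i • fun u : K × (σ → K) => u.2 i * P u)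
    fun i _ => (PFS K σ (w+1)).smul_mem (p i) (PFS_mul_snd i hP)
  have e : (fun u : K × (σ → K) => (c1 * u.1 + ∑ i, p i * u.2 i + c0) * P u) =
      (c1 • fun u : K × (σ → K) => u.1 * P u) +
        (∑ i, p i • fun u : K × (σ → K) => u.2 i * P u) + c0 • P := by
    funext u
    simp only [Pi.add_apply, Pi.smul_apply, smul_eq_mul, Finset.sum_apply]
    rw [add_mul, add_mul, Finset.sum_mul]
    congr 1
    congr 1
    · ring
    · refine Finset.sum_congr rfl fun i _ => ?_
      ring
  rw [e]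
  exact (PFS K σ (w+1)).add_mem ((PFS K σ (w+1)).add_mem h1 h2) h0

theorem PFS_aff {w α : ℕ} {γ : σ → ℕ} (h : α + ∑ i, γ i < w) (c0 c1 : K) (p : σ → K) :
    (fun u : K × (σ → K) => (c1 * u.1 + ∑ i, p i * u.2 i + c0) ^ α * ∏ i, u.2 i ^ γ i) ∈
      PFS K σ w := by
  have key : ∀ a : ℕ, (fun u : K × (σ → K) =>
      (c1 * u.1 + ∑ i, p i * u.2 i + c0) ^ a * ∏ i, u.2 i ^ γ i) ∈ PFS K σ (a + ∑ i, γ i + 1) := by
    intro a
    induction a with
    | zero =>
      have h1 := mem_PFS (K := K) (α := 0) (γ := γ) (w := 0 + ∑ i, γ i + 1) (by omega)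
      have e : (fun u : K × (σ → K) =>
          (c1 * u.1 + ∑ i, p i * u.2 i + c0) ^ 0 * ∏ i, u.2 i ^ γ i) =
          fun u => u.1 ^ 0 * ∏ i, u.2 i ^ γ i := by
        funext u
        rw [pow_zero, pow_zero]
      rw [e]
      exact h1
    | succ a ih =>
      have h1 := PFS_mul_aff ih c0 c1 p
      have e : a + 1 + ∑ i, γ i + 1 = a + ∑ i, γ i + 1 + 1 := by ring
      rw [e]
      have e2 : (fun u : K × (σ → K) =>
          (c1 * u.1 + ∑ i, p i * u.2 i + c0) ^ (a + 1) * ∏ i, u.2 i ^ γ i) =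
          fun u => (c1 * u.1 + ∑ i, p i * u.2 i + c0) *
            ((c1 * u.1 + ∑ i, p i * u.2 i + c0) ^ a * ∏ i, u.2 i ^ γ i) := by
        funext u
        rw [pow_succ]
        ring
      rw [e2]
      exact h1
  exact PFS_mono (by omega) (key α)

end PFS

section pr
variable {K : Type} [Field K] {σ : Type} [Fintype σ]

/-- the pairing, as a linear map -/
noncomputable def prS (f : (ℤ × (σ → ℤ)) →₀ K) (x : K) (y : σ → K) : (K × (σ → K) → K) →ₗ[K] K where
  toFun P := ∑ m ∈ f.support, f m * P ((m.1 : K), fun i => (m.2 i : K)) * ch x y m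
  map_add' P Q := by
    rw [← Finset.sum_add_distrib]
    refine Finset.sum_congr rfl fun m _ => ?_
    rw [Pi.add_apply]
    ring
  map_smul' c P := by
    rw [RingHom.id_apply, smul_eq_mul, Finset.mul_sum]
    refine Finset.sum_congr rfl fun m _ => ?_
    rw [Pi.smul_apply, smul_eq_mul]
    ring

theorem prS_of_LMS {f : (ℤ × (σ → ℤ)) →₀ K} {x : K} {y : σ → K} {w : ℕ} (h : LMS f x y w)
    {P : K × (σ → K) → K} (hP : P ∈ PFS K σ w) : prS f x y P = 0 := by
  have h1 : PFS K σ w ≤ LinearMap.ker (prS f x y) := by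
    apply Submodule.span_le.2
    rintro P ⟨α, γ, hw, rfl⟩
    exact h α γ hw
  exact h1 hP

theorem zpow_sum' {x : K} (hx : x ≠ 0) (s : Finset σ) (g : σ → ℤ) :
    x ^ (∑ i ∈ s, g i) = ∏ i ∈ s, x ^ g i := by
  classical
  induction s using Finset.induction_on with
  | empty => simp
  | insert a s ha ih => rw [Finset.sum_insert ha, Finset.prod_insert ha, zpow_add₀ hx, ih]

end pr

end Comap

open Comap

/-- affine changes of the first coordinate -/
theorem EmpS.comap {ι σ : Type} [Fintype σ] {w : ι → ℕ} {S S' : Set (ℤ × (σ → ℤ))}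
    (h : EmpS w S') (s : ℤ) (hs : s = 1 ∨ s = -1) (p : σ → ℤ) (u : ℤ)
    (hS : ∀ m ∈ S, (s * m.1 + ∑ i, p i * m.2 i + u, m.2) ∈ S') : EmpS w S := by
  obtain ⟨K, _, _, X, Y, hX, hY, hf⟩ := h
  obtain ⟨φ, hφd⟩ : ∃ φ : ℤ × (σ → ℤ) → ℤ × (σ → ℤ), φ = fun m =>
    (s * m.1 + ∑ i, p i * m.2 i + u, m.2) := ⟨_, rfl⟩
  have hφ : Function.Injective φ := by
    rintro ⟨a, b⟩ ⟨a', b'⟩ h
    rw [hφd] at h
    simp only [Prod.mk.injEq] at h
    obtain ⟨h1, rfl⟩ := h
    have h2 : s * a = s * a' := by linarith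
    have h3 : a = a' := by
      rcases hs with rfl | rfl
      · linarith
      · linarith
    rw [h3]
  refine ⟨K, _, inferInstance, fun i => X i ^ s, fun i j => X i ^ p j * Y i j,
    fun i => zpow_ne_zero _ (hX i), fun i j => mul_ne_zero (zpow_ne_zero _ (hX i)) (hY i j), ?_⟩
  intro f hfS hfL
  have hch : ∀ i m, ch (X i) (Y i) (φ m) =
      X i ^ u * ch (X i ^ s) (fun j => X i ^ p j * Y i j) m := by
    intro i m
    unfold ch
    rw [hφd]
    show X i ^ (s * m.1 + ∑ j, p j * m.2 j + u) * ∏ j, Y i j ^ m.2 j = _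
    have h1 : ∏ j, (X i ^ p j * Y i j) ^ m.2 j =
        X i ^ (∑ j, p j * m.2 j) * ∏ j, Y i j ^ m.2 j := by
      rw [zpow_sum' (hX i), ← Finset.prod_mul_distrib]
      refine Finset.prod_congr rfl fun j _ => ?_
      rw [mul_zpow, ← zpow_mul]
    rw [h1, ← zpow_mul, zpow_add₀ (hX i), zpow_add₀ (hX i)]
    ring
  have h1 : f.mapDomain φ = 0 := by
    classical
    apply hf
    · intro m hm
      have := Finsupp.mapDomain_support hm
      simp only [Finset.mem_image] at this
      obtain ⟨m', hm', rfl⟩ := this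
      rw [hφd]
      exact hS m' (hfS hm')
    · intro i α γ hw
      have h2 := prS_of_LMS (hfL i) (PFS_aff (K := K) (σ := σ) hw (u : K) (s : K)
        (fun j => (p j : K)))
      have h3 : prS f (X i ^ s) (fun j => X i ^ p j * Y i j)
          (fun v : K × (σ → K) => ((s : K) * v.1 + ∑ j, (p j : K) * v.2 j + (u : K)) ^ α *
            ∏ j, v.2 j ^ γ j) = ∑ m ∈ f.support, f m * (((s : K) * (m.1 : K) +
            ∑ j, (p j : K) * (m.2 j : K) + (u : K)) ^ α * ∏ j, (m.2 j : K) ^ γ j) *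
            ch (X i ^ s) (fun j => X i ^ p j * Y i j) m := rfl
      rw [h3] at h2
      unfold mo
      rw [Finsupp.sum_mapDomain_index (by intro m; simp) (by intro m a b; ring)]
      unfold Finsupp.sum
      have h4 : ∑ m ∈ f.support, f m * (((φ m).1 : K) ^ α * ∏ j, ((φ m).2 j : K) ^ γ j) *
          ch (X i) (Y i) (φ m) = X i ^ u * ∑ m ∈ f.support, f m * (((s : K) * (m.1 : K) +
            ∑ j, (p j : K) * (m.2 j : K) + (u : K)) ^ α * ∏ j, (m.2 j : K) ^ γ j) *
            ch (X i ^ s) (fun j => X i ^ p j * Y i j) m := by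
        rw [Finset.mul_sum]
        refine Finset.sum_congr rfl fun m _ => ?_
        have e1 : ((φ m).1 : K) = (s : K) * (m.1 : K) + ∑ j, (p j : K) * (m.2 j : K) + (u : K) := by
          rw [hφd]
          push_cast
          rfl
        have e2 : (φ m).2 = m.2 := by rw [hφd]
        rw [hch, e1, e2]
        ring
      rw [h4, h2, mul_zero]
  exact (Finsupp.mapDomain_injective hφ) (by rw [h1, Finsupp.mapDomain_zero])

end Pool.Agent.TH3.IR
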