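import Pool.Agent.TH3.IR.Theta0
import Pool.Agent.TH3.IR.Comap
import Pool.Agent.TH3.IR.Step

/-! The theta step in every dimension (job IR13 of helper3, written by helper761). -/

set_option autoImplicit false

namespace Pool.Agent.TH3.IR

open Finset MvPolynomial Pool.Agent.TH603.EL

theorem EmpS_theta {ι σ : Type} [Fintype σ] [DecidableEq σ] {w : ι → ℕ} (d : ℕ) (j : σ)
    {τ : ℝ} (h0 : 0 < τ) (h1 : τ < 1)
    (h : EmpS w (RegS (-((1 + τ) * d)) ((2 - τ) * d)
      (Function.update (fun _ => 1 + τ) j (3 * (1 + τ)))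
      (Function.update (fun _ => 2 - τ) j (3 * (2 - τ))))) :
    EmpS w (RegS (0 : ℝ) d (fun _ : σ => 0) (fun _ => 1)) := by
  classical
  have h' : EmpS w {m : ℤ × (σ → ℤ) | ((m.1 - m.2 j, m.2) : ℤ × (σ → ℤ)) ∈
      RegS (-((1 + τ) * d)) ((2 - τ) * d)
      (Function.update (fun _ => 1 + τ) j (3 * (1 + τ)))
      (Function.update (fun _ => 2 - τ) j (3 * (2 - τ)))} := by
    refine EmpS.comap h 1 (Or.inl rfl) (Function.update 0 j (-1)) 0 fun m hm => ?_
    have h2 : ∑ i, (Function.update (0 : σ → ℤ) j (-1)) i * m.2 i = - m.2 j := by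
      rw [← Finset.add_sum_erase _ _ (Finset.mem_univ j), Function.update_self,
        Finset.sum_eq_zero fun i hi => by
          rw [Function.update_of_ne (Finset.ne_of_mem_erase hi)]
          simp]
      ring
    have h3 : (1 * m.1 + ∑ i, (Function.update (0 : σ → ℤ) j (-1)) i * m.2 i + 0 : ℤ) =
        m.1 - m.2 j := by
      rw [h2]
      ring
    rw [h3]
    exact hm
  refine EmpS_step j (d := d) (fun m hm => ?_) (fun F _ _ => ?_) h'
  · obtain ⟨g1, g2, g3⟩ := hm
    refine ⟨?_, g1 j, ?_⟩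
    · have : (0 : ℝ) ≤ m.1 := by simpa using g2
      exact_mod_cast this
    · have h4 : (m.2 j : ℝ) ≤ ∑ i, (m.2 i : ℝ) :=
        Finset.single_le_sum (f := fun i => (m.2 i : ℝ))
          (fun i _ => by exact_mod_cast g1 i) (Finset.mem_univ j)
      have h5 : (m.1 : ℝ) ≤ d - ∑ i, (m.2 i : ℝ) := by simpa using g3
      have : ((m.1 + m.2 j : ℤ) : ℝ) ≤ ((d : ℤ) : ℝ) := by
        push_cast
        linarith
      exact_mod_cast this
  · refine ⟨tube F τ (3 * d + 4), fun x y hx hy l => ?_, fun c f hne hf => ?_⟩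
    · exact evp_tube hx hy h0 h1 (by
        have : (0 : ℝ) ≤ d := Nat.cast_nonneg d
        linarith) l
    · have := theta_slices d j h0 h1 (F := F) (s := 3 * d + 4) (by linarith) c f hne hf
      simp only [Set.mem_ofPred_eq, Function.update_self]
      exact this

end Pool.Agent.TH3.IR
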