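import Pool.Agent.TH3.IR.Asm0
import Pool.Agent.TH3.IR.Flat
import Pool.Agent.TH3.IR.Nodal
import Pool.Agent.TH3.IR.Theta
import Pool.Agent.TH3.IR.Final

/-!
# IR15 : emptiness on the simplex (helper480, job 4517)
-/

set_option autoImplicit false

namespace Pool.Agent.TH3.IR

open Finset Pool.Agent.TH603.EL

/-- emptiness on the simplex of size `d` in dimension `N = card σ + 1` for `n ≥ 3 ^ N` points -/
theorem EmpS_simplex {ι σ : Type} [Fintype ι] [Fintype σ] [Nonempty σ]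
    (hn : 3 ^ (Fintype.card σ + 1) ≤ Fintype.card ι) (d : ℕ) (w : ι → ℕ) {ρ : ℝ} (hρ : 0 < ρ)
    (hρN : ρ ^ (Fintype.card σ + 1) = Fintype.card ι)
    (hw : ρ ^ Fintype.card σ * d < ∑ i, (w i : ℝ)) :
    EmpS w (RegS (0 : ℝ) d (fun _ : σ => 0) (fun _ => 1)) :=
  EmpS_simplex_of (fun hμ hν j hj hpos v hv h => EmpS_flat hμ hν j hj hpos v hv h)
    (fun hμ hν hpos j hj _ h0 h1 h => EmpS_nodal hμ hν hpos j hj h0 h1 h)
    (fun d j _ h0 h1 h => EmpS_theta d j h0 h1 h)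
    (fun hμ hν hn hw => EmpS_final hμ hν hn hw) hn d w hρ hρN hw

end Pool.Agent.TH3.IR
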