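import Pool.Agent.TH3.IR.Defs

/-!
# IR15, first part (helper480, job 4517): the induction over the height coordinates

The four pieces used (IR4 `EmpS_flat`, IR12 `EmpS_nodal`, IR13 `EmpS_theta`, IR14 `EmpS_final`) are
hypotheses here: `EmpS_simplex_of`.  With `W = R - L` and `σ_i = μ_i + ν_i`:
* a flattening with `μ_j + v = λ σ_j` multiplies `W` and the `σ_i`, `i ≠ j`, by `λ` and `σ_j` by `λ ^ 2`;
* nodal step and flattening with `λ = ρ / 2`: `W`, `σ_i` are multiplied by `ρ`, `σ_j` by `ρ ^ 2`;
* theta step and flattening with `λ = ρ / 3`: `W` from `d` to `ρ d`, `σ_i` from `1` to `ρ`, `σ_j` to `ρ ^ 2`.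
-/

set_option autoImplicit false

namespace Pool.Agent.TH3.IR

open Finset Pool.Agent.TH603.EL

/-- the statement of `EmpS_flat` -/
def StFlat : Prop := ∀ {ι σ : Type} [Fintype σ] [DecidableEq σ] {w : ι → ℕ} {L R : ℝ} {μ ν : σ → ℝ},
    (∀ i, 0 ≤ μ i) → (∀ i, 0 ≤ ν i) → ∀ (j : σ), 0 < μ j + ν j → (∀ i, 0 < μ i + ν i) →
    ∀ (v : ℤ), ν j ≤ v →
    EmpS w (RegS L ((R * (μ j + v) - L * (v - ν j)) / (μ j + ν j))
      (Function.update μ j (μ j + v))
      (Function.update (fun i => (ν i * (μ j + v) + μ i * (v - ν j)) / (μ j + ν j)) j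
        ((μ j + v) * (v - ν j) / (μ j + ν j)))) →
    EmpS w (RegS L R μ ν)

/-- the statement of `EmpS_nodal` -/
def StNodal : Prop := ∀ {ι σ : Type} [Fintype σ] [DecidableEq σ] {w : ι → ℕ} {L R : ℝ}
    {μ ν : σ → ℝ}, (∀ i, 0 ≤ μ i) → (∀ i, 0 ≤ ν i) → (∀ i, 0 < μ i + ν i) → ∀ (j : σ),
    5 / 2 ≤ μ j + ν j → ∀ {τ : ℝ}, 0 < τ → τ < 1 →
    EmpS w (RegS (-(2 * τ * (R - L))) (2 * (1 - τ) * (R - L))
      (Function.update (fun i => 2 * τ * (μ i + ν i)) j (4 * τ * (μ j + ν j)))
      (Function.update (fun i => 2 * (1 - τ) * (μ i + ν i)) j (4 * (1 - τ) * (μ j + ν j)))) →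
    EmpS w (RegS L R μ ν)

/-- the statement of `EmpS_theta` -/
def StTheta : Prop := ∀ {ι σ : Type} [Fintype σ] [DecidableEq σ] {w : ι → ℕ} (d : ℕ) (j : σ)
    {τ : ℝ}, 0 < τ → τ < 1 →
    EmpS w (RegS (-((1 + τ) * d)) ((2 - τ) * d)
      (Function.update (fun _ => 1 + τ) j (3 * (1 + τ)))
      (Function.update (fun _ => 2 - τ) j (3 * (2 - τ)))) →
    EmpS w (RegS (0 : ℝ) d (fun _ : σ => 0) (fun _ => 1))

/-- the statement of `EmpS_final` -/
def StFinal : Prop := ∀ {ι σ : Type} [Fintype ι] [Fintype σ] {w : ι → ℕ} {L R : ℝ} {μ ν : σ → ℝ},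
    (∀ i, 0 ≤ μ i) → (∀ i, 0 ≤ ν i) → (∀ i, (Fintype.card ι : ℝ) ≤ μ i + ν i) →
    R - L < ∑ i, (w i : ℝ) → EmpS w (RegS L R μ ν)

namespace Asm

/-- regions up to the data which matter: width `W` and sums `s i` of the slopes -/
def Good {ι σ : Type} [Fintype σ] (w : ι → ℕ) (W : ℝ) (s : σ → ℝ) : Prop :=
  ∀ (L R : ℝ) (μ ν : σ → ℝ), (∀ i, 0 ≤ μ i) → (∀ i, 0 ≤ ν i) → R - L = W →
    (∀ i, μ i + ν i = s i) → EmpS w (RegS L R μ ν)

/-- flattening: the width and the sums of the slopes -/
theorem flat (hflat : StFlat) {ι σ : Type} [Fintype σ] [DecidableEq σ] {w : ι → ℕ} {L R : ℝ}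
    {μ ν : σ → ℝ} (hμ : ∀ i, 0 ≤ μ i) (hν : ∀ i, 0 ≤ ν i) (hpos : ∀ i, 0 < μ i + ν i) (j : σ)
    (v : ℤ) (hv : ν j ≤ v) {lam : ℝ} (hl : μ j + v = lam * (μ j + ν j))
    (H : Good w (lam * (R - L))
      (Function.update (fun i => lam * (μ i + ν i)) j (lam ^ 2 * (μ j + ν j)))) :
    EmpS w (RegS L R μ ν) := by
  have hs := hpos j
  have hs' : μ j + ν j ≠ 0 := hs.ne'
  have hv' : (0 : ℝ) ≤ (v : ℝ) - ν j := by linarith
  have hmv : 0 ≤ μ j + v := by linarith [hμ j, hν j]
  have hvn : (v : ℝ) - ν j = (lam - 1) * (μ j + ν j) := by linear_combination hl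
  apply hflat hμ hν j hs hpos v hv
  apply H
  · intro i
    by_cases hi : i = j
    · subst hi
      rw [Function.update_self]
      exact hmv
    · rw [Function.update_of_ne hi]
      exact hμ i
  · intro i
    by_cases hi : i = j
    · subst hi
      rw [Function.update_self]
      exact div_nonneg (mul_nonneg hmv hv') hs.le
    · rw [Function.update_of_ne hi]
      exact div_nonneg (add_nonneg (mul_nonneg (hν i) hmv) (mul_nonneg (hμ i) hv')) hs.le
  · rw [hl, hvn]
    field_simp
    ring
  · intro i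
    by_cases hi : i = j
    · subst hi
      rw [Function.update_self, Function.update_self, Function.update_self, hl, hvn]
      field_simp
      ring
    · rw [Function.update_of_ne hi, Function.update_of_ne hi, Function.update_of_ne hi, hl, hvn]
      field_simp
      ring

/-- a real number minus a suitable integer is in `(0, 1]` -/
theorem exists_int (a : ℝ) : ∃ v : ℤ, 0 < a - v ∧ a - v ≤ 1 := by
  refine ⟨⌈a⌉ - 1, ?_, ?_⟩
  · push_cast
    linarith [Int.ceil_lt_add_one a]
  · push_cast
    linarith [Int.le_ceil a]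

/-- nodal step and flattening -/
theorem nodal (hflat : StFlat) (hnodal : StNodal) {ι σ : Type} [Fintype σ] [DecidableEq σ]
    {w : ι → ℕ} {W : ℝ} {s : σ → ℝ} (hs : ∀ i, 0 < s i) (j : σ) (hj : 5 / 2 ≤ s j) {ρ : ℝ}
    (hρ : 2 ≤ ρ)
    (H : Good w (ρ * W) (Function.update (fun i => ρ * s i) j (ρ ^ 2 * s j))) :
    Good w W s := by
  intro L R μ ν hμ hν hW hsum
  obtain ⟨v, hv0, hv1⟩ := exists_int (2 * s j * ρ)
  have hsj : 0 < s j := hs j
  obtain ⟨τ, hτ⟩ : ∃ τ : ℝ, τ = (2 * s j * ρ - v) / (4 * s j) := ⟨_, rfl⟩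
  have hτv : 4 * τ * s j = 2 * s j * ρ - v := by
    rw [hτ]
    field_simp
  have h0 : 0 < τ := by
    rw [hτ]
    positivity
  have h1 : τ < 1 := by
    by_contra hcon
    push Not at hcon
    have : 4 * s j ≤ 4 * τ * s j := by nlinarith
    linarith
  apply hnodal hμ hν (fun i => by rw [hsum]; exact hs i) j (by rw [hsum]; exact hj) h0 h1
  have e1 : ∀ i, Function.update (fun i => 2 * τ * (μ i + ν i)) j (4 * τ * (μ j + ν j)) i +
      Function.update (fun i => 2 * (1 - τ) * (μ i + ν i)) j (4 * (1 - τ) * (μ j + ν j)) i =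
      Function.update (fun i => 2 * s i) j (4 * s j) i := by
    intro i
    by_cases hi : i = j
    · subst hi
      simp only [Function.update_self]
      rw [hsum]
      ring
    · simp only [Function.update_of_ne hi]
      rw [hsum]
      ring
  have e2 : Function.update (fun i => 2 * τ * (μ i + ν i)) j (4 * τ * (μ j + ν j)) j =
      4 * τ * s j := by rw [Function.update_self, hsum]
  have e3 : Function.update (fun i => 2 * (1 - τ) * (μ i + ν i)) j (4 * (1 - τ) * (μ j + ν j)) j =
      4 * (1 - τ) * s j := by rw [Function.update_self, hsum]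
  refine flat hflat (lam := ρ / 2) ?_ ?_ ?_ j v ?_ ?_ ?_
  · intro i
    by_cases hi : i = j
    · subst hi
      rw [e2]
      positivity
    · rw [Function.update_of_ne hi, hsum]
      have := hs i
      positivity
  · intro i
    by_cases hi : i = j
    · subst hi
      rw [e3]
      have : 0 ≤ 1 - τ := by linarith
      positivity
    · rw [Function.update_of_ne hi, hsum]
      have := hs i
      have : 0 ≤ 1 - τ := by linarith
      positivity
  · intro i
    rw [e1]
    by_cases hi : i = j
    · subst hi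
      rw [Function.update_self]
      positivity
    · rw [Function.update_of_ne hi]
      have := hs i
      positivity
  · rw [e3]
    nlinarith
  · rw [e1, e2, Function.update_self]
    linarith
  · intro L' R' μ' ν' hμ' hν' hW' hsum'
    apply H L' R' μ' ν' hμ' hν'
    · rw [hW', ← hW]
      ring
    · intro i
      rw [hsum']
      by_cases hi : i = j
      · subst hi
        simp only [Function.update_self]
        rw [hsum]
        ring
      · simp only [Function.update_of_ne hi]
        rw [hsum]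
        ring

/-- theta step and flattening -/
theorem theta (hflat : StFlat) (htheta : StTheta) {ι σ : Type} [Fintype σ] [DecidableEq σ]
    {w : ι → ℕ} (d : ℕ) (j : σ) {ρ : ℝ} (hρ : 3 ≤ ρ)
    (H : Good w (ρ * d) (Function.update (fun _ : σ => ρ) j (ρ ^ 2))) :
    EmpS w (RegS (0 : ℝ) d (fun _ : σ => 0) (fun _ => 1)) := by
  obtain ⟨v, hv0, hv1⟩ := exists_int (3 * ρ - 3)
  obtain ⟨τ, hτ⟩ : ∃ τ : ℝ, τ = (3 * ρ - 3 - v) / 3 := ⟨_, rfl⟩
  have h0 : 0 < τ := by
    rw [hτ]
    positivity
  have h1 : τ < 1 := by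
    rw [hτ]
    linarith
  apply htheta d j h0 h1
  have e1 : ∀ i, Function.update (fun _ : σ => 1 + τ) j (3 * (1 + τ)) i +
      Function.update (fun _ : σ => 2 - τ) j (3 * (2 - τ)) i =
      Function.update (fun _ : σ => (3 : ℝ)) j 9 i := by
    intro i
    by_cases hi : i = j
    · subst hi
      simp only [Function.update_self]
      ring
    · simp only [Function.update_of_ne hi]
      ring
  have e2 : Function.update (fun _ : σ => 1 + τ) j (3 * (1 + τ)) j = 3 * (1 + τ) := by
    rw [Function.update_self]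
  have e3 : Function.update (fun _ : σ => 2 - τ) j (3 * (2 - τ)) j = 3 * (2 - τ) := by
    rw [Function.update_self]
  refine flat hflat (lam := ρ / 3) ?_ ?_ ?_ j v ?_ ?_ ?_
  · intro i
    by_cases hi : i = j
    · subst hi
      rw [e2]
      positivity
    · rw [Function.update_of_ne hi]
      positivity
  · intro i
    have h2 : 0 ≤ 2 - τ := by linarith
    by_cases hi : i = j
    · subst hi
      rw [e3]
      positivity
    · rw [Function.update_of_ne hi]
      exact h2
  · intro i
    rw [e1]
    by_cases hi : i = j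
    · subst hi
      rw [Function.update_self]
      norm_num
    · rw [Function.update_of_ne hi]
      norm_num
  · rw [e3, hτ]
    linarith
  · rw [e1, e2, Function.update_self, hτ]
    ring
  · intro L' R' μ' ν' hμ' hν' hW' hsum'
    apply H L' R' μ' ν' hμ' hν'
    · rw [hW']
      ring
    · intro i
      rw [hsum']
      by_cases hi : i = j
      · subst hi
        simp only [Function.update_self]
        ring
      · simp only [Function.update_of_ne hi]
        ring

/-- the induction over the coordinates which are not treated -/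
theorem ind (hflat : StFlat) (hnodal : StNodal) (hfinal : StFinal) {ι σ : Type} [Fintype ι]
    [Fintype σ] [DecidableEq σ] {w : ι → ℕ} {ρ : ℝ} (hρ : 3 ≤ ρ) (d : ℕ)
    (hρN : ρ ^ (Fintype.card σ + 1) = Fintype.card ι)
    (hw : ρ ^ Fintype.card σ * d < ∑ i, (w i : ℝ)) (m : ℕ) :
    ∀ T : Finset σ, T.Nonempty → T.card + m = Fintype.card σ →
      Good w (ρ ^ T.card * d) (fun i => if i ∈ T then ρ ^ (T.card + 1) else ρ ^ T.card) := by
  have hρ1 : 1 ≤ ρ := by linarith
  have hρ0 : 0 < ρ := by linarith
  induction m with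
  | zero =>
    intro T _ hT
    have hTu : T = univ := (Finset.card_eq_iff_eq_univ T).1 (by omega)
    intro L R μ ν hμ hν hW hs
    apply hfinal hμ hν
    · intro i
      have hiT : i ∈ T := by rw [hTu]; exact mem_univ i
      rw [hs]
      simp only [if_pos hiT]
      rw [show T.card = Fintype.card σ by omega, hρN]
    · rw [hW, show T.card = Fintype.card σ by omega]
      exact hw
  | succ m ih =>
    intro T hTne hT
    obtain ⟨j, hj⟩ : ∃ j, j ∉ T := by
      by_contra hcon
      push Not at hcon
      have : T = univ := Finset.eq_univ_iff_forall.2 hcon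
      rw [this, Finset.card_univ] at hT
      omega
    have hc : (insert j T).card = T.card + 1 := Finset.card_insert_of_notMem hj
    have hk : 1 ≤ T.card := hTne.card_pos
    have ih' := ih (insert j T) (Finset.insert_nonempty j T) (by omega)
    apply nodal hflat hnodal (ρ := ρ) _ j _ (by linarith)
    · intro L R μ ν hμ hν hW hs
      apply ih' L R μ ν hμ hν
      · rw [hW, hc]
        ring
      · intro i
        rw [hs, hc]
        by_cases hi : i = j
        · subst hi
          simp only [Function.update_self, if_neg hj, if_pos (Finset.mem_insert_self i T)]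
          ring
        · simp only [Function.update_of_ne hi]
          by_cases hiT : i ∈ T
          · simp only [if_pos hiT, if_pos (Finset.mem_insert_of_mem hiT)]
            ring
          · have hiT' : i ∉ insert j T := by rw [Finset.mem_insert]; tauto
            simp only [if_neg hiT, if_neg hiT']
            ring
    · intro i
      split_ifs <;> positivity
    · rw [if_neg hj]
      calc (5 / 2 : ℝ) ≤ ρ ^ 1 := by rw [pow_one]; linarith
        _ ≤ ρ ^ T.card := pow_le_pow_right₀ hρ1 hk

end Asm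

/-- emptiness on the simplex of size `d` in dimension `N = card σ + 1` for `n ≥ 3 ^ N` points -/
theorem EmpS_simplex_of (hflat : StFlat) (hnodal : StNodal) (htheta : StTheta) (hfinal : StFinal)
    {ι σ : Type} [Fintype ι] [Fintype σ] [Nonempty σ]
    (hn : 3 ^ (Fintype.card σ + 1) ≤ Fintype.card ι) (d : ℕ) (w : ι → ℕ) {ρ : ℝ} (hρ : 0 < ρ)
    (hρN : ρ ^ (Fintype.card σ + 1) = Fintype.card ι)
    (hw : ρ ^ Fintype.card σ * d < ∑ i, (w i : ℝ)) :
    EmpS w (RegS (0 : ℝ) d (fun _ : σ => 0) (fun _ => 1)) := by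
  classical
  have hρ3 : 3 ≤ ρ := by
    by_contra hcon
    push Not at hcon
    have h1 : ρ ^ (Fintype.card σ + 1) < 3 ^ (Fintype.card σ + 1) :=
      pow_lt_pow_left₀ hcon hρ.le (by omega)
    rw [hρN] at h1
    have h2 : ((3 ^ (Fintype.card σ + 1) : ℕ) : ℝ) ≤ Fintype.card ι := by exact_mod_cast hn
    push_cast at h2
    linarith
  obtain ⟨j⟩ := (inferInstance : Nonempty σ)
  have hcard : 1 ≤ Fintype.card σ := Fintype.card_pos
  have h := Asm.ind hflat hnodal hfinal hρ3 d hρN hw (Fintype.card σ - 1) {j}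
    (Finset.singleton_nonempty j) (by rw [Finset.card_singleton]; omega)
  apply Asm.theta hflat htheta d j hρ3
  intro L R μ ν hμ hν hW hs
  apply h L R μ ν hμ hν
  · rw [hW, Finset.card_singleton, pow_one]
  · intro i
    rw [hs, Finset.card_singleton]
    by_cases hi : i = j
    · subst hi
      simp only [Function.update_self, if_pos (Finset.mem_singleton_self i)]
    · have hi' : i ∉ ({j} : Finset σ) := by rw [Finset.mem_singleton]; exact hi
      simp only [Function.update_of_ne hi, if_neg hi', pow_one]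

end Pool.Agent.TH3.IR
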