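import Pool.Agent.TH603.EL.Low
import Pool.Agent.TH603.EL.Lead

/-! # Multiplicities at points of a torus of any dimension: definitions

Exponents are `m = (x ; h)` in `ℤ × (σ → ℤ)`.  `LMS f x y w` : the Laurent polynomial with
coefficients `f` has multiplicity at least `w` at the point `(x, y)` of the torus.
`EmpS w S` : for some points (over some field of characteristic zero) no nonzero Laurent polynomial
with exponents in `S` has multiplicity at least `w i` at the `i`-th point for all `i`.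
`RegS L R μ ν` : the simplex with base `[L, R]` and slopes `μ i`, `ν i`. -/

set_option autoImplicit false

namespace Pool.Agent.TH3.IR

open Finset Pool.Agent.TH603.EL

section LMS
variable {K : Type} [Field K] {σ : Type} [Fintype σ]

/-- the value of the character `m` at the point `(x, y)` -/
noncomputable def ch (x : K) (y : σ → K) (m : ℤ × (σ → ℤ)) : K := x ^ m.1 * ∏ i, y i ^ m.2 i

/-- the moment of order `(α, γ)` of `f` at the point `(x, y)` -/
noncomputable def mo (f : (ℤ × (σ → ℤ)) →₀ K) (x : K) (y : σ → K) (α : ℕ) (γ : σ → ℕ) : K :=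
  f.sum fun m c => c * ((m.1 : K) ^ α * ∏ i, (m.2 i : K) ^ γ i) * ch x y m

/-- multiplicity at least `w` at the torus point `(x, y)` -/
def LMS (f : (ℤ × (σ → ℤ)) →₀ K) (x : K) (y : σ → K) (w : ℕ) : Prop :=
  ∀ (α : ℕ) (γ : σ → ℕ), α + ∑ i, γ i < w → mo f x y α γ = 0

end LMS

/-- for some points over some field of characteristic zero there is no nonzero Laurent polynomial
with exponents in `S` and multiplicity at least `w i` at the `i`-th point -/
def EmpS {ι σ : Type} [Fintype σ] (w : ι → ℕ) (S : Set (ℤ × (σ → ℤ))) : Prop :=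
  ∃ (K : Type) (_ : Field K) (_ : CharZero K) (x : ι → K) (y : ι → σ → K),
    (∀ i, x i ≠ 0) ∧ (∀ i j, y i j ≠ 0) ∧
    ∀ f : (ℤ × (σ → ℤ)) →₀ K, (↑f.support : Set (ℤ × (σ → ℤ))) ⊆ S →
      (∀ i, LMS f (x i) (y i) (w i)) → f = 0

theorem EmpS.mono {ι σ : Type} [Fintype σ] {w : ι → ℕ} {S S' : Set (ℤ × (σ → ℤ))}
    (h : EmpS w S') (hS : S ⊆ S') : EmpS w S := by
  obtain ⟨K, _, _, x, y, hx, hy, hf⟩ := h
  exact ⟨K, _, inferInstance, x, y, hx, hy, fun f h1 h2 => hf f (h1.trans hS) h2⟩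

/-- the simplex with base `[L, R]` in the first coordinate, left slopes `μ i`, right slopes `ν i` -/
def RegS {σ : Type} [Fintype σ] (L R : ℝ) (μ ν : σ → ℝ) : Set (ℤ × (σ → ℤ)) :=
  {m | (∀ i, 0 ≤ m.2 i) ∧ L + ∑ i, μ i * (m.2 i : ℝ) ≤ (m.1 : ℝ) ∧
    (m.1 : ℝ) ≤ R - ∑ i, ν i * (m.2 i : ℝ)}

section lead
variable {F : Type} [Field F]

/-- the leading coefficient of the polynomial `f` of degree at most `d` in the coordinates `U`
has exponents in `T` -/
def SliceLead (U : ZMod 3 → HR F) (d : ℕ) (T : Set (ℤ × ℤ)) (f : (ℤ × ℤ) →₀ HK F) : Prop :=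
  ∃ a : ℝ, Low (ev U (hom d f)) a ∧ (ev U (hom d f)).coeff a ≠ 0 ∧
    ∀ i k : ℤ, cf (ev U (hom d f)) a i k ≠ 0 → (i, k) ∈ T

/-- the coordinates `(1 : x : y)` -/
noncomputable def aff (x y : HR F) (l : ZMod 3) : HR F := if l = 0 then 1 else if l = 1 then x else y

/-- the tube coordinate `ξ = t ^ τ z` -/
noncomputable def xi (F : Type) [Field F] (τ : ℝ) : HR F := tz F τ 1 0

/-- the tube coordinate `η = t ^ (1 - τ) z⁻¹ (1 + t ^ s Y)` -/
noncomputable def eta (F : Type) [Field F] (τ s : ℝ) : HR F := tz F (1 - τ) (-1) 0 * (1 + tz F s 0 1)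

/-- the cone : all terms `t ^ a z ^ i Y ^ j` have `j ≥ 0`, `a ≥ i τ + s j` and
`a ≥ - i (1 - τ) + s j` -/
def Cone (F : Type) [Field F] (τ s : ℝ) : Set (HR F) :=
  {x | ∀ (a : ℝ) (i j : ℤ), cf x a i j ≠ 0 → 0 ≤ j ∧ i * τ + s * j ≤ a ∧ -i * (1 - τ) + s * j ≤ a}

end lead

end Pool.Agent.TH3.IR
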