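import Pool.Agent.TH3.IR.Cone

/-! # Independence of the conditions: definitions -/

set_option autoImplicit false

namespace Pool.Agent.TH3.IR

open Finset Pool.Agent.TH603.EL

/-- `EmpS` for given points: no nonzero Laurent polynomial with exponents in `S` and multiplicities
`w` at the points `(x i, y i)` -/
def EmpAt {ι σ K : Type} [Fintype σ] [Field K] (x : ι → K) (y : ι → σ → K) (w : ι → ℕ)
    (S : Set (ℤ × (σ → ℤ))) : Prop :=
  ∀ f : (ℤ × (σ → ℤ)) →₀ K, (↑f.support : Set (ℤ × (σ → ℤ))) ⊆ S →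
    (∀ i, LMS f (x i) (y i) (w i)) → f = 0

/-- the number of conditions: the sum of `binom (w i + N - 1) N`, `N = card σ + 1` -/
def nc {ι : Type} [Fintype ι] (σ : Type) [Fintype σ] (w : ι → ℕ) : ℕ :=
  ∑ i, (w i + Fintype.card σ).choose (Fintype.card σ + 1)

/-- the multiplicities `w` at some points (over some field of characteristic zero) impose
independent conditions on the Laurent polynomials with exponents in `S`: there are `nc σ w`
exponents in `S` on which the conditions have only the solution zero -/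
def SurS {ι σ : Type} [Fintype ι] [Fintype σ] (w : ι → ℕ) (S : Set (ℤ × (σ → ℤ))) : Prop :=
  ∃ T : Finset (ℤ × (σ → ℤ)), (↑T : Set (ℤ × (σ → ℤ))) ⊆ S ∧ T.card = nc σ w ∧
    EmpS w (↑T : Set (ℤ × (σ → ℤ)))

theorem SurS.mono {ι σ : Type} [Fintype ι] [Fintype σ] {w : ι → ℕ} {S S' : Set (ℤ × (σ → ℤ))}
    (h : SurS w S') (hS : S' ⊆ S) : SurS w S := by
  obtain ⟨T, h1, h2, h3⟩ := h
  exact ⟨T, h1.trans hS, h2, h3⟩

section lead
variable {F : Type} [Field F]

/-- the leading coefficient of the polynomial `f` of degree at most `d` in the coordinates `U`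
is `z ^ i * Y ^ k` -/
def LeadMon (U : ZMod 3 → HR F) (d : ℕ) (i k : ℤ) (f : (ℤ × ℤ) →₀ HK F) : Prop :=
  ∃ a : ℝ, Low (ev U (hom d f)) a ∧
    (ev U (hom d f)).coeff a = AddMonoidAlgebra.single (i, k) (1 : F)

/-- the coordinates of the tube: `c ^ 3 - c = (ξ - η) / 2`, `b = (ξ + η) / 2` -/
structure IsTube (τ s : ℝ) (c b : HR F) : Prop where
  cone : c ∈ Cone F τ s
  root : 2 * (c ^ 3 - c) = xi F τ - eta F τ s
  low : Low (c - 1) (min τ (1 - τ))
  b_eq : 2 * b = xi F τ + eta F τ s

end lead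

end Pool.Agent.TH3.IR
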