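import Pool.Agent.TH3.IR.Defs

/-! # One integer polynomial detecting the points where the system is empty (piece IR16) -/

set_option autoImplicit false

namespace Pool.Agent.TH3.IR

open Finset MvPolynomial

theorem regS_std_mem {σ : Type} [Fintype σ] {d : ℕ} {m : ℤ × (σ → ℤ)}
    (h : m ∈ RegS (0 : ℝ) d (fun _ : σ => 0) (fun _ => 1)) :
    0 ≤ m.1 ∧ (∀ i, 0 ≤ m.2 i) ∧ m.1 + ∑ i, m.2 i ≤ d := by
  obtain ⟨h1, h2, h3⟩ := h
  simp only [zero_mul, Finset.sum_const_zero, add_zero, one_mul] at h2 h3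
  refine ⟨by exact_mod_cast h2, h1, ?_⟩
  have h4 : ((m.1 + ∑ i, m.2 i : ℤ) : ℝ) ≤ ((d : ℤ) : ℝ) := by
    push_cast
    linarith
  exact_mod_cast h4

theorem regS_std_finite (σ : Type) [Fintype σ] (d : ℕ) :
    (RegS (0 : ℝ) d (fun _ : σ => 0) (fun _ => 1)).Finite := by
  classical
  have hf : (Set.Icc (0 : ℤ) d ×ˢ Set.pi Set.univ (fun _ : σ => Set.Icc (0 : ℤ) d)).Finite :=
    (Set.finite_Icc _ _).prod (Set.Finite.pi fun _ => Set.finite_Icc _ _)
  refine hf.subset ?_
  intro m hm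
  obtain ⟨h1, h2, h3⟩ := regS_std_mem hm
  have h4 : 0 ≤ ∑ i, m.2 i := Finset.sum_nonneg fun i _ => h2 i
  refine ⟨⟨h1, by linarith⟩, fun i _ => ⟨h2 i, ?_⟩⟩
  have h5 : m.2 i ≤ ∑ i, m.2 i := Finset.single_le_sum (fun i _ => h2 i) (Finset.mem_univ i)
  linarith

theorem exists_rows {T K R : Type} [Fintype T] [DecidableEq T] [Field K] (row : R → T → K)
    (h : ∀ f : T → K, (∀ r, ∑ t, row r t * f t = 0) → f = 0) :
    ∃ r : T → R, (Matrix.of fun s t => row (r s) t).det ≠ 0 := by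
  have hspan : Submodule.span K (Set.range row) = ⊤ := by
    by_contra hne
    obtain ⟨f, hf0, hf⟩ := Submodule.exists_le_ker_of_lt_top _ (lt_top_iff_ne_top.mpr hne)
    apply hf0
    have h1 : (fun t => f (fun j => if t = j then 1 else 0)) = 0 := by
      apply h
      intro r
      have h2 : f (row r) = 0 := hf (Submodule.subset_span ⟨r, rfl⟩)
      rw [LinearMap.pi_apply_eq_sum_univ f (row r)] at h2
      exact h2
    apply LinearMap.ext
    intro x
    rw [LinearMap.pi_apply_eq_sum_univ f x, LinearMap.zero_apply]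
    refine Finset.sum_eq_zero fun t _ => ?_
    have h2 := congrFun h1 t
    simp only [Pi.zero_apply] at h2
    rw [h2, smul_zero]
  obtain ⟨v, hv, -, hvl⟩ := Submodule.exists_fun_fin_finrank_span_eq K (Set.range row)
  have hcard : Module.finrank K (Submodule.span K (Set.range row)) = Fintype.card T := by
    rw [hspan, finrank_top, Module.finrank_fintype_fun_eq_card]
  let e : T ≃ Fin (Module.finrank K (Submodule.span K (Set.range row))) :=
    (Fintype.equivFin T).trans (finCongr hcard.symm)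
  choose r hr using hv
  refine ⟨fun t => r (e t), ?_⟩
  have h3 : LinearIndependent K (Matrix.of fun s t => row (r (e s)) t).row := by
    have h4 : (Matrix.of fun s t => row (r (e s)) t).row = v ∘ e := by
      funext s t
      exact congrFun (hr (e s)) t
    rw [h4]
    exact hvl.comp e e.injective
  have h5 := Matrix.linearIndependent_rows_iff_isUnit.mp h3
  rw [Matrix.isUnit_iff_isUnit_det] at h5
  exact h5.ne_zero

/-- the entries of the matrix of the moment conditions -/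
noncomputable def ent {ι σ : Type} [Fintype σ] (i : ι) (α : ℕ) (γ : σ → ℕ) (m : ℤ × (σ → ℤ)) :
    MvPolynomial (ι × Option σ) ℤ :=
  C (m.1 ^ α * ∏ j, m.2 j ^ γ j) * (X (i, none) ^ m.1.toNat * ∏ j, X (i, some j) ^ (m.2 j).toNat)

theorem zpow_toNat {K : Type} [Field K] (x : K) {n : ℤ} (hn : 0 ≤ n) : x ^ n.toNat = x ^ n := by
  rw [← zpow_natCast, Int.toNat_of_nonneg hn]

theorem ent_eval {ι σ : Type} [Fintype σ] {K : Type} [Field K] (x : ι → K) (y : ι → σ → K) (i : ι)
    (α : ℕ) (γ : σ → ℕ) {m : ℤ × (σ → ℤ)} (h1 : 0 ≤ m.1) (h2 : ∀ j, 0 ≤ m.2 j) :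
    eval₂ (Int.castRingHom K) (fun q : ι × Option σ => Option.elim q.2 (x q.1) (y q.1))
      (ent i α γ m) = ((m.1 : K) ^ α * ∏ j, (m.2 j : K) ^ γ j) * ch (x i) (y i) m := by
  unfold ent ch
  rw [eval₂_mul, eval₂_C, eval₂_mul, eval₂_pow, eval₂_X, eval₂_prod]
  simp only [eval₂_pow, eval₂_X, Option.elim, map_mul, map_pow, map_prod, eq_intCast]
  rw [zpow_toNat _ h1]
  congr 2
  exact Finset.prod_congr rfl fun j _ => zpow_toNat _ (h2 j)

/-- one polynomial with integer coefficients which detects all points where the system is empty -/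
theorem exists_minor {ι σ : Type} [Fintype ι] [Fintype σ] [DecidableEq ι] [DecidableEq σ]
    {w : ι → ℕ} {d : ℕ} (h : EmpS w (RegS (0 : ℝ) d (fun _ : σ => 0) (fun _ => 1))) :
    ∃ G : MvPolynomial (ι × Option σ) ℤ, G ≠ 0 ∧ ∀ (K : Type) [Field K] [CharZero K] (x : ι → K)
      (y : ι → σ → K),
      MvPolynomial.eval₂ (Int.castRingHom K) (fun q => Option.elim q.2 (x q.1) (y q.1)) G ≠ 0 →
      ∀ f : (ℤ × (σ → ℤ)) →₀ K,
        (↑f.support : Set (ℤ × (σ → ℤ))) ⊆ RegS (0 : ℝ) d (fun _ : σ => 0) (fun _ => 1) →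
        (∀ i, LMS f (x i) (y i) (w i)) → f = 0 := by
  classical
  obtain ⟨T, hT⟩ := (regS_std_finite σ d).exists_finset_coe
  rw [← hT] at h
  obtain ⟨K0, _, _, x0, y0, -, -, h0⟩ := h
  have hmem : ∀ t : T, 0 ≤ t.1.1 ∧ ∀ j, 0 ≤ t.1.2 j := by
    intro t
    have h1 : (t : ℤ × (σ → ℤ)) ∈ (↑T : Set (ℤ × (σ → ℤ))) := t.2
    rw [hT] at h1
    obtain ⟨h2, h3, -⟩ := regS_std_mem h1
    exact ⟨h2, h3⟩
  -- moments of functions supported in `T`
  have hmo : ∀ (K : Type) [Field K] (x : K) (y : σ → K) (f : (ℤ × (σ → ℤ)) →₀ K)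
      (_ : (↑f.support : Set (ℤ × (σ → ℤ))) ⊆ ↑T) (α : ℕ) (γ : σ → ℕ),
      mo f x y α γ = ∑ t : T, ((((t : ℤ × (σ → ℤ)).1 : K) ^ α *
        ∏ j, ((t : ℤ × (σ → ℤ)).2 j : K) ^ γ j) * ch x y t) * f t := by
    intro K _ x y f hf α γ
    unfold mo
    rw [Finsupp.sum_of_support_subset f (Finset.coe_subset.mp hf) _ (by intros; ring)]
    rw [← Finset.sum_coe_sort T]
    exact Finset.sum_congr rfl fun t _ => by ring
  -- choose the rows
  obtain ⟨r, hr⟩ := exists_rows (T := T) (K := K0)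
    (R := {p : ι × ℕ × (σ → ℕ) // p.2.1 + ∑ j, p.2.2 j < w p.1})
    (fun p t => ((((t : ℤ × (σ → ℤ)).1 : K0) ^ p.1.2.1 *
        ∏ j, ((t : ℤ × (σ → ℤ)).2 j : K0) ^ p.1.2.2 j) * ch (x0 p.1.1) (y0 p.1.1) t)) (by
    intro g hg
    have h1 : (∑ t : T, Finsupp.single (t : ℤ × (σ → ℤ)) (g t)) = 0 := by
      have hval : ∀ s : T, (∑ t : T, Finsupp.single (t : ℤ × (σ → ℤ)) (g t)) s = g s := by
        intro s
        rw [Finsupp.finsetSum_apply, Finset.sum_eq_single s]
        · rw [Finsupp.single_eq_same]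
        · intro t _ hts
          rw [Finsupp.single_apply, if_neg]
          exact fun h => hts (Subtype.ext h)
        · intro h; exact absurd (Finset.mem_univ _) h
      have hsupp : (↑(∑ t : T, Finsupp.single (t : ℤ × (σ → ℤ)) (g t)).support :
          Set (ℤ × (σ → ℤ))) ⊆ ↑T := by
        intro m hm
        by_contra hmT
        rw [Finset.mem_coe, Finsupp.mem_support_iff] at hm
        apply hm
        rw [Finsupp.finsetSum_apply]
        refine Finset.sum_eq_zero fun t _ => ?_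
        rw [Finsupp.single_apply, if_neg]
        rintro rfl
        exact hmT t.2
      refine h0 _ hsupp fun i α γ hw => ?_
      rw [hmo K0 (x0 i) (y0 i) _ hsupp α γ]
      have h2 := hg ⟨(i, α, γ), hw⟩
      simp only [hval]
      exact h2
    funext s
    have h2 := DFunLike.congr_fun h1 (s : ℤ × (σ → ℤ))
    rw [Finsupp.finsetSum_apply, Finset.sum_eq_single s] at h2
    · rw [Finsupp.single_eq_same] at h2
      exact h2
    · intro t _ hts
      rw [Finsupp.single_apply, if_neg]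
      exact fun h => hts (Subtype.ext h)
    · intro h; exact absurd (Finset.mem_univ _) h)
  -- the minor
  have heval : ∀ (K : Type) [Field K] (x : ι → K) (y : ι → σ → K),
      eval₂ (Int.castRingHom K) (fun q : ι × Option σ => Option.elim q.2 (x q.1) (y q.1))
        (Matrix.of fun (s t : T) => ent (r s).1.1 (r s).1.2.1 (r s).1.2.2 (t : ℤ × (σ → ℤ))).det =
      (Matrix.of fun (s t : T) => ((((t : ℤ × (σ → ℤ)).1 : K) ^ (r s).1.2.1 *
        ∏ j, ((t : ℤ × (σ → ℤ)).2 j : K) ^ (r s).1.2.2 j) *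
          ch (x (r s).1.1) (y (r s).1.1) t)).det := by
    intro K _ x y
    rw [← coe_eval₂Hom, RingHom.map_det]
    congr 1
    ext s t
    rw [RingHom.mapMatrix_apply, Matrix.map_apply, Matrix.of_apply, Matrix.of_apply, coe_eval₂Hom,
      ent_eval x y _ _ _ (hmem t).1 (hmem t).2]
  refine ⟨(Matrix.of fun (s t : T) =>
    ent (r s).1.1 (r s).1.2.1 (r s).1.2.2 (t : ℤ × (σ → ℤ))).det, ?_, ?_⟩
  · intro hG
    apply hr
    rw [← heval K0 x0 y0, hG, eval₂_zero]
  · intro K _ _ x y hG f hf hL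
    rw [heval K x y] at hG
    rw [← hT] at hf
    have h1 : (Matrix.of fun (s t : T) => ((((t : ℤ × (σ → ℤ)).1 : K) ^ (r s).1.2.1 *
        ∏ j, ((t : ℤ × (σ → ℤ)).2 j : K) ^ (r s).1.2.2 j) *
          ch (x (r s).1.1) (y (r s).1.1) t)).mulVec (fun t : T => f t) = 0 := by
      funext s
      rw [Pi.zero_apply, ← hL (r s).1.1 (r s).1.2.1 (r s).1.2.2 (r s).2,
        hmo K _ _ f hf]
      rfl
    have h2 := Matrix.eq_zero_of_mulVec_eq_zero hG h1
    ext m
    rw [Finsupp.zero_apply]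
    by_contra hne
    have hm : m ∈ T := hf (Finset.mem_coe.mpr (Finsupp.mem_support_iff.mpr hne))
    exact hne (congrFun h2 ⟨m, hm⟩)

end Pool.Agent.TH3.IR
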