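import Pool.Agent.TH3.IR.Asm
import Pool.Agent.TH3.IR.Minor
import Pool.Agent.TH3.IR.Form

/-! Emptiness at general points `(1 : P i 0 : … : P i (N - 1))` of `ℙ ^ N`, `r ≥ 3 ^ N`. -/

set_option autoImplicit false

namespace Pool.Agent.TH3.IR

open MvPolynomial Finset

/-- the index of the coordinate of a torus point in the list of affine coordinates -/
def eIdx {r n : ℕ} (q : Fin r × Option (Fin n)) : Fin r × Fin (n + 1) :=
  (q.1, Option.elim q.2 0 Fin.succ)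

theorem eIdx_injective {r n : ℕ} : Function.Injective (eIdx (r := r) (n := n)) := by
  rintro ⟨i, a⟩ ⟨j, b⟩ h
  unfold eIdx at h
  rw [Prod.mk.injEq] at h
  obtain ⟨h1, h2⟩ := h
  simp only at h1 h2
  subst h1
  cases a with
  | none =>
    cases b with
    | none => rfl
    | some b => exact absurd h2.symm (Fin.succ_ne_zero b)
  | some a =>
    cases b with
    | none => exact absurd h2 (Fin.succ_ne_zero a)
    | some b =>
      have : a = b := Fin.succ_injective _ h2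
      rw [this]

theorem eval_idx {r n : ℕ} (G : MvPolynomial (Fin r × Option (Fin n)) ℤ)
    (P : Fin r → Fin (n + 1) → ℂ) :
    MvPolynomial.eval (fun q : Fin r × Fin (n + 1) => P q.1 q.2)
      (MvPolynomial.map (Int.castRingHom ℂ) (rename eIdx G)) =
    MvPolynomial.eval₂ (Int.castRingHom ℂ)
      (fun q => Option.elim q.2 (P q.1 0) (fun j : Fin n => P q.1 j.succ)) G := by
  rw [eval_map, eval₂_rename]
  congr 1
  funext q
  rcases q with ⟨i, _ | j⟩ <;> rfl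

theorem idx_ne_zero {r n : ℕ} {G : MvPolynomial (Fin r × Option (Fin n)) ℤ} (hG : G ≠ 0) :
    MvPolynomial.map (Int.castRingHom ℂ) (rename (eIdx (r := r) (n := n)) G) ≠ 0 := by
  intro h
  apply hG
  have h1 := MvPolynomial.map_injective (σ := Fin r × Fin (n + 1)) (Int.castRingHom ℂ)
    (RingHom.injective_int _)
  have h2 : rename (eIdx (r := r) (n := n)) G = 0 := by
    apply h1
    rw [h, map_zero]
  exact rename_injective _ eIdx_injective (by rw [h2, map_zero])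

theorem span_le_ker {n : ℕ} (p : Fin (n + 1) → ℂ) :
    (Ideal.span (Set.range fun j : Fin (n + 1) =>
      (X j.succ - C (p j) * X 0 : MvPolynomial (Fin (n + 2)) ℂ))) ≤
      RingHom.ker (MvPolynomial.eval (Fin.cons 1 p : Fin (n + 2) → ℂ)) := by
  rw [Ideal.span_le]
  rintro _ ⟨j, rfl⟩
  simp [RingHom.mem_ker]

/-- `ρ = r ^ (1 / N)` -/
theorem rho_facts {n r : ℕ} (hr : 1 ≤ r) : ∃ ρ : ℝ, 0 < ρ ∧ ρ = (r : ℝ) ^ ((1 : ℝ) / ((n + 1 : ℕ) : ℝ)) ∧
    ρ ^ (n + 1) = r ∧ ρ ^ n = (r : ℝ) ^ ((((n + 1 : ℕ) : ℝ) - 1) / ((n + 1 : ℕ) : ℝ)) := by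
  have h0 : (0 : ℝ) < r := by exact_mod_cast hr
  have h1 : ((n + 1 : ℕ) : ℝ) ≠ 0 := by positivity
  refine ⟨(r : ℝ) ^ ((1 : ℝ) / ((n + 1 : ℕ) : ℝ)), Real.rpow_pos_of_pos h0 _, rfl, ?_, ?_⟩
  · rw [← Real.rpow_natCast, ← Real.rpow_mul h0.le, one_div, inv_mul_cancel₀ h1, Real.rpow_one]
  · rw [← Real.rpow_natCast, ← Real.rpow_mul h0.le]
    congr 1
    push_cast
    field_simp
    ring

theorem main_empty_w (N r : ℕ) (hN : 2 ≤ N) (hr : 3 ^ N ≤ r) (w : Fin r → ℕ) (d : ℕ)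
    (h : (r : ℝ) ^ (((N : ℝ) - 1) / N) * d < ∑ i, (w i : ℝ)) :
    ∃ F : MvPolynomial (Fin r × Fin N) ℂ, F ≠ 0 ∧ ∀ P : Fin r → Fin N → ℂ,
      MvPolynomial.eval (fun q : Fin r × Fin N => P q.1 q.2) F ≠ 0 →
      ∀ G : MvPolynomial (Fin (N + 1)) ℂ, G.IsHomogeneous d →
        (∀ i, G ∈ (Ideal.span (Set.range fun j : Fin N =>
          (X j.succ - C (P i j) * X 0 : MvPolynomial (Fin (N + 1)) ℂ))) ^ (w i)) → G = 0 := by
  obtain ⟨n, rfl⟩ : ∃ n, N = n + 1 := ⟨N - 1, by omega⟩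
  have hn : 0 < n := by omega
  have : Nonempty (Fin n) := ⟨⟨0, hn⟩⟩
  have hr1 : 1 ≤ r := le_trans (Nat.one_le_pow _ _ (by norm_num)) hr
  obtain ⟨ρ, hρ, -, hρN, hρn⟩ := rho_facts (n := n) hr1
  have hE := EmpS_simplex (ι := Fin r) (σ := Fin n) (by simpa using hr) d w hρ (by simpa using hρN)
    (by rw [Fintype.card_fin, hρn]; exact h)
  obtain ⟨G0, hG0, hG⟩ := exists_minor hE
  refine ⟨_, idx_ne_zero hG0, fun P hP G hGd hGw => ?_⟩
  rw [eval_idx] at hP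
  apply lau_eq_zero hGd
  refine hG ℂ (fun i => P i 0) (fun i j => P i j.succ) hP (lau G) (lau_support hGd) ?_
  intro i
  have h1 : G ∈ (RingHom.ker (MvPolynomial.eval (Fin.cons 1 (P i) : Fin (n + 2) → ℂ))) ^ w i :=
    Ideal.pow_right_mono (span_le_ker (P i)) _ (hGw i)
  have h2 := lau_LMS hGd (P := (Fin.cons 1 (P i) : Fin (n + 2) → ℂ)) (by simp) h1
  have e1 : (Fin.cons 1 (P i) : Fin (n + 2) → ℂ) 0 = 1 := rfl
  have e2 : (Fin.cons 1 (P i) : Fin (n + 2) → ℂ) 1 = P i 0 := rfl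
  have e3 : ∀ j : Fin n, (Fin.cons 1 (P i) : Fin (n + 2) → ℂ) j.succ.succ = P i j.succ :=
    fun j => rfl
  simp only [e1, e2, e3, div_one] at h2
  exact h2

end Pool.Agent.TH3.IR
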