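import Pool.Agent.TH3.IR.DefsS

/-! # Lifting of a monomial from surjectivity on the edges (piece SR4) -/

set_option autoImplicit false

namespace Pool.Agent.TH3.IR

open Finset MvPolynomial Pool.Agent.TH603.EL Pool.Agent.TH176.Nag

namespace Lft

/-- surjectivity of a matrix can be tested modulo the maximal ideal -/
theorem surj_of_residue {O F J E : Type} [CommRing O] [Field F] [Fintype J] [DecidableEq J]
    [Fintype E] (r : O →+* F) (hr : Function.Surjective r) (hu : ∀ x, r x ≠ 0 → IsUnit x)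
    (A : Matrix J E O) (h : ∀ b : J → F, ∃ c : E → F, (A.map r).mulVec c = b) (b : J → O) :
    ∃ κ : E → O, A.mulVec κ = b := by
  choose c hc using fun n : J => h (Pi.single n 1)
  choose C hC using fun (e : E) (n : J) => hr (c n e)
  have hB : (A * Matrix.of C).map r = 1 := by
    ext p q
    rw [Matrix.map_apply, Matrix.mul_apply, map_sum]
    have h1 := congrFun (hc q) p
    rw [Matrix.mulVec, dotProduct] at h1
    rw [Matrix.one_apply, ← Pi.single_apply q (1 : F) p] 
    rw [← h1]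
    refine Finset.sum_congr rfl fun e _ => ?_
    rw [map_mul, Matrix.of_apply, hC, Matrix.map_apply]
  have hdet : IsUnit (A * Matrix.of C).det := by
    apply hu
    rw [RingHom.map_det, RingHom.mapMatrix_apply, hB, Matrix.det_one]
    exact one_ne_zero
  refine ⟨(Matrix.of C).mulVec ((A * Matrix.of C)⁻¹.mulVec b), ?_⟩
  rw [Matrix.mulVec_mulVec, Matrix.mulVec_mulVec, Matrix.mul_nonsing_inv _ hdet, Matrix.one_mulVec]

section ring
variable (F : Type) [Field F]

/-- the valuation ring -/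
def OO : Subring (HK F) where
  carrier := {x | Low x 0}
  mul_mem' := by
    intro a b ha hb
    have := Low.mul ha hb
    rw [add_zero] at this
    exact this
  one_mem' := low_one
  add_mem' := fun ha hb => Low.add ha hb
  zero_mem' := low_zero 0
  neg_mem' := fun ha => Low.neg ha

/-- the residue map -/
noncomputable def res : OO F →+* F where
  toFun x := (x : HK F).coeff 0
  map_one' := by simp
  map_mul' x y := by
    have h := Low.coeff_mul x.2 y.2
    rw [add_zero] at h
    exact h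
  map_zero' := rfl
  map_add' _ _ := rfl

variable {F}

theorem res_surj : Function.Surjective (res F) := fun c =>
  ⟨⟨HahnSeries.single 0 c, low_single 0 c⟩, HahnSeries.coeff_single_same 0 c⟩

theorem unit_of_res (x : OO F) (h : res F x ≠ 0) : IsUnit x := by
  have hx : (x : HK F) ≠ 0 := by
    intro h0
    apply h
    show (x : HK F).coeff 0 = 0
    rw [h0]
    rfl
  have hinv : Low ((x : HK F)⁻¹) 0 := by
    have hy : (x : HK F)⁻¹ ≠ 0 := inv_ne_zero hx
    have hlow : Low ((x : HK F)⁻¹) ((x : HK F)⁻¹).order :=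
      fun a ha => HahnSeries.coeff_eq_zero_of_lt_order ha
    have h1 := Low.coeff_mul x.2 hlow
    have h2 : (x : HK F) * (x : HK F)⁻¹ = 1 := mul_inv_cancel₀ hx
    rw [h2, zero_add, HahnSeries.coeff_one] at h1
    by_cases h3 : ((x : HK F)⁻¹).order = 0
    · rw [h3] at hlow
      exact hlow
    · rw [if_neg h3] at h1
      exfalso
      exact (mul_ne_zero h (HahnSeries.coeff_order_eq_zero.not.2 hy)) h1.symm
  refine IsUnit.of_mul_eq_one (⟨(x : HK F)⁻¹, hinv⟩ : OO F) ?_
  apply Subtype.ext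
  exact mul_inv_cancel₀ hx

/-- the coefficient of `z ^ m.1 * Y ^ m.2`, a Hahn series -/
noncomputable def prt (x : HR F) (m : ℤ × ℤ) : HK F :=
  x.map ({ toFun := fun p => p.coeff m, map_zero' := rfl } : ZeroHom (Pool.Agent.TH603.EL.Lau F) F)

theorem prt_coeff (x : HR F) (m : ℤ × ℤ) (a : ℝ) : (prt x m).coeff a = cf x a m.1 m.2 := rfl

theorem prt_sum {E : Type} (s : Finset E) (f : E → HR F) (m : ℤ × ℤ) :
    prt (∑ e ∈ s, f e) m = ∑ e ∈ s, prt (f e) m := by
  ext a
  rw [HahnSeries.coeff_sum, prt_coeff]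
  unfold cf
  rw [HahnSeries.coeff_sum, AddMonoidAlgebra.coeff_sum, Finsupp.finsetSum_apply]
  rfl

theorem incl_coeff (κ : HK F) (a : ℝ) :
    (incl κ).coeff a = AddMonoidAlgebra.single (0 : ℤ × ℤ) (κ.coeff a) := rfl

theorem prt_incl_mul (κ : HK F) (x : HR F) (m : ℤ × ℤ) : prt (incl κ * x) m = κ * prt x m := by
  ext a
  rw [prt_coeff]
  unfold cf
  rw [HahnSeries.coeff_mul_left' κ.isPWO_support (by
      intro i hi h0
      apply hi
      rw [incl_coeff, h0]
      simp),
    HahnSeries.coeff_mul_right' x.isPWO_support (by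
      intro i hi h0
      apply hi
      show (x.coeff i).coeff m = 0
      rw [h0]
      rfl), AddMonoidAlgebra.coeff_sum, Finsupp.finsetSum_apply]
  refine Finset.sum_congr rfl fun p _ => ?_
  rw [incl_coeff, AddMonoidAlgebra.coeff_single_zero_mul]
  rfl

end ring

section cone
variable {F : Type} [Field F] {τ s : ℝ}

theorem prt_low {x : HR F} (hx : x ∈ Cone F τ s) (m : ℤ × ℤ) :
    Low (prt x m) (max (m.1 * τ) (-m.1 * (1 - τ)) + s * m.2) := by
  intro a ha
  rw [prt_coeff]
  by_contra hne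
  obtain ⟨_, h2, h3⟩ := hx a m.1 m.2 hne
  rcases max_cases ((m.1 : ℝ) * τ) (-m.1 * (1 - τ)) with ⟨h4, _⟩ | ⟨h4, _⟩ <;> rw [h4] at ha <;>
    linarith

theorem prt_neg {x : HR F} (hx : x ∈ Cone F τ s) {m : ℤ × ℤ} (hm : m.2 < 0) : prt x m = 0 := by
  ext a
  rw [prt_coeff, HahnSeries.coeff_zero]
  by_contra hne
  obtain ⟨h1, _, _⟩ := hx a m.1 m.2 hne
  omega

end cone

end Lft

open Lft

/-- lifting of a monomial from surjectivity on the edges -/
theorem lift_of_edges {F : Type} [Field F] {τ s : ℝ} (h0 : 0 < τ) (h1 : τ < 1) {E : Type}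
    [Fintype E] (G : E → HR F) (hG : ∀ e, G e ∈ Cone F τ s) (i : ℤ) (e1 e2 : ℕ)
    (hi : (0 ≤ i ∧ (e1 : ℤ) = i ∧ i * τ < (e2 + 1) * (1 - τ)) ∨
      (i < 0 ∧ (e2 : ℤ) = -i ∧ -i * (1 - τ) < (e1 + 1) * τ))
    (hs : |(i : ℝ)| < s)
    (hsurj : ∀ u v : ℕ → F, u 0 = v 0 → ∃ c : E → F,
      (∀ n ≤ e1, (∑ e, c e • edge1 τ (G e)).coeff n = u n) ∧
      (∀ n ≤ e2, (∑ e, c e • edge2 τ (G e)).coeff n = v n)) :
    ∃ κ : E → HK F, ∃ a : ℝ, Low (∑ e, incl (κ e) * G e) a ∧
      (∑ e, incl (κ e) * G e).coeff a = AddMonoidAlgebra.single (i, 0) (1 : F) := by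
  classical
  -- the order of `z ^ n` on the edges
  obtain ⟨ω, hω⟩ : ∃ ω : ℤ → ℝ, ∀ n, ω n = max (n * τ) (-n * (1 - τ)) := ⟨_, fun _ => rfl⟩
  have hω1 : ∀ n : ℤ, 0 ≤ n → ω n = n * τ := by
    intro n hn
    have hn' : (0 : ℝ) ≤ n := by exact_mod_cast hn
    rw [hω, max_eq_left]
    have e1 : 0 ≤ n * τ := by positivity
    have e2 : 0 ≤ n * (1 - τ) := mul_nonneg hn' (by linarith)
    linarith
  have hω2 : ∀ n : ℤ, n ≤ 0 → ω n = -n * (1 - τ) := by
    intro n hn
    have hn' : (n : ℝ) ≤ 0 := by exact_mod_cast hn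
    rw [hω, max_eq_right]
    have e1 : 0 ≤ -n * τ := mul_nonneg (by linarith) h0.le
    have e2 : 0 ≤ -n * (1 - τ) := mul_nonneg (by linarith) (by linarith)
    linarith
  have hωi : ω i ≤ |(i : ℝ)| := by
    rcases le_total 0 i with h | h
    · have h' : (0 : ℝ) ≤ i := by exact_mod_cast h
      rw [hω1 i h, abs_of_nonneg h']
      nlinarith
    · have h' : (i : ℝ) ≤ 0 := by exact_mod_cast h
      rw [hω2 i h, abs_of_nonpos h']
      nlinarith
  have hω0 : ∀ n, 0 ≤ ω n := by
    intro n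
    rcases le_total 0 n with h | h
    · have h' : (0 : ℝ) ≤ n := by exact_mod_cast h
      rw [hω1 n h]
      positivity
    · have h' : (n : ℝ) ≤ 0 := by exact_mod_cast h
      rw [hω2 n h]
      exact mul_nonneg (by linarith) (by linarith)
  -- the indices outside of the window have larger orders
  have hout : ∀ n : ℤ, ¬ (-(e2 : ℤ) ≤ n ∧ n ≤ e1) → ω i < ω n := by
    intro n hn
    rw [not_and_or, not_le, not_le] at hn
    rcases hn with hn | hn
    · have hn0 : n ≤ 0 := by omega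
      rw [hω2 n hn0]
      have hn1 : ((e2 : ℝ) + 1) ≤ -n := by
        have : (e2 : ℤ) + 1 ≤ -n := by omega
        exact_mod_cast this
      have hn2 : ((e2 : ℝ) + 1) * (1 - τ) ≤ -n * (1 - τ) :=
        mul_le_mul_of_nonneg_right hn1 (by linarith)
      rcases hi with ⟨g1, g2, g3⟩ | ⟨g1, g2, g3⟩
      · rw [hω1 i g1]
        linarith
      · rw [hω2 i g1.le]
        have g4 : (e2 : ℝ) = -i := by exact_mod_cast g2
        rw [← g4]
        have : (e2 : ℝ) * (1 - τ) < (e2 + 1) * (1 - τ) := by nlinarith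
        linarith
    · have hn0 : 0 ≤ n := by omega
      rw [hω1 n hn0]
      have hn1 : ((e1 : ℝ) + 1) ≤ n := by
        have : (e1 : ℤ) + 1 ≤ n := by omega
        exact_mod_cast this
      have hn2 : ((e1 : ℝ) + 1) * τ ≤ n * τ := mul_le_mul_of_nonneg_right hn1 h0.le
      rcases hi with ⟨g1, g2, g3⟩ | ⟨g1, g2, g3⟩
      · rw [hω1 i g1]
        have g4 : (e1 : ℝ) = i := by exact_mod_cast g2
        rw [← g4]
        nlinarith
      · rw [hω2 i g1.le]
        linarith
  have hiJ : -(e2 : ℤ) ≤ i ∧ i ≤ e1 := by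
    by_contra hcon
    exact lt_irrefl _ (hout i hcon)
  -- the matrix
  have hlow : ∀ (n : ℤ) (e : E),
      Low (HahnSeries.single (-ω n) (1 : F) * prt (G e) (n, 0)) 0 := by
    intro n e
    have h2 := (low_single (-ω n) (1 : F)).mul (prt_low (hG e) (n, 0))
    rw [Int.cast_zero, mul_zero, add_zero, ← hω n, neg_add_cancel] at h2
    exact h2
  let A : Matrix (Finset.Icc (-(e2 : ℤ)) e1) E (OO F) :=
    Matrix.of fun n e => ⟨HahnSeries.single (-ω n) (1 : F) * prt (G e) (n, 0), hlow n e⟩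
  have hAres : ∀ n e, res F (A n e) = cf (G e) (ω n) n 0 := by
    intro n e
    show (HahnSeries.single (-ω n) (1 : F) * prt (G e) (n, 0)).coeff 0 = _
    have h2 := HahnSeries.coeff_single_mul_add (r := (1 : F)) (x := prt (G e) ((n : ℤ), 0))
      (a := ω n) (b := -ω n)
    rw [add_neg_cancel, one_mul] at h2
    exact h2
  have hsur : ∀ b : Finset.Icc (-(e2 : ℤ)) (e1 : ℤ) → F, ∃ c : E → F,
      (A.map (res F)).mulVec c = b := by
    intro b
    obtain ⟨c, hc1, hc2⟩ := hsurj
      (fun n => if h : (n : ℤ) ∈ Finset.Icc (-(e2 : ℤ)) (e1 : ℤ) then b ⟨n, h⟩ else 0)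
      (fun n => if h : -(n : ℤ) ∈ Finset.Icc (-(e2 : ℤ)) (e1 : ℤ) then b ⟨-n, h⟩ else 0) (by
        simp)
    refine ⟨c, ?_⟩
    funext n
    have hnJ := n.2
    rw [Finset.mem_Icc] at hnJ
    rw [Matrix.mulVec, dotProduct]
    simp only [Matrix.map_apply, hAres]
    rcases le_total 0 (n : ℤ) with hn | hn
    · have hcast : (((n : ℤ).toNat : ℕ) : ℤ) = n := Int.toNat_of_nonneg hn
      have hcastR : (((n : ℤ).toNat : ℕ) : ℝ) = ((n : ℤ) : ℝ) := by exact_mod_cast hcast
      have h2 := hc1 (n : ℤ).toNat (by omega)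
      have h3 : ((((n : ℤ).toNat : ℕ) : ℤ)) ∈ Finset.Icc (-(e2 : ℤ)) (e1 : ℤ) := by
        rw [hcast]; exact n.2
      rw [dif_pos h3] at h2
      have h4 : (⟨(((n : ℤ).toNat : ℕ) : ℤ), h3⟩ : Finset.Icc (-(e2 : ℤ)) (e1 : ℤ)) = n :=
        Subtype.ext hcast
      rw [h4] at h2
      rw [← h2, map_sum]
      refine Finset.sum_congr rfl fun e _ => ?_
      rw [PowerSeries.coeff_smul, smul_eq_mul, edge1, PowerSeries.coeff_mk, hcast, hcastR,
        hω1 n hn, mul_comm]
    · have hcast : (((-(n : ℤ)).toNat : ℕ) : ℤ) = -n := Int.toNat_of_nonneg (by omega)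
      have hcastR : (((-(n : ℤ)).toNat : ℕ) : ℝ) = -((n : ℤ) : ℝ) := by exact_mod_cast hcast
      have h2 := hc2 (-(n : ℤ)).toNat (by omega)
      have h3 : -((((-(n : ℤ)).toNat : ℕ) : ℤ)) ∈ Finset.Icc (-(e2 : ℤ)) (e1 : ℤ) := by
        rw [hcast, neg_neg]; exact n.2
      rw [dif_pos h3] at h2
      have h4 : (⟨-(((-(n : ℤ)).toNat : ℕ) : ℤ), h3⟩ : Finset.Icc (-(e2 : ℤ)) (e1 : ℤ)) = n :=
        Subtype.ext (show -((((-(n : ℤ)).toNat : ℕ) : ℤ)) = (n : ℤ) by rw [hcast, neg_neg])
      rw [h4] at h2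
      rw [← h2, map_sum]
      refine Finset.sum_congr rfl fun e _ => ?_
      rw [PowerSeries.coeff_smul, smul_eq_mul, edge2, PowerSeries.coeff_mk, hcast, hcastR,
        hω2 n hn, mul_comm, neg_neg]
  obtain ⟨κ, hκ⟩ := surj_of_residue (res F) res_surj unit_of_res A hsur
    (Pi.single ⟨i, Finset.mem_Icc.2 hiJ⟩ 1)
  -- the sum
  obtain ⟨S, hS⟩ : ∃ S : HR F, S = ∑ e, incl (κ e : HK F) * G e := ⟨_, rfl⟩
  have hprt : ∀ m : ℤ × ℤ, prt S m = ∑ e, (κ e : HK F) * prt (G e) m := by
    intro m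
    rw [hS, prt_sum]
    exact Finset.sum_congr rfl fun e _ => prt_incl_mul _ _ _
  -- the terms in the window
  have hwin : ∀ n : ℤ, -(e2 : ℤ) ≤ n ∧ n ≤ e1 →
      prt S (n, 0) = if n = i then HahnSeries.single (ω i) (1 : F) else 0 := by
    intro n hn
    have h2 := congrFun hκ ⟨n, Finset.mem_Icc.2 hn⟩
    have h3 : HahnSeries.single (-ω n) (1 : F) * prt S (n, 0) =
        if n = i then (1 : HK F) else 0 := by
      have h4 := congrArg (Subtype.val : OO F → HK F) h2
      rw [Matrix.mulVec, dotProduct] at h4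
      have h5 : (((∑ e, A ⟨n, Finset.mem_Icc.2 hn⟩ e * κ e : OO F)) : HK F) =
          HahnSeries.single (-ω n) (1 : F) * prt S (n, 0) := by
        rw [hprt, Finset.mul_sum, AddSubmonoidClass.coe_finsetSum]
        refine Finset.sum_congr rfl fun e _ => ?_
        show HahnSeries.single (-ω n) (1 : F) * prt (G e) (n, 0) * (κ e : HK F) = _
        ring
      rw [← h5]
      refine h4.trans ?_
      rw [Pi.single_apply]
      by_cases hni : n = i
      · subst hni
        rw [if_pos rfl, if_pos rfl]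
        rfl
      · rw [if_neg hni, if_neg (fun h => hni (congrArg Subtype.val h))]
        rfl
    have h6 : prt S (n, 0) = HahnSeries.single (ω n) (1 : F) *
        (HahnSeries.single (-ω n) (1 : F) * prt S (n, 0)) := by
      rw [← mul_assoc, HahnSeries.single_mul_single, add_neg_cancel, mul_one]
      have : HahnSeries.single (0 : ℝ) (1 : F) = 1 := rfl
      rw [this, one_mul]
    rw [h6, h3]
    by_cases hni : n = i
    · rw [if_pos hni, if_pos hni, mul_one, hni]
    · rw [if_neg hni, if_neg hni, mul_zero]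
  -- all other terms
  have hlowS : ∀ m : ℤ × ℤ, Low (prt S m) (ω m.1 + s * m.2) := by
    intro m
    rw [hprt]
    apply Low.sum
    intro e _
    have h2 := Low.mul (κ e).2 (prt_low (hG e) m)
    rw [zero_add, ← hω] at h2
    exact h2
  have hnegS : ∀ m : ℤ × ℤ, m.2 < 0 → prt S m = 0 := by
    intro m hm
    rw [hprt]
    refine Finset.sum_eq_zero fun e _ => ?_
    rw [prt_neg (hG e) hm, mul_zero]
  have hcoef : ∀ (a : ℝ) (m : ℤ × ℤ), a ≤ ω i →
      cf S a m.1 m.2 = if a = ω i ∧ m = (i, 0) then 1 else 0 := by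
    intro a m ha
    have h2 : cf S a m.1 m.2 = (prt S m).coeff a := rfl
    rw [h2]
    rcases lt_trichotomy m.2 0 with hm | hm | hm
    · rw [hnegS m hm, if_neg, HahnSeries.coeff_zero]
      rintro ⟨_, rfl⟩
      exact lt_irrefl _ hm
    · have hm' : m = (m.1, 0) := Prod.ext rfl hm
      by_cases hw : -(e2 : ℤ) ≤ m.1 ∧ m.1 ≤ e1
      · rw [hm', hwin m.1 hw]
        by_cases hmi : m.1 = i
        · rw [if_pos hmi]
          by_cases hai : a = ω i
          · rw [if_pos ⟨hai, by rw [hmi]⟩, hai, HahnSeries.coeff_single_same]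
          · rw [if_neg (fun h => hai h.1), HahnSeries.coeff_single_of_ne hai]
        · rw [if_neg hmi, if_neg, HahnSeries.coeff_zero]
          rintro ⟨_, h⟩
          exact hmi (Prod.ext_iff.1 h).1
      · have h3 := hout m.1 hw
        rw [if_neg]
        · apply hlowS m
          rw [hm, Int.cast_zero, mul_zero, add_zero]
          linarith
        · rintro ⟨_, h⟩
          rw [h] at hw
          exact hw hiJ
    · rw [if_neg]
      · apply hlowS m
        have h3 : (1 : ℝ) ≤ m.2 := by exact_mod_cast hm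
        have h4 : 0 < s := lt_of_le_of_lt (abs_nonneg _) hs
        have h5 : s ≤ s * m.2 := by nlinarith
        have h6 := hω0 m.1
        linarith
      · rintro ⟨_, h⟩
        rw [h] at hm
        exact lt_irrefl _ hm
  refine ⟨fun e => (κ e : HK F), ω i, ?_, ?_⟩
  · rw [← hS]
    intro a ha
    ext m
    have h2 := hcoef a m ha.le
    rw [if_neg (fun h => ha.ne h.1)] at h2
    exact h2
  · rw [← hS]
    ext m
    have h2 := hcoef (ω i) m le_rfl
    unfold cf at h2
    refine h2.trans ?_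
    rw [AddMonoidAlgebra.coeff_single, Finsupp.single_apply]
    by_cases hm : m = (i, 0)
    · rw [if_pos ⟨rfl, hm⟩, if_pos hm.symm]
    · rw [if_neg (fun h => hm h.2), if_neg (fun h => hm h.symm)]

end Pool.Agent.TH3.IR
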