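import Mathlib

/-! The zeros at `1` and `-1` of `A(s^2) + B(s^2) (1 + s^3 - s)`. -/

set_option autoImplicit false

namespace Pool.Agent.TH3.IR

/-- the exponents of the polynomial -/
theorem zeros_bound_coeff {F : Type} [Field F] {A B : Polynomial F} {L R l r : ℝ}
    (hl : 0 ≤ l) (hr : 3 / 2 ≤ r)
    (hA : ∀ n ∈ A.support, L ≤ n ∧ (n : ℝ) ≤ R)
    (hB : ∀ n ∈ B.support, L + l ≤ n ∧ (n : ℝ) ≤ R - r) (m : ℕ)
    (hm : (A.comp (Polynomial.X ^ 2) + B.comp (Polynomial.X ^ 2) *
        (1 + Polynomial.X ^ 3 - Polynomial.X)).coeff m ≠ 0) :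
    2 * L ≤ m ∧ (m : ℝ) ≤ 2 * R := by
  have hc : ∀ C : Polynomial F, ∀ n : ℕ, (C.comp (Polynomial.X ^ 2)).coeff n ≠ 0 →
      ∃ i ∈ C.support, n = 2 * i := by
    intro C n hn
    rw [← Polynomial.expand_eq_comp_X_pow, Polynomial.coeff_expand (by norm_num)] at hn
    split_ifs at hn with h
    · refine ⟨n / 2, Polynomial.mem_support_iff.2 hn, ?_⟩
      omega
    · exact absurd rfl hn
  by_contra hcon
  apply hm
  have h1 : (A.comp (Polynomial.X ^ 2)).coeff m = 0 := by
    by_contra h
    obtain ⟨i, hi, rfl⟩ := hc A m h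
    apply hcon
    have := hA i hi
    push_cast
    constructor <;> linarith [this.1, this.2]
  have hsplit : (B.comp (Polynomial.X ^ 2) * (1 + Polynomial.X ^ 3 - Polynomial.X)) =
      B.comp (Polynomial.X ^ 2) + B.comp (Polynomial.X ^ 2) * Polynomial.X ^ 3 -
        B.comp (Polynomial.X ^ 2) * Polynomial.X ^ 1 := by ring
  have h2 : (B.comp (Polynomial.X ^ 2)).coeff m = 0 := by
    by_contra h
    obtain ⟨i, hi, rfl⟩ := hc B m h
    apply hcon
    have := hB i hi
    push_cast
    constructor <;> linarith [this.1, this.2]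
  have h3 : (B.comp (Polynomial.X ^ 2) * Polynomial.X ^ 3).coeff m = 0 := by
    rw [Polynomial.coeff_mul_X_pow']
    split_ifs with hm3
    · by_contra h
      obtain ⟨i, hi, hi2⟩ := hc B (m - 3) h
      apply hcon
      have := hB i hi
      have hmi : m = 2 * i + 3 := by omega
      rw [hmi]
      push_cast
      constructor <;> linarith [this.1, this.2]
    · rfl
  have h4 : (B.comp (Polynomial.X ^ 2) * Polynomial.X ^ 1).coeff m = 0 := by
    rw [Polynomial.coeff_mul_X_pow']
    split_ifs with hm3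
    · by_contra h
      obtain ⟨i, hi, hi2⟩ := hc B (m - 1) h
      apply hcon
      have := hB i hi
      have hmi : m = 2 * i + 1 := by omega
      rw [hmi]
      push_cast
      constructor <;> linarith [this.1, this.2]
    · rfl
  rw [hsplit, Polynomial.coeff_add, Polynomial.coeff_sub, Polynomial.coeff_add, h1, h2, h3, h4]
  ring

/-- the polynomial is not zero -/
theorem zeros_bound_ne {F : Type} [Field F] [CharZero F] {A B : Polynomial F}
    (hne : A ≠ 0 ∨ B ≠ 0) :
    (A.comp (Polynomial.X ^ 2) + B.comp (Polynomial.X ^ 2) *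
        (1 + Polynomial.X ^ 3 - Polynomial.X)) ≠ 0 := by
  intro h
  have hcz : ∀ C : Polynomial F, C.comp (Polynomial.X ^ 2) = 0 → C = 0 := by
    intro C hC
    rw [← Polynomial.expand_eq_comp_X_pow, Polynomial.expand_eq_zero (by norm_num)] at hC
    exact hC
  have h2 := congrArg (fun p : Polynomial F => p.comp (-Polynomial.X)) h
  simp only [Polynomial.add_comp, Polynomial.mul_comp, Polynomial.sub_comp, Polynomial.pow_comp,
    Polynomial.comp_assoc, Polynomial.X_comp, Polynomial.one_comp, Polynomial.zero_comp,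
    even_two.neg_pow] at h2
  have h3 : B.comp (Polynomial.X ^ 2) *
      (Polynomial.C 2 * (Polynomial.X ^ 3 - Polynomial.X)) = 0 := by
    have e : (Polynomial.C (2 : F)) = 2 := rfl
    rw [e]
    linear_combination h - h2
  have hX : (Polynomial.C (2 : F) * (Polynomial.X ^ 3 - Polynomial.X) : Polynomial F) ≠ 0 := by
    intro h0
    have := congrArg (Polynomial.eval (2 : F)) h0
    simp only [Polynomial.eval_mul, Polynomial.eval_C, Polynomial.eval_sub, Polynomial.eval_pow,
      Polynomial.eval_X, Polynomial.eval_zero] at this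
    norm_num at this
  have hB : B = 0 := hcz B ((mul_eq_zero.1 h3).resolve_right hX)
  have hA : A = 0 := by
    apply hcz A
    rw [hB] at h
    simpa using h
  rcases hne with h | h
  · exact h hA
  · exact h hB

/-- the zeros at `1` and `-1` of `A(s^2) + B(s^2) (1 + s^3 - s)` -/
theorem zeros_bound {F : Type} [Field F] [CharZero F] {A B : Polynomial F} {L R l r : ℝ}
    (hl : 0 ≤ l) (hr : 3 / 2 ≤ r) (hne : A ≠ 0 ∨ B ≠ 0)
    (hA : ∀ n ∈ A.support, L ≤ n ∧ (n : ℝ) ≤ R)
    (hB : ∀ n ∈ B.support, L + l ≤ n ∧ (n : ℝ) ≤ R - r) :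
    ∃ (e1 e2 : ℕ) (Q1 Q2 : Polynomial F), Q1.eval 1 ≠ 0 ∧ Q2.eval (-1) ≠ 0 ∧
      (A.comp (Polynomial.X ^ 2) + B.comp (Polynomial.X ^ 2) *
        (1 + Polynomial.X ^ 3 - Polynomial.X)) = (Polynomial.X - 1) ^ e1 * Q1 ∧
      (A.comp (Polynomial.X ^ 2) + B.comp (Polynomial.X ^ 2) *
        (1 + Polynomial.X ^ 3 - Polynomial.X)) = (Polynomial.X + 1) ^ e2 * Q2 ∧
      ((e1 + e2 : ℕ) : ℝ) ≤ 2 * (R - L) := by
  classical
  have hcoeff := zeros_bound_coeff hl hr hA hB
  have hP := zeros_bound_ne hne
  set P := (A.comp (Polynomial.X ^ 2) + B.comp (Polynomial.X ^ 2) *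
        (1 + Polynomial.X ^ 3 - Polynomial.X)) with hPdef
  clear_value P
  obtain ⟨Q1, h1, h1'⟩ := Polynomial.exists_eq_pow_rootMultiplicity_mul_and_not_dvd P hP 1
  obtain ⟨Q2, h2, h2'⟩ := Polynomial.exists_eq_pow_rootMultiplicity_mul_and_not_dvd P hP (-1)
  refine ⟨P.rootMultiplicity 1, P.rootMultiplicity (-1), Q1, Q2, ?_, ?_, ?_, ?_, ?_⟩
  · intro h
    exact h1' (Polynomial.dvd_iff_isRoot.2 h)
  · intro h
    exact h2' (Polynomial.dvd_iff_isRoot.2 h)
  · rw [Polynomial.C_1] at h1
    exact h1
  · rw [Polynomial.C_neg, Polynomial.C_1, sub_neg_eq_add] at h2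
    exact h2
  · have hcard : P.rootMultiplicity 0 + P.rootMultiplicity 1 + P.rootMultiplicity (-1)
        ≤ P.natDegree := by
      have e : ∑ a ∈ ({0, 1, -1} : Finset F), P.roots.count a =
          P.rootMultiplicity 0 + P.rootMultiplicity 1 + P.rootMultiplicity (-1) := by
        have h11 : (1 : F) ≠ -1 := by
          intro h
          have : (2 : F) = 0 := by linear_combination h
          exact two_ne_zero this
        rw [Finset.sum_insert (by
            simp [one_ne_zero.symm]), Finset.sum_insert (by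
            simpa using h11), Finset.sum_singleton]
        simp only [Polynomial.count_roots]
        ring
      rw [← e]
      refine le_trans ?_ (Polynomial.card_roots' P)
      have h3 : ∑ a ∈ ({0, 1, -1} : Finset F) ∪ P.roots.toFinset, P.roots.count a =
          Multiset.card P.roots := by
        apply Multiset.sum_count_eq_card
        intro a ha
        exact Finset.mem_union_right _ (Multiset.mem_toFinset.2 ha)
      rw [← h3]
      exact Finset.sum_le_sum_of_subset Finset.subset_union_left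
    have h0 : P.rootMultiplicity 0 = P.natTrailingDegree :=
      Polynomial.rootMultiplicity_eq_natTrailingDegree'
    have hd := hcoeff P.natDegree (by
      rw [Polynomial.coeff_natDegree]
      exact Polynomial.leadingCoeff_ne_zero.2 hP)
    have ht := hcoeff P.natTrailingDegree (by
      have := Polynomial.trailingCoeff_nonzero_iff_nonzero.2 hP
      exact this)
    rw [h0] at hcard
    have hcard' : (P.natTrailingDegree : ℝ) + (P.rootMultiplicity 1 : ℝ) +
        (P.rootMultiplicity (-1) : ℝ) ≤ (P.natDegree : ℝ) := by exact_mod_cast hcard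
    push_cast
    linarith [hd.2, ht.1]

end Pool.Agent.TH3.IR
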