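import Pool.Agent.H350R3.MG.PLem

/-! From general affine points `(1 : P)` to general points of projective space. -/

set_option autoImplicit false

namespace Pool.Agent.TH3.IR

open MvPolynomial
open scoped LinearAlgebra.Projectivization
open Pool.Agent.H350R3.MG

/-- clearing denominators: `F (v / v₀)` times a power of the product of the `v i 0` -/
theorem exists_homog {n k : ℕ} (F : MvPolynomial (Fin k × Fin n) ℂ) :
    ∃ (K : ℕ) (Φ : MvPolynomial (Fin k × Fin (n + 1)) ℂ), ∀ v : Fin k → Fin (n + 1) → ℂ,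
      (∀ i, v i 0 ≠ 0) → eval (fun x : Fin k × Fin (n + 1) => v x.1 x.2) Φ =
        (∏ i, v i 0) ^ K * eval (fun x : Fin k × Fin n => v x.1 x.2.succ / v x.1 0) F := by
  induction F using MvPolynomial.induction_on with
  | C a => exact ⟨0, C a, fun v _ => by simp⟩
  | add p q hp hq =>
    obtain ⟨K1, Φ1, h1⟩ := hp
    obtain ⟨K2, Φ2, h2⟩ := hq
    refine ⟨K1 + K2, Φ1 * (∏ i, X (i, 0)) ^ K2 + Φ2 * (∏ i, X (i, 0)) ^ K1, fun v hv => ?_⟩
    rw [map_add, map_mul, map_mul, h1 v hv, h2 v hv, map_pow, map_pow, map_prod, map_add]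
    simp only [eval_X]
    ring
  | mul_X p i hp =>
    obtain ⟨K, Φ, h⟩ := hp
    refine ⟨K + 1, Φ * (X (i.1, i.2.succ) * ∏ l ∈ Finset.univ.erase i.1, X (l, 0)),
      fun v hv => ?_⟩
    rw [map_mul, h v hv, map_mul, map_prod, map_mul, eval_X, eval_X]
    simp only [eval_X]
    have h1 : ∏ l, v l 0 = v i.1 0 * ∏ l ∈ Finset.univ.erase i.1, v l 0 :=
      (Finset.mul_prod_erase _ _ (Finset.mem_univ _)).symm
    have h2 := hv i.1
    rw [pow_succ, h1]
    field_simp

/-- a property which holds for the points `(1 : P i)` off a hypersurface holds generally -/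
theorem generally_of_affine {n k : ℕ} {Q : (Fin k → ℙ ℂ (Fin (n + 1) → ℂ)) → Prop}
    (F : MvPolynomial (Fin k × Fin n) ℂ) (hF : F ≠ 0)
    (h : ∀ (P : Fin k → Fin n → ℂ)
      (hv : ∀ i, (Fin.cons 1 (P i) : Fin (n + 1) → ℂ) ≠ 0),
      eval (fun x : Fin k × Fin n => P x.1 x.2) F ≠ 0 →
        Q (fun i => Projectivization.mk ℂ (Fin.cons 1 (P i) : Fin (n + 1) → ℂ) (hv i))) :
    Generally Q := by
  obtain ⟨K, Φ, hΦ⟩ := exists_homog F
  have hcons : ∀ p : Fin n → ℂ, (Fin.cons 1 p : Fin (n + 1) → ℂ) ≠ 0 := by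
    intro p h0
    have := congrFun h0 0
    simp at this
  have hne : Φ * ∏ i : Fin k, X (i, (0 : Fin (n + 1))) ≠ 0 := by
    obtain ⟨w, hw⟩ : ∃ w : Fin k × Fin n → ℂ, eval w F ≠ 0 := by
      by_contra hcon
      push Not at hcon
      exact hF (MvPolynomial.funext fun w => by rw [hcon w, map_zero])
    intro h0
    have h1 := hΦ (fun i => Fin.cons 1 (fun j => w (i, j))) (fun i => by simp)
    have h2 := congrArg (eval (fun x : Fin k × Fin (n + 1) =>
      (Fin.cons 1 (fun j => w (x.1, j)) : Fin (n + 1) → ℂ) x.2)) h0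
    rw [map_mul, map_zero, h1, map_prod] at h2
    simp at h2
    exact hw h2
  refine generally_of_poly _ hne fun v hv hev => ?_
  rw [map_mul, map_prod] at hev
  have h0 : ∀ i, v i 0 ≠ 0 := by
    intro i
    have := Finset.prod_ne_zero_iff.1 (right_ne_zero_of_mul hev) i (Finset.mem_univ i)
    rwa [eval_X] at this
  have h1 := left_ne_zero_of_mul hev
  rw [hΦ v h0] at h1
  have h2 := right_ne_zero_of_mul h1
  have h3 := h (fun i j => v i j.succ / v i 0) (fun i => hcons _) h2
  have h4 : (fun i => Projectivization.mk ℂ (v i) (hv i)) = fun i => Projectivization.mk ℂ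
      (Fin.cons 1 (fun j => v i j.succ / v i 0) : Fin (n + 1) → ℂ) (hcons _) := by
    funext i
    rw [Projectivization.mk_eq_mk_iff']
    refine ⟨v i 0, ?_⟩
    funext j
    refine Fin.cases ?_ (fun j => ?_) j
    · simp
    · simp only [Pi.smul_apply, Fin.cons_succ, smul_eq_mul]
      field_simp [h0 i]
  rw [h4]
  exact h3

/-- the homogeneous prime ideal of the point `(1 : p)` -/
theorem primeIdeal_cons {n : ℕ} (p : Fin n → ℂ) (hv : (Fin.cons 1 p : Fin (n + 1) → ℂ) ≠ 0) :
    primeIdeal (Projectivization.mk ℂ (Fin.cons 1 p : Fin (n + 1) → ℂ) hv) =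
      Ideal.span (Set.range fun j : Fin n =>
        (X j.succ - C (p j) * X 0 : MvPolynomial (Fin (n + 1)) ℂ)) := by
  rw [primeIdeal_mk]
  set I := Ideal.span (Set.range fun j : Fin n =>
    (X j.succ - C (p j) * X 0 : MvPolynomial (Fin (n + 1)) ℂ)) with hI
  apply le_antisymm
  · intro F hF
    -- modulo `I` a polynomial is a polynomial in `X 0`
    have key : ∀ G : MvPolynomial (Fin (n + 1)) ℂ,
        G - aeval (fun i => (C ((Fin.cons 1 p : Fin (n + 1) → ℂ) i) * X 0 :
          MvPolynomial (Fin (n + 1)) ℂ)) G ∈ I := by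
      intro G
      induction G using MvPolynomial.induction_on with
      | C a => simp [MvPolynomial.algebraMap_eq]
      | add a b ha hb =>
        rw [map_add]
        have := I.add_mem ha hb
        convert this using 1
        ring
      | mul_X a i ha =>
        rw [map_mul, aeval_X]
        have h1 : (X i : MvPolynomial (Fin (n + 1)) ℂ) -
            C ((Fin.cons 1 p : Fin (n + 1) → ℂ) i) * X 0 ∈ I := by
          refine Fin.cases ?_ (fun j => ?_) i
          · simp
          · rw [Fin.cons_succ]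
            exact Ideal.subset_span ⟨j, rfl⟩
        have h2 := I.add_mem (I.mul_mem_right (X i) ha) (I.mul_mem_left
          (aeval (fun i => (C ((Fin.cons 1 p : Fin (n + 1) → ℂ) i) * X 0 :
            MvPolynomial (Fin (n + 1)) ℂ)) a) h1)
        convert h2 using 1
        ring
    have h1 := key F
    have h2 : aeval (fun i => (C ((Fin.cons 1 p : Fin (n + 1) → ℂ) i) * X 0 :
        MvPolynomial (Fin (n + 1)) ℂ)) F = 0 := by
      apply MvPolynomial.funext
      intro w
      rw [map_zero, ← hF (w 0)]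
      rw [← MvPolynomial.coe_aeval_eq_eval, ← MvPolynomial.coe_aeval_eq_eval]
      rw [AlgHom.coe_toRingHom, AlgHom.coe_toRingHom, ← AlgHom.comp_apply]
      congr 1
      ext i
      simp [mul_comm]
    rwa [h2, sub_zero] at h1
  · rw [hI, Ideal.span_le]
    rintro _ ⟨j, rfl⟩
    intro t
    simp only [Pi.smul_apply, map_sub, map_mul, eval_X, eval_C, smul_eq_mul, Fin.cons_succ,
      Fin.cons_zero]
    ring

end Pool.Agent.TH3.IR
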