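import Pool.Agent.TH3.IR.Defs

/-! # IR6 : the root of `c ^ 3 - c = (ξ - η) / 2` near `1`
(written by helper113) -/

set_option autoImplicit false

namespace Pool.Agent.TH3.IR

open Finset Pool.Agent.TH603.EL

namespace Root

section ps
variable {F : Type} [Field F]

open PowerSeries in
/-- fixed points of contractions of the ring of power series -/
theorem exists_fixed (f : PowerSeries F → PowerSeries F)
    (hf : ∀ (n : ℕ) (a b : PowerSeries F), X ^ n ∣ a - b → X ^ (n + 1) ∣ f a - f b) :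
    ∃ a, f a = a := by
  obtain ⟨u, hu⟩ : ∃ u : ℕ → PowerSeries F, ∀ n, u (n + 1) = f (u n) :=
    ⟨fun n => f^[n] 0, fun n => Function.iterate_succ_apply' f n 0⟩
  have h1 : ∀ n, (X : PowerSeries F) ^ n ∣ u (n + 1) - u n := by
    intro n
    induction n with
    | zero => simp
    | succ n ih =>
      have h := hf n _ _ ih
      rw [← hu (n + 1), ← hu n] at h
      exact h
  have h2 : ∀ n m, n ≤ m → (X : PowerSeries F) ^ n ∣ u m - u n := by
    intro n m hnm
    induction m, hnm using Nat.le_induction with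
    | base => simp
    | succ m hm ih =>
      have h3 : (X : PowerSeries F) ^ n ∣ u (m + 1) - u m := (pow_dvd_pow _ hm).trans (h1 m)
      have h4 := dvd_add h3 ih
      rwa [sub_add_sub_cancel] at h4
  obtain ⟨a, ha⟩ : ∃ a : PowerSeries F, ∀ n, coeff n a = coeff n (u (n + 1)) :=
    ⟨PowerSeries.mk fun n => coeff n (u (n + 1)), fun n => PowerSeries.coeff_mk _ _⟩
  have h3 : ∀ n, (X : PowerSeries F) ^ n ∣ a - u n := by
    intro n
    rw [PowerSeries.X_pow_dvd_iff]
    intro k hk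
    rw [map_sub, ha]
    have h4 := h2 (k + 1) n hk
    rw [PowerSeries.X_pow_dvd_iff] at h4
    have h5 := h4 k (Nat.lt_succ_self k)
    rw [map_sub, sub_eq_zero] at h5
    rw [h5, sub_self]
  refine ⟨a, ?_⟩
  have h4 : ∀ n, (X : PowerSeries F) ^ (n + 1) ∣ f a - a := by
    intro n
    have h5 := hf n _ _ (h3 n)
    have h6 := h3 (n + 1)
    rw [hu n] at h6
    have h7 := dvd_sub h5 h6
    rwa [sub_sub_sub_cancel_right] at h7
  ext k
  have h5 := h4 k
  rw [PowerSeries.X_pow_dvd_iff] at h5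
  have h6 := h5 k (Nat.lt_succ_self k)
  rwa [map_sub, sub_eq_zero] at h6

open PowerSeries in
/-- the power series `q = 1 + X y` with `q ^ 3 - q = X` -/
theorem exists_q (h2 : (2 : F) ≠ 0) : ∃ y : PowerSeries F, (1 + X * y) ^ 3 - (1 + X * y) = X := by
  obtain ⟨y, hy⟩ := exists_fixed (F := F)
    (fun y => C (2⁻¹ : F) * (1 - 3 * X * y ^ 2 - X ^ 2 * y ^ 3)) (by
      rintro n a b ⟨w, hw⟩
      refine ⟨-(C (2⁻¹ : F) * (3 * (a + b) + X * (a ^ 2 + a * b + b ^ 2)) * w), ?_⟩
      linear_combination (-(C (2⁻¹ : F) * (3 * (a + b) + X * (a ^ 2 + a * b + b ^ 2)) * X)) * hw)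
  refine ⟨y, ?_⟩
  have h3 : (C (2 : F) : PowerSeries F) * C (2⁻¹ : F) = 1 := by
    rw [← map_mul, mul_inv_cancel₀ h2, map_one]
  have h4 : (C (2 : F) : PowerSeries F) = 2 := map_ofNat C 2
  rw [h4] at h3
  have h5 : 2 * y = 1 - 3 * X * y ^ 2 - X ^ 2 * y ^ 3 := by
    conv_lhs => rw [← hy]
    rw [← mul_assoc, h3, one_mul]
  linear_combination X * h5

end ps

section cone
variable {F : Type} [Field F] {τ s : ℝ}

theorem cf_smul (c : F) (x : HR F) (a : ℝ) (i j : ℤ) : cf (c • x) a i j = c * cf x a i j := by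
  unfold cf
  rw [HahnSeries.coeff_smul, AddMonoidAlgebra.coeff_smul_apply, smul_eq_mul]

theorem cf_add (x y : HR F) (a : ℝ) (i j : ℤ) : cf (x + y) a i j = cf x a i j + cf y a i j := by
  unfold cf
  rw [HahnSeries.coeff_add, AddMonoidAlgebra.coeff_add, Finsupp.add_apply]

theorem cf_sub (x y : HR F) (a : ℝ) (i j : ℤ) : cf (x - y) a i j = cf x a i j - cf y a i j := by
  unfold cf
  rw [HahnSeries.coeff_sub, AddMonoidAlgebra.coeff_sub, Finsupp.sub_apply]

theorem cf_mul_ne {x y : HR F} {a : ℝ} {i j : ℤ} (h : cf (x * y) a i j ≠ 0) :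
    ∃ (a1 a2 : ℝ) (i1 i2 j1 j2 : ℤ), a1 + a2 = a ∧ i1 + i2 = i ∧ j1 + j2 = j ∧
      cf x a1 i1 j1 ≠ 0 ∧ cf y a2 i2 j2 ≠ 0 := by
  classical
  unfold cf at h
  rw [HahnSeries.coeff_mul, AddMonoidAlgebra.coeff_sum, Finsupp.finsetSum_apply] at h
  obtain ⟨⟨u, v⟩, huv, hne⟩ := Finset.exists_ne_zero_of_sum_ne_zero h
  rw [Finset.mem_antidiagonal] at huv
  obtain ⟨_, _, huv⟩ := huv
  simp only at huv hne
  rw [AddMonoidAlgebra.coeff_mul] at hne
  obtain ⟨⟨i1, j1⟩, h1, hne1⟩ := Finset.exists_ne_zero_of_sum_ne_zero hne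
  obtain ⟨⟨i2, j2⟩, h2, hne2⟩ := Finset.exists_ne_zero_of_sum_ne_zero hne1
  rw [Finsupp.mem_support_iff] at h1 h2
  simp only [Prod.mk_add_mk, Prod.mk.injEq, ne_eq, ite_eq_right_iff, Classical.not_imp] at hne2
  exact ⟨u, v, i1, i2, j1, j2, huv, hne2.1.1, hne2.1.2, h1, h2⟩

theorem mul_cone {x y : HR F} (hx : x ∈ Cone F τ s) (hy : y ∈ Cone F τ s) :
    x * y ∈ Cone F τ s := by
  intro a i j h
  obtain ⟨a1, a2, i1, i2, j1, j2, rfl, rfl, rfl, h1, h2⟩ := cf_mul_ne h
  obtain ⟨p1, p2, p3⟩ := hx _ _ _ h1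
  obtain ⟨q1, q2, q3⟩ := hy _ _ _ h2
  refine ⟨by omega, ?_, ?_⟩
  · push_cast
    linarith
  · push_cast
    linarith

theorem add_cone {x y : HR F} (hx : x ∈ Cone F τ s) (hy : y ∈ Cone F τ s) :
    x + y ∈ Cone F τ s := by
  intro a i j h
  rw [cf_add] at h
  by_cases h1 : cf x a i j = 0
  · rw [h1, zero_add] at h
    exact hy _ _ _ h
  · exact hx _ _ _ h1

theorem sub_cone {x y : HR F} (hx : x ∈ Cone F τ s) (hy : y ∈ Cone F τ s) :
    x - y ∈ Cone F τ s := by
  intro a i j h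
  rw [cf_sub] at h
  by_cases h1 : cf x a i j = 0
  · rw [h1, zero_sub, neg_ne_zero] at h
    exact hy _ _ _ h
  · exact hx _ _ _ h1

theorem smul_cone {x : HR F} (hx : x ∈ Cone F τ s) (c : F) : c • x ∈ Cone F τ s := by
  intro a i j h
  rw [cf_smul] at h
  exact hx _ _ _ (right_ne_zero_of_mul h)

theorem tz_cone {a : ℝ} {i j : ℤ} (hj : 0 ≤ j) (h1 : i * τ + s * j ≤ a)
    (h2 : -i * (1 - τ) + s * j ≤ a) : tz F a i j ∈ Cone F τ s := by
  classical
  intro a' i' j' h
  unfold cf tz at h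
  rw [HahnSeries.coeff_single] at h
  split_ifs at h with h3
  · rw [AddMonoidAlgebra.coeff_single, Finsupp.single_apply] at h
    split_ifs at h with h4
    · rw [Prod.mk.injEq] at h4
      obtain ⟨rfl, rfl⟩ := h4
      subst h3
      exact ⟨hj, h1, h2⟩
    · exact absurd rfl h
  · exact absurd rfl h

theorem one_cone : (1 : HR F) ∈ Cone F τ s := by
  have h : (1 : HR F) = tz F 0 0 0 := rfl
  rw [h]
  exact tz_cone le_rfl (by simp) (by simp)

theorem pow_cone {x : HR F} (hx : x ∈ Cone F τ s) (n : ℕ) : x ^ n ∈ Cone F τ s := by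
  induction n with
  | zero => rw [pow_zero]; exact one_cone
  | succ n ih => rw [pow_succ]; exact mul_cone ih hx

/-- the value at `x` of a power series with coefficients in `F` -/
noncomputable def hv (x : HR F) (f : PowerSeries F) : HR F :=
  PowerSeries.heval x (PowerSeries.map (algebraMap F (Lau F)) f)

theorem cf_hv {x : HR F} (hx : 0 < x.orderTop) (f : PowerSeries F) {a : ℝ} {i j : ℤ}
    (h : cf (hv x f) a i j ≠ 0) : ∃ n : ℕ, cf (x ^ n) a i j ≠ 0 := by
  unfold cf hv at h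
  rw [PowerSeries.heval_apply, HahnSeries.SummableFamily.coeff_hsum_eq_sum,
    AddMonoidAlgebra.coeff_sum, Finsupp.finsetSum_apply] at h
  obtain ⟨n, -, hne⟩ := Finset.exists_ne_zero_of_sum_ne_zero h
  refine ⟨n, fun h0 => hne ?_⟩
  rw [HahnSeries.SummableFamily.powerSeriesFamily_of_orderTop_pos hx, HahnSeries.coeff_smul,
    PowerSeries.coeff_map, smul_eq_mul, ← Algebra.smul_def, AddMonoidAlgebra.coeff_smul_apply]
  unfold cf at h0
  rw [h0, smul_zero]

theorem low_of_cf {x : HR F} {b : ℝ} (h : ∀ a < b, ∀ i j, cf x a i j = 0) : Low x b := by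
  intro a ha
  ext ⟨i, j⟩
  exact h a ha i j

theorem orderTop_pos {x : HR F} {m : ℝ} (hm : 0 < m) (hx : Low x m) : 0 < x.orderTop := by
  by_cases h0 : x = 0
  · rw [h0, HahnSeries.orderTop_zero]
    exact WithTop.top_pos
  · rw [HahnSeries.zero_lt_orderTop_iff h0]
    by_contra hc
    push Not at hc
    exact HahnSeries.coeff_order_eq_zero.not.2 h0 (hx x.order (lt_of_le_of_lt hc hm))

end cone

end Root

/-- the root of `c ^ 3 - c = (ξ - η) / 2` near `1` -/
theorem exists_c {F : Type} [Field F] [CharZero F] {τ s : ℝ} (h0 : 0 < τ) (h1 : τ < 1) (hs : 0 < s) :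
    ∃ c : HR F, c ∈ Cone F τ s ∧ 2 * (c ^ 3 - c) = xi F τ - eta F τ s ∧
      Low (c - 1) (min τ (1 - τ)) := by
  obtain ⟨y, hy⟩ := Root.exists_q (F := F) two_ne_zero
  obtain ⟨δ, hδ⟩ : ∃ δ : HR F, δ = (2⁻¹ : F) • (xi F τ - eta F τ s) := ⟨_, rfl⟩
  have hδ2 : 2 * δ = xi F τ - eta F τ s := by
    rw [hδ, two_mul, ← add_smul]
    have : (2⁻¹ : F) + 2⁻¹ = 1 := by
      rw [← two_mul, mul_inv_cancel₀ two_ne_zero]
    rw [this, one_smul]
  have hm : 0 < min τ (1 - τ) := lt_min h0 (by linarith)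
  have hlow : Low δ (min τ (1 - τ)) := by
    have hxi : Low (xi F τ) (min τ (1 - τ)) := (low_tz τ 1 0).mono (min_le_left _ _)
    have heta : Low (eta F τ s) (min τ (1 - τ)) := by
      have h := (low_tz (F := F) (1 - τ) (-1) 0).mul
        ((low_one (B := Lau F)).add ((low_tz (F := F) s 0 1).mono hs.le))
      rw [add_zero] at h
      exact h.mono (min_le_right _ _)
    intro a ha
    rw [hδ, HahnSeries.coeff_smul, (hxi.sub heta) a ha, smul_zero]
  have hpos : 0 < δ.orderTop := Root.orderTop_pos hm hlow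
  have hcone : δ ∈ Cone F τ s := by
    rw [hδ]
    refine Root.smul_cone (Root.sub_cone (Root.tz_cone le_rfl (by simp) (by simp)) ?_) _
    refine Root.mul_cone (Root.tz_cone le_rfl ?_ ?_) (Root.add_cone Root.one_cone
      (Root.tz_cone zero_le_one (by simp) (by simp)))
    · push_cast
      linarith
    · push_cast
      linarith
  refine ⟨Root.hv δ (1 + PowerSeries.X * y), ?_, ?_, ?_⟩
  · intro a i j h
    obtain ⟨n, hn⟩ := Root.cf_hv hpos _ h
    exact Root.pow_cone hcone n _ _ _ hn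
  · have h2 : Root.hv δ (1 + PowerSeries.X * y) ^ 3 - Root.hv δ (1 + PowerSeries.X * y) = δ := by
      unfold Root.hv
      rw [← map_pow, ← map_sub, ← map_pow, ← map_sub, hy, PowerSeries.map_X,
        PowerSeries.heval_X δ hpos]
    rw [h2, hδ2]
  · have h3 : Root.hv δ (1 + PowerSeries.X * y) - 1 = δ * Root.hv δ y := by
      unfold Root.hv
      rw [map_add, map_one, map_mul, PowerSeries.map_X, map_add, map_one, map_mul,
        PowerSeries.heval_X δ hpos, add_sub_cancel_left]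
    rw [h3]
    have h4 : Low (Root.hv δ y) 0 := by
      apply Root.low_of_cf
      intro a ha i j
      by_contra hc
      obtain ⟨n, hn⟩ := Root.cf_hv hpos _ hc
      apply hn
      unfold cf
      rw [(hlow.pow n) a (lt_of_lt_of_le ha (by positivity))]
      rfl
    have h5 := hlow.mul h4
    rwa [add_zero] at h5

end Pool.Agent.TH3.IR
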