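import Pool.Agent.TH3.IR.SComap
import Pool.Agent.TH3.IR.Step

/-! # SR2: the relative principle, rank version (written by helper989) -/

set_option autoImplicit false

namespace Pool.Agent.TH3.IR

open Finset MvPolynomial Pool.Agent.TH603.EL Pool.Agent.TH176.Nag Pool.Agent.TH868.NG

namespace SStep

theorem mo_smul {K σ : Type} [Field K] [Fintype σ] (k : K) (f : (ℤ × (σ → ℤ)) →₀ K) (x : K)
    (y : σ → K) (α : ℕ) (γ : σ → ℕ) : mo (k • f) x y α γ = k * mo f x y α γ := by
  unfold mo
  rw [Finsupp.sum_smul_index' (fun _ => by ring)]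
  unfold Finsupp.sum
  rw [Finset.mul_sum]
  apply Finset.sum_congr rfl
  intro n _
  simp only [smul_eq_mul]
  ring

theorem coeff_incl {F : Type} [Field F] (a : HK F) (b : ℝ) :
    (incl a).coeff b = AddMonoidAlgebra.single (0 : ℤ × ℤ) (a.coeff b) := by
  ext ⟨i, l⟩
  have h := cf_incl a b i l
  unfold cf at h
  rw [h, AddMonoidAlgebra.coeff_single, Finsupp.single_apply]
  by_cases hil : i = 0 ∧ l = 0
  · obtain ⟨rfl, rfl⟩ := hil
    have h0 : (0 : ℤ × ℤ) = (0, 0) := rfl
    rw [if_pos ⟨rfl, rfl⟩]
    exact (if_pos h0).symm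
  · rw [if_neg hil, if_neg]
    intro h
    rw [Prod.ext_iff] at h
    exact hil ⟨h.1.symm, h.2.symm⟩

/-- the leading coefficient of a multiple -/
theorem coeff_incl_mul {F : Type} [Field F] {κ : HK F} {E : HR F} {A e : ℝ} {n : ℤ × ℤ}
    (hκ : Low κ (A - e)) (hE : Low E e)
    (hE2 : E.coeff e = AddMonoidAlgebra.single n (1 : F)) :
    (incl κ * E).coeff A = AddMonoidAlgebra.single n (κ.coeff (A - e)) := by
  have h1 := (Low.incl hκ).coeff_mul hE
  rw [sub_add_cancel] at h1
  rw [h1, hE2, coeff_incl, AddMonoidAlgebra.single_mul_single, zero_add, mul_one]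

end SStep

open SStep

/-- the relative principle, rank version -/
theorem SurS_step {ι σ : Type} [Fintype ι] [Fintype σ] [DecidableEq σ] {w : ι → ℕ} (j : σ) {d : ℕ}
    {D D' : Set (ℤ × (σ → ℤ))} (hD : ∀ m ∈ D, 0 ≤ m.1 ∧ 0 ≤ m.2 j ∧ m.1 + m.2 j ≤ d)
    (H : ∀ (F : Type) [Field F] [CharZero F], ∃ U : ZMod 3 → HR F,
      (∀ (x y : F) (hx : x ≠ 0) (hy : y ≠ 0) (l : ZMod 3), evp hx hy (U l) ≠ 0) ∧
      ∀ (c : σ → ℤ) (i k : ℤ), (i, Function.update c j k) ∈ D' →
        ∃ f : (ℤ × ℤ) →₀ HK F, (∀ m ∈ f.support, (m.1, Function.update c j m.2) ∈ D) ∧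
          LeadMon U d i k f)
    (h : SurS w D') : SurS w D := by
  classical
  obtain ⟨T, hT1, hT2, F, _, _, x, y, hx, hy, hf⟩ := h
  obtain ⟨U, hU, hS⟩ := H F
  let X : ι → HK F := fun i => evp (hx i) (hy i j) (U 1) / evp (hx i) (hy i j) (U 0)
  let Y : ι → σ → HK F := fun i l =>
    if l = j then evp (hx i) (hy i j) (U 2) / evp (hx i) (hy i j) (U 0)
    else HahnSeries.C (y i l)
  have hYj : ∀ i, Y i j = evp (hx i) (hy i j) (U 2) / evp (hx i) (hy i j) (U 0) :=
    fun i => if_pos rfl
  have hYl : ∀ i l, l ≠ j → Y i l = HahnSeries.C (y i l) := fun i l hl => if_neg hl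
  have hX0 : ∀ i, X i ≠ 0 := fun i => div_ne_zero (hU _ _ _ _ _) (hU _ _ _ _ _)
  have hY0 : ∀ i l, Y i l ≠ 0 := by
    intro i l
    by_cases hl : l = j
    · subst hl
      rw [hYj]
      exact div_ne_zero (hU _ _ _ _ _) (hU _ _ _ _ _)
    · rw [hYl i l hl]
      intro h0
      exact hy i l (HahnSeries.C_injective (h0.trans (map_zero _).symm))
  -- the lifts of the monomials
  have hS' : ∀ m : ↥T, ∃ f : (ℤ × ℤ) →₀ HK F, (∀ n ∈ f.support, eS j m.1.2 n ∈ D) ∧
      ∃ a : ℝ, Low (ev U (hom d f)) a ∧
        (ev U (hom d f)).coeff a = AddMonoidAlgebra.single (m.1.1, m.1.2 j) (1 : F) := by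
    intro m
    exact hS m.1.2 m.1.1 (m.1.2 j) (by
      rw [Function.update_eq_self]
      exact hT1 m.2)
  choose f hfD e he1 he2 using hS'
  let g : ↥T → ((ℤ × (σ → ℤ)) →₀ HK F) := fun m => (f m).mapDomain (eS j m.1.2)
  have hg : ∀ m, (↑(g m).support : Set (ℤ × (σ → ℤ))) ⊆ D := by
    intro m n hn
    have h3 := Finsupp.mapDomain_support (Finset.mem_coe.1 hn)
    rw [Finset.mem_image] at h3
    obtain ⟨n', hn', rfl⟩ := h3
    exact hfD m n' hn'
  have hinj : ∀ a : ↥T → HK F, (∀ i, LMS (∑ k, a k • g k) (X i) (Y i) (w i)) → a = 0 := by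
    intro a hLM
    by_contra hne
    obtain ⟨m1, hm1⟩ : ∃ m, a m ≠ 0 := by
      by_contra hcon
      push Not at hcon
      exact hne (funext hcon)
    obtain ⟨m0, hm0, hmin⟩ := Finset.exists_min_image (univ.filter fun m : ↥T => a m ≠ 0)
      (fun m => (a m).order + e m) ⟨m1, by simpa using hm1⟩
    rw [Finset.mem_filter] at hm0
    obtain ⟨A, hA⟩ : ∃ A, A = (a m0).order + e m0 := ⟨_, rfl⟩
    have hlow : ∀ m, Low (a m) (A - e m) := by
      intro m b hb
      by_cases ham : a m = 0
      · rw [ham]
        rfl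
      · apply HahnSeries.coeff_eq_zero_of_lt_order
        have := hmin m (by simpa using ham)
        linarith
    obtain ⟨v, hv⟩ : ∃ v : ↥T → F, v = fun m => (a m).coeff (A - e m) := ⟨_, rfl⟩
    have hv0 : v m0 ≠ 0 := by
      rw [hv]
      show (a m0).coeff (A - e m0) ≠ 0
      rw [hA, add_sub_cancel_right]
      intro h0
      exact hm0.2 (HahnSeries.coeff_order_eq_zero.mp h0)
    let G0 : (ℤ × (σ → ℤ)) →₀ F :=
      ∑ m : ↥T, (Finsupp.single (m.1.1, m.1.2 j) (v m)).mapDomain (eS j m.1.2)
    have hG0 : G0 = ∑ m : ↥T, Finsupp.single m.1 (v m) := by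
      apply Finset.sum_congr rfl
      intro m _
      rw [Finsupp.mapDomain_single]
      congr 1
      unfold eS
      simp only [Function.update_eq_self]
    have hG1 : G0 m0.1 = v m0 := by
      rw [hG0, Finsupp.finsetSum_apply, Finset.sum_eq_single m0]
      · rw [Finsupp.single_eq_same]
      · intro m _ hmm
        rw [Finsupp.single_apply, if_neg]
        intro h0
        exact hmm (Subtype.ext h0)
      · intro h3
        exact absurd (Finset.mem_univ _) h3
    apply hv0
    rw [← hG1]
    have hzero : G0 = 0 := by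
      apply hf
      · -- the support
        intro n hn
        rw [Finset.mem_coe, Finsupp.mem_support_iff] at hn
        rw [hG0, Finsupp.finsetSum_apply] at hn
        obtain ⟨m, _, h2⟩ := Finset.exists_ne_zero_of_sum_ne_zero hn
        rw [Finsupp.single_apply] at h2
        by_cases hmn : m.1 = n
        · rw [← hmn]
          exact m.2
        · rw [if_neg hmn] at h2
          exact absurd rfl h2
      · -- the multiplicities
        intro i α γ hαγ
        show mo (∑ m : ↥T, (Finsupp.single (m.1.1, m.1.2 j) (v m)).mapDomain (eS j m.1.2)) (x i)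
          (y i) α γ = 0
        rw [mo_sum]
        have hS1 : ∀ m ∈ (univ : Finset ↥T),
            mo ((Finsupp.single (m.1.1, m.1.2 j) (v m)).mapDomain (eS j m.1.2)) (x i) (y i) α γ =
            kap j m.1.2 (y i) γ * pr (Finsupp.single (m.1.1, m.1.2 j) (v m)) (x i) (y i j)
              (fun u => u.1 ^ α * u.2 ^ γ j) :=
          fun m _ => mo_map j m.1.2 _ _ _ _ _
        rw [Finset.sum_congr rfl hS1]
        have hsplit : ∑ l, γ l = γ j + ∑ l ∈ univ.erase j, γ l :=
          (Finset.add_sum_erase univ γ (Finset.mem_univ j)).symm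
        obtain ⟨r, hr⟩ : ∃ r : ℕ, r = ∑ l ∈ univ.erase j, γ l := ⟨_, rfl⟩
        rw [← hr] at hsplit
        -- the combined polynomial
        let GG : (ℤ × ℤ) →₀ HK F :=
          ∑ m : ↥T, (HahnSeries.C (kap j m.1.2 (y i) γ) * a m : HK F) • f m
        have hkap : ∀ (c : σ → ℤ) (b : ℕ), kap j c (Y i) (Function.update γ j b) =
            (HahnSeries.C (kap j c (y i) γ) : HK F) := by
          intro c b
          unfold kap
          rw [map_prod]
          apply Finset.prod_congr rfl
          intro l hl
          have hl' := Finset.ne_of_mem_erase hl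
          rw [Function.update_of_ne hl', hYl i l hl', map_mul, map_pow, map_intCast, map_zpow₀]
        have hGLM : LM GG (X i) (Y i j) (w i - r) := by
          apply LM_of_mono
          intro a' b hab
          have h1 := hLM i a' (Function.update γ j b) (by
            have : ∑ l, Function.update γ j b l = b + r := by
              rw [← Finset.add_sum_erase univ _ (Finset.mem_univ j), Function.update_self, hr]
              congr 1
              apply Finset.sum_congr rfl
              intro l hl
              rw [Function.update_of_ne (Finset.ne_of_mem_erase hl)]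
            rw [this]
            omega)
          rw [mo_sum] at h1
          rw [← h1]
          show pr (∑ m : ↥T, (HahnSeries.C (kap j m.1.2 (y i) γ) * a m : HK F) • f m) _ _ _ = _
          rw [pr_sum']
          apply Finset.sum_congr rfl
          intro m _
          rw [pr_smul', mo_smul]
          show _ = a m * mo ((f m).mapDomain (eS j m.1.2)) (X i) (Y i) a' (Function.update γ j b)
          rw [mo_map, hkap, Function.update_self]
          ring
        have htri : ∀ n ∈ GG.support, 0 ≤ n.1 ∧ 0 ≤ n.2 ∧ n.1 + n.2 ≤ d := by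
          intro n hn
          rw [Finsupp.mem_support_iff] at hn
          have h1 : (∑ m : ↥T, (HahnSeries.C (kap j m.1.2 (y i) γ) * a m : HK F) • f m) n ≠ 0 := hn
          rw [Finsupp.finsetSum_apply] at h1
          obtain ⟨m, _, h2⟩ := Finset.exists_ne_zero_of_sum_ne_zero h1
          rw [Finsupp.smul_apply, smul_eq_mul] at h2
          have h3 : f m n ≠ 0 := right_ne_zero_of_mul h2
          have h4 := hD _ (hfD m n (Finsupp.mem_support_iff.2 h3))
          unfold eS at h4
          simp only [Function.update_self] at h4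
          exact h4
        rw [hYj] at hGLM
        have h5 := LM_transfer (hx i) (hy i j) (U := U) (fun l => hU _ _ _ _ l) htri hGLM A
        have h6 : ((ev U (hom d GG)).coeff A).coeff =
            ∑ m : ↥T, kap j m.1.2 (y i) γ • Finsupp.single (m.1.1, m.1.2 j) (v m) := by
          have e1 : ev U (hom d GG) = ∑ m : ↥T,
              incl (HahnSeries.C (kap j m.1.2 (y i) γ)) * (incl (a m) * ev U (hom d (f m))) := by
            show ev U (hom d (∑ m : ↥T, (HahnSeries.C (kap j m.1.2 (y i) γ) * a m : HK F) • f m)) = _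
            rw [evh_sum]
            apply Finset.sum_congr rfl
            intro m _
            rw [evh_smul, map_mul, mul_assoc]
          rw [e1, HahnSeries.coeff_sum]
          ext n
          rw [Finsupp.finsetSum_apply]
          have e2 : ∀ (s : Finset ↥T) (u : ↥T → Pool.Agent.TH603.EL.Lau F),
              (∑ c ∈ s, u c).coeff n = ∑ c ∈ s, (u c).coeff n := by
            intro s u
            induction s using Finset.induction_on with
            | empty => simp
            | insert a s ha ih =>
              rw [Finset.sum_insert ha, Finset.sum_insert ha, ← ih]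
              rfl
          rw [e2]
          apply Finset.sum_congr rfl
          intro m _
          rw [coeff_incl_C_mul, coeff_incl_mul (hlow m) (he1 m) (he2 m), hv]
          rfl
        rw [h6] at h5
        have h7 := h5 _ (mem_PF_mono (K := F) (a := α) (b := γ j) (w := w i - r) (by omega))
        rw [pr_sum'] at h7
        rw [← h7]
        apply Finset.sum_congr rfl
        intro m _
        rw [pr_smul']
    rw [hzero]
    rfl
  obtain ⟨T', h1, h2, h3⟩ := exists_T (w := w) (S := D) (x := X) (y := Y)
    (by rw [Fintype.card_coe]; exact hT2) g hg hinj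
  exact ⟨T', h1, h2, HK F, inferInstance, inferInstance, X, Y, hX0, hY0, h3⟩

end Pool.Agent.TH3.IR
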