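import Pool.Agent.TH3.IR.DefsS
import Pool.Agent.TH3.IR.Comap
import Mathlib

/-! # Rank version: affine changes of the first coordinate; choice of the exponents -/

set_option autoImplicit false

namespace Pool.Agent.TH3.IR

open Finset Pool.Agent.TH603.EL

/-- affine changes of the first coordinate, rank version -/
theorem SurS.comap {ι σ : Type} [Fintype ι] [Fintype σ] {w : ι → ℕ} {S S' : Set (ℤ × (σ → ℤ))}
    (h : SurS w S') (s : ℤ) (hs : s = 1 ∨ s = -1) (p : σ → ℤ) (u : ℤ)
    (hS : ∀ m ∈ S', (s * (m.1 - ∑ i, p i * m.2 i - u), m.2) ∈ S) : SurS w S := by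
  classical
  obtain ⟨T', h1, h2, h3⟩ := h
  obtain ⟨ψ, hψ⟩ : ∃ ψ : ℤ × (σ → ℤ) → ℤ × (σ → ℤ), ψ = fun m =>
    (s * (m.1 - ∑ i, p i * m.2 i - u), m.2) := ⟨_, rfl⟩
  have hss : s * s = 1 := by rcases hs with rfl | rfl <;> norm_num
  have hback : ∀ m : ℤ × (σ → ℤ), (s * (ψ m).1 + ∑ i, p i * (ψ m).2 i + u, (ψ m).2) = m := by
    intro m
    rw [hψ]
    refine Prod.ext ?_ rfl
    show s * (s * (m.1 - ∑ i, p i * m.2 i - u)) + ∑ i, p i * m.2 i + u = m.1
    rw [← mul_assoc, hss]
    ring
  have hinj : Function.Injective ψ := by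
    intro a b hab
    rw [← hback a, ← hback b, hab]
  refine ⟨T'.image ψ, ?_, ?_, ?_⟩
  · intro m hm
    rw [Finset.coe_image] at hm
    obtain ⟨m', hm', rfl⟩ := hm
    rw [hψ]
    exact hS m' (h1 hm')
  · rw [Finset.card_image_of_injective _ hinj, h2]
  · refine EmpS.comap h3 s hs p u ?_
    intro m hm
    rw [Finset.coe_image] at hm
    obtain ⟨m', hm', rfl⟩ := hm
    rw [hback]
    exact hm'

namespace SComap

/-- orders of derivatives less than `w`, as functions on two more points -/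
def ordEquiv (σ : Type) [Fintype σ] (W : ℕ) :
    {q : ℕ × (σ → ℕ) // q.1 + ∑ i, q.2 i < W + 1} ≃
      {P : Option (Option σ) → ℕ // ∑ a, P a = W} where
  toFun q := ⟨fun a => Option.elim a (W - (q.1.1 + ∑ i, q.1.2 i)) fun b =>
    Option.elim b q.1.1 q.1.2, by
      have := q.2
      simp only [Fintype.sum_option, Option.elim_none, Option.elim_some]
      omega⟩
  invFun P := ⟨(P.1 (some none), fun i => P.1 (some (some i))), by
      have h := P.2
      simp only [Fintype.sum_option] at h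
      show P.1 (some none) + ∑ i, P.1 (some (some i)) < W + 1
      omega⟩
  left_inv q := by
    apply Subtype.ext
    rfl
  right_inv P := by
    apply Subtype.ext
    funext a
    have h := P.2
    simp only [Fintype.sum_option] at h
    rcases a with _ | _ | i
    · show W - (P.1 (some none) + ∑ i, P.1 (some (some i))) = P.1 none
      omega
    · rfl
    · rfl

theorem finite_ord (σ : Type) [Fintype σ] (w : ℕ) :
    Finite {q : ℕ × (σ → ℕ) // q.1 + ∑ i, q.2 i < w} := by
  classical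
  cases w with
  | zero =>
    have : IsEmpty {q : ℕ × (σ → ℕ) // q.1 + ∑ i, q.2 i < 0} :=
      ⟨fun q => absurd q.2 (Nat.not_lt_zero _)⟩
    infer_instance
  | succ W =>
    have e := (ordEquiv σ W).trans (Sym.equivNatSumOfFintype (Option (Option σ)) W).symm
    exact Finite.of_equiv _ e.symm

theorem card_ord (σ : Type) [Fintype σ] (w : ℕ) :
    Nat.card {q : ℕ × (σ → ℕ) // q.1 + ∑ i, q.2 i < w} =
      (w + Fintype.card σ).choose (Fintype.card σ + 1) := by
  classical
  cases w with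
  | zero =>
    have : IsEmpty {q : ℕ × (σ → ℕ) // q.1 + ∑ i, q.2 i < 0} :=
      ⟨fun q => absurd q.2 (Nat.not_lt_zero _)⟩
    rw [Nat.card_of_isEmpty, Nat.choose_eq_zero_of_lt (by omega)]
  | succ W =>
    have e := (ordEquiv σ W).trans (Sym.equivNatSumOfFintype (Option (Option σ)) W).symm
    rw [Nat.card_congr e, Nat.card_eq_fintype_card, Sym.card_sym_eq_choose]
    simp only [Fintype.card_option]
    have h1 : Fintype.card σ + 1 + 1 + W - 1 = W + 1 + Fintype.card σ := by omega
    rw [h1]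
    rw [← Nat.choose_symm_of_eq_add]
    omega

section jet
variable {ι σ K : Type} [Fintype ι] [Fintype σ] [Field K]

/-- the conditions -/
abbrev Jet (σ : Type) {ι : Type} [Fintype σ] (w : ι → ℕ) : Type :=
  Σ i : ι, {q : ℕ × (σ → ℕ) // q.1 + ∑ j, q.2 j < w i}

/-- the jets of a character at the points -/
noncomputable def jet (x : ι → K) (y : ι → σ → K) (w : ι → ℕ) (m : ℤ × (σ → ℤ)) :
    Jet σ w → K :=
  fun q => ((m.1 : K) ^ q.2.1.1 * ∏ i, (m.2 i : K) ^ q.2.1.2 i) * ch (x q.1) (y q.1) m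

theorem mo_eq (f : (ℤ × (σ → ℤ)) →₀ K) (x : ι → K) (y : ι → σ → K) (w : ι → ℕ) (q : Jet σ w) :
    mo f (x q.1) (y q.1) q.2.1.1 q.2.1.2 = Finsupp.linearCombination K (jet x y w) f q := by
  rw [Finsupp.linearCombination_apply]
  unfold mo Finsupp.sum
  rw [Finset.sum_apply]
  refine Finset.sum_congr rfl fun m _ => ?_
  show f m * ((m.1 : K) ^ q.2.1.1 * ∏ i, (m.2 i : K) ^ q.2.1.2 i) * ch (x q.1) (y q.1) m =
    f m * (((m.1 : K) ^ q.2.1.1 * ∏ i, (m.2 i : K) ^ q.2.1.2 i) * ch (x q.1) (y q.1) m)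
  ring

theorem LMS_iff (f : (ℤ × (σ → ℤ)) →₀ K) (x : ι → K) (y : ι → σ → K) (w : ι → ℕ) :
    (∀ i, LMS f (x i) (y i) (w i)) ↔ Finsupp.linearCombination K (jet x y w) f = 0 := by
  constructor
  · intro h
    funext q
    rw [← mo_eq, Pi.zero_apply]
    exact h q.1 _ _ q.2.2
  · intro h i α γ hw
    have h1 := mo_eq f x y w ⟨i, ⟨(α, γ), hw⟩⟩
    rw [h, Pi.zero_apply] at h1
    exact h1

end jet

end SComap

open SComap

/-- linear algebra: if the conditions are injective on a space of dimension `nc σ w` of Laurent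
polynomials with exponents in `S`, they are injective on some `nc σ w` exponents of `S` -/
theorem exists_T {ι σ K : Type} [Fintype ι] [Fintype σ] [Field K] {w : ι → ℕ}
    {S : Set (ℤ × (σ → ℤ))} {x : ι → K} {y : ι → σ → K} {κ : Type} [Fintype κ]
    (hκ : Fintype.card κ = nc σ w) (g : κ → ((ℤ × (σ → ℤ)) →₀ K))
    (hg : ∀ k, (↑(g k).support : Set (ℤ × (σ → ℤ))) ⊆ S)
    (hinj : ∀ a : κ → K, (∀ i, LMS (∑ k, a k • g k) (x i) (y i) (w i)) → a = 0) :
    ∃ T : Finset (ℤ × (σ → ℤ)), (↑T : Set (ℤ × (σ → ℤ))) ⊆ S ∧ T.card = nc σ w ∧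
      EmpAt x y w (↑T : Set (ℤ × (σ → ℤ))) := by
  classical
  have hfin : ∀ i : ι, Finite {q : ℕ × (σ → ℕ) // q.1 + ∑ j, q.2 j < w i} :=
    fun i => finite_ord σ (w i)
  have : Fintype (Jet σ w) := Fintype.ofFinite _
  have hcard : Fintype.card (Jet σ w) = nc σ w := by
    rw [← Nat.card_eq_fintype_card, Nat.card_sigma]
    unfold nc
    exact Finset.sum_congr rfl fun i _ => card_ord σ (w i)
  have hdim : Module.finrank K (Jet σ w → K) = nc σ w := by
    rw [Module.finrank_fintype_fun_eq_card, hcard]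
  -- the images of the `g k`
  have hli : LinearIndependent K fun k => Finsupp.linearCombination K (jet x y w) (g k) := by
    rw [Fintype.linearIndependent_iff]
    intro a ha
    have h1 : a = 0 := by
      apply hinj
      rw [LMS_iff, map_sum]
      rw [← ha]
      refine Finset.sum_congr rfl fun k _ => ?_
      rw [map_smul]
    intro k
    rw [h1, Pi.zero_apply]
  have htop : Submodule.span K (Set.range fun k =>
      Finsupp.linearCombination K (jet x y w) (g k)) = ⊤ := by
    apply LinearIndependent.span_eq_top_of_card_eq_finrank' hli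
    rw [hκ, hdim]
  have hsub : ∀ k, Finsupp.linearCombination K (jet x y w) (g k) ∈
      Submodule.span K (jet x y w '' (⋃ k, (↑(g k).support : Set (ℤ × (σ → ℤ))))) := by
    intro k
    rw [Finsupp.mem_span_image_iff_linearCombination]
    refine ⟨g k, ?_, rfl⟩
    rw [Finsupp.mem_supported]
    exact Set.subset_iUnion (fun k => (↑(g k).support : Set (ℤ × (σ → ℤ)))) k
  have htop2 : Submodule.span K (jet x y w '' (⋃ k, (↑(g k).support : Set (ℤ × (σ → ℤ))))) = ⊤ := by
    rw [eq_top_iff, ← htop, Submodule.span_le]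
    rintro _ ⟨k, rfl⟩
    exact hsub k
  obtain ⟨b, hb1, -, hb2, hb3⟩ := exists_linearIndepOn_extension (K := K) (v := jet x y w)
    (linearIndepOn_empty K (jet x y w))
    (Set.empty_subset (⋃ k, (↑(g k).support : Set (ℤ × (σ → ℤ)))))
  have hbfin : b.Finite := (Set.finite_iUnion fun k => (g k).support.finite_toSet).subset hb1
  have htop3 : Submodule.span K (jet x y w '' b) = ⊤ := by
    rw [eq_top_iff, ← htop2, Submodule.span_le]
    exact hb2
  have hbas := Module.Basis.mk (v := fun z : b => jet x y w z) hb3 (by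
    rw [← htop3]
    apply le_of_eq
    congr 1
    ext z
    constructor
    · rintro ⟨t, ht, rfl⟩
      exact ⟨⟨t, ht⟩, rfl⟩
    · rintro ⟨t, rfl⟩
      exact ⟨t.1, t.2, rfl⟩)
  have hbc : Nat.card b = nc σ w := by
    rw [← hdim, Module.finrank_eq_nat_card_basis hbas]
  refine ⟨hbfin.toFinset, ?_, ?_, ?_⟩
  · rw [Set.Finite.coe_toFinset]
    exact hb1.trans (Set.iUnion_subset hg)
  · rw [← hbc, ← Set.ncard_eq_toFinset_card b hbfin]
    rfl
  · intro f hf hL
    rw [Set.Finite.coe_toFinset] at hf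
    rw [LMS_iff] at hL
    rw [linearIndepOn_iff] at hb3
    exact hb3 f ((Finsupp.mem_supported _ _).2 hf) hL

end Pool.Agent.TH3.IR
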