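import Pool.Agent.TH3.IR.Asm0
import Pool.Agent.TH3.IR.SFlat
import Pool.Agent.TH3.IR.SNodal
import Pool.Agent.TH3.IR.SCubic
import Pool.Agent.TH3.IR.SFinal

/-!
# SR11 : independence on the simplex (second prover helper480, job 4684)

With `W = R - L` and `σ_i = μ_i + ν_i`: a flattening with `μ_j + v = λ σ_j` changes `W` to
`λ W - λ ^ 2 σ_j`, `σ_i` to `λ σ_i` and `σ_j` to `λ ^ 2 σ_j`; the nodal step changes `W` to
`2 W - 2 σ_j - 1`.
-/

set_option autoImplicit false

namespace Pool.Agent.TH3.IR

open Finset Pool.Agent.TH603.EL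

namespace SAsm

/-- regions up to the data which matter: width at least `W` and sums `s i` of the slopes -/
def Good {ι σ : Type} [Fintype ι] [Fintype σ] (w : ι → ℕ) (W : ℝ) (s : σ → ℝ) : Prop :=
  ∀ (L R : ℝ) (μ ν : σ → ℝ), (∀ i, 0 ≤ μ i) → (∀ i, 0 ≤ ν i) → W ≤ R - L →
    (∀ i, μ i + ν i = s i) → SurS w (RegS L R μ ν)

/-- flattening: the width and the sums of the slopes -/
theorem flat {ι σ : Type} [Fintype ι] [Fintype σ] [DecidableEq σ] {w : ι → ℕ} {L R : ℝ}
    {μ ν : σ → ℝ} (hμ : ∀ i, 0 ≤ μ i) (hν : ∀ i, 0 ≤ ν i) (hpos : ∀ i, 0 < μ i + ν i) (j : σ)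
    (v : ℤ) (hv : ν j ≤ v) {lam : ℝ} (hlam : 0 < lam) (hl : μ j + v = lam * (μ j + ν j))
    (H : Good w (lam * (R - L) - lam ^ 2 * (μ j + ν j))
      (Function.update (fun i => lam * (μ i + ν i)) j (lam ^ 2 * (μ j + ν j)))) :
    SurS w (RegS L R μ ν) := by
  have hs := hpos j
  have hs' : μ j + ν j ≠ 0 := hs.ne'
  have hv' : (0 : ℝ) ≤ (v : ℝ) - ν j := by linarith
  have hmv : 0 < μ j + v := by rw [hl]; positivity
  have hvn : (v : ℝ) - ν j = (lam - 1) * (μ j + ν j) := by linear_combination hl
  apply SurS_flat hμ hν hpos j v hv hmv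
  apply H
  · intro i
    by_cases hi : i = j
    · subst hi
      rw [Function.update_self]
      exact hmv.le
    · rw [Function.update_of_ne hi]
      exact hμ i
  · intro i
    by_cases hi : i = j
    · subst hi
      rw [Function.update_self]
      exact div_nonneg (mul_nonneg hmv.le hv') hs.le
    · rw [Function.update_of_ne hi]
      exact div_nonneg (add_nonneg (mul_nonneg (hν i) hmv.le) (mul_nonneg (hμ i) hv')) hs.le
  · apply le_of_eq
    rw [hl, hvn]
    field_simp
    ring
  · intro i
    by_cases hi : i = j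
    · subst hi
      rw [Function.update_self, Function.update_self, Function.update_self, hl, hvn]
      field_simp
      ring
    · rw [Function.update_of_ne hi, Function.update_of_ne hi, Function.update_of_ne hi, hl, hvn]
      field_simp
      ring

/-- nodal step and flattening -/
theorem nodal {ι σ : Type} [Fintype ι] [Fintype σ] [DecidableEq σ]
    {w : ι → ℕ} {W : ℝ} {s : σ → ℝ} (hs : ∀ i, 0 < s i) (j : σ) (hj : 5 / 2 ≤ s j) {ρ : ℝ}
    (hρ : 2 ≤ ρ)
    (H : Good w (ρ * W - ρ * s j - ρ / 2 - ρ ^ 2 * s j)
      (Function.update (fun i => ρ * s i) j (ρ ^ 2 * s j))) :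
    Good w W s := by
  intro L R μ ν hμ hν hW hsum
  obtain ⟨v, hv0, hv1⟩ := Asm.exists_int (2 * s j * ρ)
  have hsj : 0 < s j := hs j
  obtain ⟨τ, hτ⟩ : ∃ τ : ℝ, τ = (2 * s j * ρ - v) / (4 * s j) := ⟨_, rfl⟩
  have hτv : 4 * τ * s j = 2 * s j * ρ - v := by
    rw [hτ]
    field_simp
  have h0 : 0 < τ := by
    rw [hτ]
    positivity
  have h1 : τ < 1 := by
    by_contra hcon
    push Not at hcon
    have : 4 * s j ≤ 4 * τ * s j := by nlinarith
    linarith
  apply SurS_nodal hμ hν (fun i => by rw [hsum]; exact hs i) j (by rw [hsum]; exact hj) h0 h1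
  have e1 : ∀ i, Function.update (fun i => 2 * τ * (μ i + ν i)) j (4 * τ * (μ j + ν j)) i +
      Function.update (fun i => 2 * (1 - τ) * (μ i + ν i)) j (4 * (1 - τ) * (μ j + ν j)) i =
      Function.update (fun i => 2 * s i) j (4 * s j) i := by
    intro i
    by_cases hi : i = j
    · subst hi
      simp only [Function.update_self]
      rw [hsum]
      ring
    · simp only [Function.update_of_ne hi]
      rw [hsum]
      ring
  have e2 : Function.update (fun i => 2 * τ * (μ i + ν i)) j (4 * τ * (μ j + ν j)) j =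
      4 * τ * s j := by rw [Function.update_self, hsum]
  have e3 : Function.update (fun i => 2 * (1 - τ) * (μ i + ν i)) j (4 * (1 - τ) * (μ j + ν j)) j =
      4 * (1 - τ) * s j := by rw [Function.update_self, hsum]
  refine flat (lam := ρ / 2) ?_ ?_ ?_ j v ?_ ?_ ?_ ?_
  · intro i
    by_cases hi : i = j
    · subst hi
      rw [e2]
      positivity
    · rw [Function.update_of_ne hi, hsum]
      have := hs i
      positivity
  · intro i
    by_cases hi : i = j
    · subst hi
      rw [e3]
      have : 0 ≤ 1 - τ := by linarith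
      positivity
    · rw [Function.update_of_ne hi, hsum]
      have := hs i
      have : 0 ≤ 1 - τ := by linarith
      positivity
  · intro i
    rw [e1]
    by_cases hi : i = j
    · subst hi
      rw [Function.update_self]
      positivity
    · rw [Function.update_of_ne hi]
      have := hs i
      positivity
  · rw [e3]
    nlinarith
  · positivity
  · rw [e1, e2, Function.update_self]
    linarith
  · intro L' R' μ' ν' hμ' hν' hW' hsum'
    apply H L' R' μ' ν' hμ' hν'
    · refine le_trans ?_ hW'
      rw [e1, Function.update_self, hsum]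
      nlinarith
    · intro i
      rw [hsum']
      by_cases hi : i = j
      · subst hi
        simp only [Function.update_self]
        rw [hsum]
        ring
      · simp only [Function.update_of_ne hi]
        rw [hsum]
        ring

/-- cubic step and flattening -/
theorem cubic {ι σ : Type} [Fintype ι] [Fintype σ] [DecidableEq σ]
    {w : ι → ℕ} (d : ℕ) (j : σ) {ρ : ℝ} (hρ : 3 ≤ ρ)
    (H : Good w (ρ * d - ρ / 3 - ρ ^ 2) (Function.update (fun _ : σ => ρ) j (ρ ^ 2))) :
    SurS w (RegS (0 : ℝ) d (fun _ : σ => 0) (fun _ => 1)) := by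
  obtain ⟨v, hv0, hv1⟩ := Asm.exists_int (3 * ρ)
  obtain ⟨τ, hτ⟩ : ∃ τ : ℝ, τ = (3 * ρ - v) / 9 := ⟨_, rfl⟩
  have h0 : 0 < τ := by
    rw [hτ]
    positivity
  have h1 : τ < 1 := by
    rw [hτ]
    linarith
  have h1' : 0 < 1 - τ := by linarith
  apply SurS_cubic d j h0 h1
  have e1 : ∀ i, Function.update (fun _ : σ => 3 * τ) j (9 * τ) i +
      Function.update (fun _ : σ => 3 * (1 - τ)) j (9 * (1 - τ)) i =
      Function.update (fun _ : σ => (3 : ℝ)) j 9 i := by
    intro i
    by_cases hi : i = j
    · subst hi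
      simp only [Function.update_self]
      ring
    · simp only [Function.update_of_ne hi]
      ring
  have e2 : Function.update (fun _ : σ => 3 * τ) j (9 * τ) j = 9 * τ := by
    rw [Function.update_self]
  have e3 : Function.update (fun _ : σ => 3 * (1 - τ)) j (9 * (1 - τ)) j = 9 * (1 - τ) := by
    rw [Function.update_self]
  refine flat (lam := ρ / 3) ?_ ?_ ?_ j v ?_ ?_ ?_ ?_
  · intro i
    by_cases hi : i = j
    · subst hi
      rw [e2]
      positivity
    · rw [Function.update_of_ne hi]
      positivity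
  · intro i
    by_cases hi : i = j
    · subst hi
      rw [e3]
      positivity
    · rw [Function.update_of_ne hi]
      positivity
  · intro i
    rw [e1]
    by_cases hi : i = j
    · subst hi
      rw [Function.update_self]
      norm_num
    · rw [Function.update_of_ne hi]
      norm_num
  · rw [e3, hτ]
    linarith
  · positivity
  · rw [e1, e2, Function.update_self, hτ]
    ring
  · intro L' R' μ' ν' hμ' hν' hW' hsum'
    apply H L' R' μ' ν' hμ' hν'
    · refine le_trans (le_of_eq ?_) hW'
      rw [e1, Function.update_self]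
      ring
    · intro i
      rw [hsum']
      by_cases hi : i = j
      · subst hi
        simp only [Function.update_self]
        ring
      · simp only [Function.update_of_ne hi]
        ring

/-- the induction over the coordinates which are not treated -/
theorem ind {ι σ : Type} [Fintype ι]
    [Fintype σ] [DecidableEq σ] (m : ℕ) {ρ : ℝ} (hρ : 3 ≤ ρ)
    (hρN : ρ ^ (Fintype.card σ + 1) = Fintype.card ι) (c : ℕ) :
    ∀ T : Finset σ, T.Nonempty → T.card + c = Fintype.card σ →
      Good (fun _ : ι => m) (ρ ^ T.card * (ρ * m + c * (ρ + 1)) + 3 / 4)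
        (fun i : σ => if i ∈ T then ρ ^ (T.card + 1) else ρ ^ T.card) := by
  have hρ1 : 1 ≤ ρ := by linarith
  have hρ0 : 0 < ρ := by linarith
  induction c with
  | zero =>
    intro T _ hT
    have hTu : T = univ := (Finset.card_eq_iff_eq_univ T).1 (by omega)
    intro L R μ ν hμ hν hW hs
    have hTc : T.card = Fintype.card σ := by omega
    apply SurS_final hμ hν
    · intro i
      have hiT : i ∈ T := by rw [hTu]; exact mem_univ i
      rw [hs]
      simp only [if_pos hiT]
      rw [hTc, hρN]
    · refine le_trans ?_ hW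
      rw [hTc, ← hρN]
      push_cast
      have : ρ ^ Fintype.card σ * (ρ * m + 0 * (ρ + 1)) = ρ ^ (Fintype.card σ + 1) * m := by ring
      rw [this]
      linarith
  | succ c ih =>
    intro T hTne hT
    obtain ⟨j, hj⟩ : ∃ j, j ∉ T := by
      by_contra hcon
      push Not at hcon
      have : T = univ := Finset.eq_univ_iff_forall.2 hcon
      rw [this, Finset.card_univ] at hT
      omega
    have hc : (insert j T).card = T.card + 1 := Finset.card_insert_of_notMem hj
    have hk : 1 ≤ T.card := hTne.card_pos
    have ih' := ih (insert j T) (Finset.insert_nonempty j T) (by omega)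
    apply nodal (ρ := ρ) _ j _ (by linarith)
    · intro L R μ ν hμ hν hW hs
      apply ih' L R μ ν hμ hν
      · refine le_trans ?_ hW
        rw [hc, if_neg hj]
        push_cast
        have : ρ * (ρ ^ T.card * (ρ * m + (c + 1) * (ρ + 1)) + 3 / 4) - ρ * ρ ^ T.card - ρ / 2 -
            ρ ^ 2 * ρ ^ T.card - (ρ ^ (T.card + 1) * (ρ * m + c * (ρ + 1)) + 3 / 4) =
            ρ / 4 - 3 / 4 := by ring
        linarith
      · intro i
        rw [hs, hc]
        by_cases hi : i = j
        · subst hi
          simp only [Function.update_self, if_neg hj, if_pos (Finset.mem_insert_self i T)]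
          ring
        · simp only [Function.update_of_ne hi]
          by_cases hiT : i ∈ T
          · simp only [if_pos hiT, if_pos (Finset.mem_insert_of_mem hiT)]
            ring
          · have hiT' : i ∉ insert j T := by rw [Finset.mem_insert]; tauto
            simp only [if_neg hiT, if_neg hiT']
            ring
    · intro i
      split_ifs <;> positivity
    · rw [if_neg hj]
      calc (5 / 2 : ℝ) ≤ ρ ^ 1 := by rw [pow_one]; linarith
        _ ≤ ρ ^ T.card := pow_le_pow_right₀ hρ1 hk

end SAsm

/-- independence on the simplex of size `d` in dimension `N = card σ + 1` for `n ≥ 3 ^ N` points -/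
theorem SurS_simplex {ι σ : Type} [Fintype ι] [Fintype σ] [Nonempty σ]
    (hn : 3 ^ (Fintype.card σ + 1) ≤ Fintype.card ι) (d m : ℕ) {ρ : ℝ} (hρ : 0 < ρ)
    (hρN : ρ ^ (Fintype.card σ + 1) = Fintype.card ι)
    (hw : ρ * (m + Fintype.card σ) + Fintype.card σ ≤ d) :
    SurS (fun _ : ι => m) (RegS (0 : ℝ) d (fun _ : σ => 0) (fun _ => 1)) := by
  classical
  have hρ3 : 3 ≤ ρ := by
    by_contra hcon
    push Not at hcon
    have h1 : ρ ^ (Fintype.card σ + 1) < 3 ^ (Fintype.card σ + 1) :=
      pow_lt_pow_left₀ hcon hρ.le (by omega)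
    rw [hρN] at h1
    have h2 : ((3 ^ (Fintype.card σ + 1) : ℕ) : ℝ) ≤ Fintype.card ι := by exact_mod_cast hn
    push_cast at h2
    linarith
  obtain ⟨j⟩ := (inferInstance : Nonempty σ)
  obtain ⟨c, hcard⟩ : ∃ c, Fintype.card σ = c + 1 :=
    ⟨Fintype.card σ - 1, by have : 1 ≤ Fintype.card σ := Fintype.card_pos; omega⟩
  have h := SAsm.ind (ι := ι) m hρ3 hρN c {j}
    (Finset.singleton_nonempty j) (by rw [Finset.card_singleton]; omega)
  apply SAsm.cubic d j hρ3
  intro L R μ ν hμ hν hW hs
  apply h L R μ ν hμ hν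
  · refine le_trans ?_ hW
    rw [Finset.card_singleton, pow_one]
    rw [hcard] at hw
    push_cast at hw
    have h3 : ρ * (ρ * (m + (c + 1)) + (c + 1)) ≤ ρ * d := mul_le_mul_of_nonneg_left hw hρ.le
    nlinarith
  · intro i
    rw [hs, Finset.card_singleton]
    by_cases hi : i = j
    · subst hi
      simp only [Function.update_self, if_pos (Finset.mem_singleton_self i)]
    · have hi' : i ∉ ({j} : Finset σ) := by rw [Finset.mem_singleton]; exact hi
      simp only [Function.update_of_ne hi, if_neg hi', pow_one]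

end Pool.Agent.TH3.IR
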