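import Pool.Agent.TH3.IR.DefsS
import Pool.Agent.TH3.IR.Minor

/-! # One integer polynomial detecting the points where the conditions are independent (SR12) -/

set_option autoImplicit false

namespace Pool.Agent.TH3.IR

open Finset MvPolynomial

/-- one polynomial with integer coefficients which detects all points where the system with
exponents in a given finite set is empty -/
theorem minor_fin {ι σ : Type} [Fintype ι] [Fintype σ] [DecidableEq ι] [DecidableEq σ]
    {w : ι → ℕ} (T : Finset (ℤ × (σ → ℤ))) (hT0 : ∀ m ∈ T, 0 ≤ m.1 ∧ ∀ j, 0 ≤ m.2 j)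
    (h : EmpS w (↑T : Set (ℤ × (σ → ℤ)))) :
    ∃ G : MvPolynomial (ι × Option σ) ℤ, G ≠ 0 ∧ ∀ (K : Type) [Field K] [CharZero K] (x : ι → K)
      (y : ι → σ → K),
      MvPolynomial.eval₂ (Int.castRingHom K) (fun q => Option.elim q.2 (x q.1) (y q.1)) G ≠ 0 →
      EmpAt x y w (↑T : Set (ℤ × (σ → ℤ))) := by
  classical
  obtain ⟨K0, _, _, x0, y0, -, -, h0⟩ := h
  have hmem : ∀ t : T, 0 ≤ t.1.1 ∧ ∀ j, 0 ≤ t.1.2 j := fun t => hT0 t.1 t.2
  -- moments of functions supported in `T`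
  have hmo : ∀ (K : Type) [Field K] (x : K) (y : σ → K) (f : (ℤ × (σ → ℤ)) →₀ K)
      (_ : (↑f.support : Set (ℤ × (σ → ℤ))) ⊆ ↑T) (α : ℕ) (γ : σ → ℕ),
      mo f x y α γ = ∑ t : T, ((((t : ℤ × (σ → ℤ)).1 : K) ^ α *
        ∏ j, ((t : ℤ × (σ → ℤ)).2 j : K) ^ γ j) * ch x y t) * f t := by
    intro K _ x y f hf α γ
    unfold mo
    rw [Finsupp.sum_of_support_subset f (Finset.coe_subset.mp hf) _ (by intros; ring)]
    rw [← Finset.sum_coe_sort T]
    exact Finset.sum_congr rfl fun t _ => by ring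
  -- choose the rows
  obtain ⟨r, hr⟩ := exists_rows (T := T) (K := K0)
    (R := {p : ι × ℕ × (σ → ℕ) // p.2.1 + ∑ j, p.2.2 j < w p.1})
    (fun p t => ((((t : ℤ × (σ → ℤ)).1 : K0) ^ p.1.2.1 *
        ∏ j, ((t : ℤ × (σ → ℤ)).2 j : K0) ^ p.1.2.2 j) * ch (x0 p.1.1) (y0 p.1.1) t)) (by
    intro g hg
    have h1 : (∑ t : T, Finsupp.single (t : ℤ × (σ → ℤ)) (g t)) = 0 := by
      have hval : ∀ s : T, (∑ t : T, Finsupp.single (t : ℤ × (σ → ℤ)) (g t)) s = g s := by
        intro s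
        rw [Finsupp.finsetSum_apply, Finset.sum_eq_single s]
        · rw [Finsupp.single_eq_same]
        · intro t _ hts
          rw [Finsupp.single_apply, if_neg]
          exact fun h => hts (Subtype.ext h)
        · intro h; exact absurd (Finset.mem_univ _) h
      have hsupp : (↑(∑ t : T, Finsupp.single (t : ℤ × (σ → ℤ)) (g t)).support :
          Set (ℤ × (σ → ℤ))) ⊆ ↑T := by
        intro m hm
        by_contra hmT
        rw [Finset.mem_coe, Finsupp.mem_support_iff] at hm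
        apply hm
        rw [Finsupp.finsetSum_apply]
        refine Finset.sum_eq_zero fun t _ => ?_
        rw [Finsupp.single_apply, if_neg]
        rintro rfl
        exact hmT t.2
      refine h0 _ hsupp fun i α γ hw => ?_
      rw [hmo K0 (x0 i) (y0 i) _ hsupp α γ]
      have h2 := hg ⟨(i, α, γ), hw⟩
      simp only [hval]
      exact h2
    funext s
    have h2 := DFunLike.congr_fun h1 (s : ℤ × (σ → ℤ))
    rw [Finsupp.finsetSum_apply, Finset.sum_eq_single s] at h2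
    · rw [Finsupp.single_eq_same] at h2
      exact h2
    · intro t _ hts
      rw [Finsupp.single_apply, if_neg]
      exact fun h => hts (Subtype.ext h)
    · intro h; exact absurd (Finset.mem_univ _) h)
  -- the minor
  have heval : ∀ (K : Type) [Field K] (x : ι → K) (y : ι → σ → K),
      eval₂ (Int.castRingHom K) (fun q : ι × Option σ => Option.elim q.2 (x q.1) (y q.1))
        (Matrix.of fun (s t : T) => ent (r s).1.1 (r s).1.2.1 (r s).1.2.2 (t : ℤ × (σ → ℤ))).det =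
      (Matrix.of fun (s t : T) => ((((t : ℤ × (σ → ℤ)).1 : K) ^ (r s).1.2.1 *
        ∏ j, ((t : ℤ × (σ → ℤ)).2 j : K) ^ (r s).1.2.2 j) *
          ch (x (r s).1.1) (y (r s).1.1) t)).det := by
    intro K _ x y
    rw [← coe_eval₂Hom, RingHom.map_det]
    congr 1
    ext s t
    rw [RingHom.mapMatrix_apply, Matrix.map_apply, Matrix.of_apply, Matrix.of_apply, coe_eval₂Hom,
      ent_eval x y _ _ _ (hmem t).1 (hmem t).2]
  refine ⟨(Matrix.of fun (s t : T) =>
    ent (r s).1.1 (r s).1.2.1 (r s).1.2.2 (t : ℤ × (σ → ℤ))).det, ?_, ?_⟩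
  · intro hG
    apply hr
    rw [← heval K0 x0 y0, hG, eval₂_zero]
  · intro K _ _ x y hG f hf hL
    rw [heval K x y] at hG
    have h1 : (Matrix.of fun (s t : T) => ((((t : ℤ × (σ → ℤ)).1 : K) ^ (r s).1.2.1 *
        ∏ j, ((t : ℤ × (σ → ℤ)).2 j : K) ^ (r s).1.2.2 j) *
          ch (x (r s).1.1) (y (r s).1.1) t)).mulVec (fun t : T => f t) = 0 := by
      funext s
      rw [Pi.zero_apply, ← hL (r s).1.1 (r s).1.2.1 (r s).1.2.2 (r s).2,
        hmo K _ _ f hf]
      rfl
    have h2 := Matrix.eq_zero_of_mulVec_eq_zero hG h1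
    ext m
    rw [Finsupp.zero_apply]
    by_contra hne
    have hm : m ∈ T := hf (Finset.mem_coe.mpr (Finsupp.mem_support_iff.mpr hne))
    exact hne (congrFun h2 ⟨m, hm⟩)

/-- one polynomial with integer coefficients which detects all points where the conditions are
independent -/
theorem exists_minorS {ι σ : Type} [Fintype ι] [Fintype σ] [DecidableEq ι] [DecidableEq σ]
    {w : ι → ℕ} {d : ℕ} (h : SurS w (RegS (0 : ℝ) d (fun _ : σ => 0) (fun _ => 1))) :
    ∃ G : MvPolynomial (ι × Option σ) ℤ, G ≠ 0 ∧ ∀ (K : Type) [Field K] [CharZero K] (x : ι → K)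
      (y : ι → σ → K),
      MvPolynomial.eval₂ (Int.castRingHom K) (fun q => Option.elim q.2 (x q.1) (y q.1)) G ≠ 0 →
      ∃ T : Finset (ℤ × (σ → ℤ)), (↑T : Set (ℤ × (σ → ℤ))) ⊆
        RegS (0 : ℝ) d (fun _ : σ => 0) (fun _ => 1) ∧ T.card = nc σ w ∧
        EmpAt x y w (↑T : Set (ℤ × (σ → ℤ))) := by
  obtain ⟨T, hT1, hT2, hT3⟩ := h
  obtain ⟨G, hG0, hG⟩ := minor_fin T (fun m hm => by
    obtain ⟨h1, h2, -⟩ := regS_std_mem (hT1 (Finset.mem_coe.mpr hm))
    exact ⟨h1, h2⟩) hT3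
  exact ⟨G, hG0, fun K _ _ x y hne => ⟨T, hT1, hT2, hG K x y hne⟩⟩

end Pool.Agent.TH3.IR
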