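import Pool.Agent.TH3.IR.Defs
import Pool.Agent.TH603.EL.Van1
import Pool.Agent.TH603.EL.Van2

/-! The theta lemma with the order, and the slices of a polynomial in the tube (job IR13 of helper3,
written by helper761). -/

set_option autoImplicit false

namespace Pool.Agent.TH3.IR

open Finset MvPolynomial Pool.Agent.TH603.EL Pool.Agent.TH603.EL.Lead

section lead0
variable {F : Type} [Field F]

theorem tube_lead_of'
    (exponent_bound : ∀ {m : ℕ} {g : MvPolynomial (ZMod 3) (HK F)} (_ : g.IsHomogeneous m)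
      (τ : ℝ) {a : ℝ} (_ : Low (ev (theta F τ) g) a) {i j : ℤ}
      (_ : cf (ev (theta F τ) g) a i j ≠ 0),
      -((m : ℝ) * (1 + τ)) ≤ i ∧ (i : ℝ) ≤ m * (2 - τ) ∧ j = 0)
    (noncancel : ∀ {m : ℕ} {g : MvPolynomial (ZMod 3) (HK F)} (_ : g.IsHomogeneous m)
      (_ : Red g) {b : ℝ} {α : ZMod 3 →₀ ℕ} (_ : ∀ β, Low (g.coeff β) b)
      (_ : (g.coeff α).coeff b ≠ 0) {τ : ℝ} (_ : 0 ≤ τ) (_ : τ ≤ 1),
      ∃ (a : ℝ) (i : ℤ), a ≤ b + 3 * m ∧ cf (ev (theta F τ) g) a i 0 ≠ 0)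
    (exists_hesse : ∀ (τ : ℝ), ∃ A : HK F, Low A 1 ∧ ev (theta F τ) (hes A) = 0)
    (decomp : ∀ {A : HK F} (_ : Low A 1) {d : ℕ} {f : MvPolynomial (ZMod 3) (HK F)}
      (_ : f.IsHomogeneous d), ∃ g : ℕ → MvPolynomial (ZMod 3) (HK F),
      (∀ j, 3 * j ≤ d → (g j).IsHomogeneous (d - 3 * j)) ∧ (∀ j, Red (g j)) ∧
      f = ∑ j ∈ Finset.range (d / 3 + 1), g j * hes A ^ j)
    (tube_hes : ∀ {A : HK F} (_ : Low A 1) {τ : ℝ} (_ : 0 < τ) (_ : τ < 1)
      (_ : ev (theta F τ) (hes A) = 0) {s : ℝ} (_ : 1 ≤ s),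
      Low (ev (tube F τ s) (hes A)) (s + τ) ∧
      (ev (tube F τ s) (hes A)).coeff (s + τ) = AddMonoidAlgebra.single (1, 1) 1)
    (tube_diff : ∀ {g : MvPolynomial (ZMod 3) (HK F)} {b : ℝ} (_ : ∀ β, Low (g.coeff β) b)
      {τ : ℝ} (_ : 0 ≤ τ) (_ : τ ≤ 1) {s : ℝ} (_ : 0 ≤ s),
      Low (ev (tube F τ s) g - ev (theta F τ) g) (s + b))
    {τ : ℝ} (h0 : 0 < τ) (h1 : τ < 1) {d : ℕ} {f : MvPolynomial (ZMod 3) (HK F)}
    (hf : f.IsHomogeneous d) (hne : f ≠ 0) {s : ℝ} (hs : 3 * d + 3 < s) :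
    ∃ a : ℝ, Low (ev (tube F τ s) f) a ∧ (ev (tube F τ s) f).coeff a ≠ 0 ∧
      ∀ i j : ℤ, cf (ev (tube F τ s) f) a i j ≠ 0 →
      0 ≤ j ∧ -(((d : ℝ) - 3 * j) * (1 + τ)) ≤ (i : ℝ) - j ∧
        (i : ℝ) - j ≤ ((d : ℝ) - 3 * j) * (2 - τ) := by
  classical
  obtain ⟨A, hA, hrel⟩ := exists_hesse τ
  obtain ⟨g, hg1, hg2, hg3⟩ := decomp hA hf
  have hd0 : (0 : ℝ) ≤ d := Nat.cast_nonneg d
  obtain ⟨hH1, hH2⟩ := tube_hes hA h0 h1 hrel (s := s) (by linarith)
  obtain ⟨J, hJ⟩ : ∃ J : Finset ℕ, J = (Finset.range (d / 3 + 1)).filter (fun j => g j ≠ 0) :=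
    ⟨_, rfl⟩
  have hJm : ∀ j ∈ J, 3 * j ≤ d ∧ g j ≠ 0 := by
    intro j hj
    rw [hJ, Finset.mem_filter, Finset.mem_range] at hj
    exact ⟨by omega, hj.2⟩
  have hlead : ∀ j ∈ J, ∃ c, LeadAt (ev (tube F τ s) (g j * hes A ^ j)) (d - 3 * j) j τ c := by
    intro j hj
    obtain ⟨hj1, hj2⟩ := hJm j hj
    have hs' : 3 * ((d - 3 * j : ℕ) : ℝ) < s := by
      have : ((d - 3 * j : ℕ) : ℝ) ≤ d := by exact_mod_cast Nat.sub_le _ _
      linarith
    obtain ⟨c, hc⟩ := Lead.of_red exponent_bound noncancel tube_diff (hg1 j hj1) (hg2 j) hj2 h0.le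
      h1.le hs'
    rw [map_mul, map_pow]
    exact ⟨_, Lead.mul_pow hc hH1 hH2 j⟩
  choose! c hc using hlead
  have hsumJ : ev (tube F τ s) f = ∑ j ∈ J, ev (tube F τ s) (g j * hes A ^ j) := by
    rw [← map_sum]
    congr 1
    rw [hg3, hJ, Finset.sum_filter]
    refine Finset.sum_congr rfl fun j _ => ?_
    split_ifs with h
    · rfl
    · push Not at h
      rw [h, zero_mul]
  have hJne : J.Nonempty := by
    by_contra hcon
    rw [Finset.not_nonempty_iff_eq_empty] at hcon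
    apply hne
    rw [hg3]
    refine Finset.sum_eq_zero fun j hj => ?_
    by_contra h
    have : j ∈ J := by
      rw [hJ]
      exact Finset.mem_filter.mpr ⟨hj, fun h' => h (by rw [h', zero_mul])⟩
    rw [hcon] at this
    exact absurd this (Finset.notMem_empty _)
  obtain ⟨j0, hj0, hmin⟩ := Finset.exists_min_image J c hJne
  have hcf : ∀ i k, cf (ev (tube F τ s) f) (c j0) i k =
      ∑ j ∈ J, cf (ev (tube F τ s) (g j * hes A ^ j)) (c j0) i k := by
    intro i k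
    rw [hsumJ, cf_sum]
  have hone : ∀ j ∈ J, ∀ i k, cf (ev (tube F τ s) (g j * hes A ^ j)) (c j0) i k ≠ 0 →
      k = j ∧ -(((d - 3 * j : ℕ) : ℝ) * (1 + τ)) ≤ (i : ℝ) - j ∧
        (i : ℝ) - j ≤ ((d - 3 * j : ℕ) : ℝ) * (2 - τ) := by
    intro j hj i k hik
    obtain ⟨e1, _, e3⟩ := hc j hj
    rcases lt_or_eq_of_le (hmin j hj) with h | h
    · exfalso
      apply hik
      unfold cf
      rw [e1 _ h]
      rfl
    · rw [h] at hik
      have h2 := e3 i k hik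
      push_cast at h2 ⊢
      exact h2
  refine ⟨c j0, ?_, ?_, ?_⟩
  · rw [hsumJ]
    exact Low.sum J _ fun j hj => ((hc j hj).1).mono (hmin j hj)
  · intro h
    obtain ⟨e1, e2, e3⟩ := hc j0 hj0
    apply e2
    ext ⟨i, k⟩
    show cf (ev (tube F τ s) (g j0 * hes A ^ j0)) (c j0) i k = 0
    by_contra hik
    have hk := (hone j0 hj0 i k hik).1
    have h3 := hcf i k
    rw [Finset.sum_eq_single j0] at h3
    · apply hik
      rw [← h3]
      unfold cf
      rw [h]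
      rfl
    · intro j hj hjne
      by_contra h4
      have h5 := (hone j hj i k h4).1
      rw [hk] at h5
      exact hjne (by exact_mod_cast h5.symm)
    · intro h4
      exact absurd hj0 h4
  · intro i k hik
    rw [hcf] at hik
    obtain ⟨j, hj, hj2⟩ := Finset.exists_ne_zero_of_sum_ne_zero hik
    obtain ⟨e1, e2, e3⟩ := hone j hj i k hj2
    have hjd := (hJm j hj).1
    have hcast : ((d - 3 * j : ℕ) : ℝ) = (d : ℝ) - 3 * k := by
      rw [Nat.cast_sub hjd, e1]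
      push_cast
      ring
    rw [hcast] at e2 e3
    have hkj : (k : ℝ) = j := by
      rw [e1]
      push_cast
      rfl
    rw [← hkj] at e2 e3
    refine ⟨?_, e2, e3⟩
    rw [e1]
    exact Int.natCast_nonneg j


end lead0

/-- `tube_lead` with the order -/
theorem tube_lead' {F : Type} [Field F] {τ : ℝ} (h0 : 0 < τ) (h1 : τ < 1) {d : ℕ}
    {f : MvPolynomial (ZMod 3) (HK F)} (hf : f.IsHomogeneous d) (hne : f ≠ 0) {s : ℝ}
    (hs : 3 * d + 3 < s) :
    ∃ a : ℝ, Low (ev (tube F τ s) f) a ∧ (ev (tube F τ s) f).coeff a ≠ 0 ∧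
      ∀ i j : ℤ, cf (ev (tube F τ s) f) a i j ≠ 0 →
      0 ≤ j ∧ -(((d : ℝ) - 3 * j) * (1 + τ)) ≤ (i : ℝ) - j ∧
        (i : ℝ) - j ≤ ((d : ℝ) - 3 * j) * (2 - τ) :=
  tube_lead_of' (fun hg τ _ hlow _ _ h => exponent_bound hg τ hlow h)
    (fun hg hr _ _ hlow hα _ h0 h1 => noncancel hg hr hlow hα h0 h1)
    (fun τ => exists_hesse F τ) (fun hA _ _ hf => decomp hA hf)
    (fun hA _ h0 h1 hrel _ hs => tube_hes hA h0 h1 hrel hs)
    (fun hlow _ h0 h1 _ hs => tube_diff hlow h0 h1 hs) h0 h1 hf hne hs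

section slice
variable {F : Type} [Field F]

theorem theta0_lead {τ : ℝ} (h0 : 0 < τ) (h1 : τ < 1) (s : ℝ) :
    Low (tube F τ s 0) 0 ∧ (tube F τ s 0).coeff 0 = 1 := by
  have hee : ∀ i : ℤ, (2 * ee i : ℝ) = i * (i - 1) := fun i => by exact_mod_cast two_ee i
  have e0 : ex τ 0 = 0 := by
    unfold ex
    have h3 := hee 0
    push_cast at h3 ⊢
    linarith
  have hc : (theta F τ 0).coeff (ex τ 0) = AddMonoidAlgebra.single (0, 0) 1 := by
    refine Van1.theta_coeff τ 0 0 (by simp) (fun i _ he => ?_)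
    unfold ex at he
    have h2 := hee i
    have h3 := hee 0
    push_cast at he h2 h3
    have h4 : (i : ℝ) * ((i : ℝ) - 1 + 2 * τ) = 0 := by nlinarith
    rcases mul_eq_zero.1 h4 with h5 | h5
    · exact_mod_cast h5
    · have h6 : (-1 : ℝ) < i := by linarith
      have h7 : (i : ℝ) < 1 := by linarith
      have h6' : -1 < i := by exact_mod_cast h6
      have h7' : i < 1 := by exact_mod_cast h7
      omega
  have ht : tube F τ s 0 = theta F τ 0 := by
    unfold tube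
    rw [if_neg (by decide), add_zero]
  rw [ht]
  refine ⟨low_theta h0.le h1.le 0, ?_⟩
  rw [e0] at hc
  rw [hc]
  rfl

/-- forms of different degrees -/
theorem hom_shift {d e n : ℕ} (hd : d = n + e) {f : (ℤ × ℤ) →₀ HK F}
    (hf : ∀ m ∈ f.support, 0 ≤ m.1 ∧ 0 ≤ m.2 ∧ m.1 + m.2 ≤ e) :
    hom d f = X 0 ^ n * hom e f := by
  unfold hom Finsupp.sum
  rw [Finset.mul_sum]
  refine Finset.sum_congr rfl fun m hm => ?_
  obtain ⟨h1, h2, h3⟩ := hf m hm
  have h4 : ((d : ℤ) - m.1 - m.2).toNat = n + ((e : ℤ) - m.1 - m.2).toNat := by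
    subst hd
    push_cast
    omega
  beta_reduce
  rw [h4, pow_add]
  ring

/-- the leading coefficient of a polynomial of degree at most `e` in the tube -/
theorem theta_slice {τ : ℝ} (h0 : 0 < τ) (h1 : τ < 1) {d e : ℕ} (hed : e ≤ d) {s : ℝ}
    (hs : 3 * d + 3 < s) {f : (ℤ × ℤ) →₀ HK F} (hne : f ≠ 0)
    (hf : ∀ m ∈ f.support, 0 ≤ m.1 ∧ 0 ≤ m.2 ∧ m.1 + m.2 ≤ e) :
    SliceLead (tube F τ s) d {m | 0 ≤ m.2 ∧ -(((e : ℝ) - 3 * m.2) * (1 + τ)) ≤ (m.1 : ℝ) - m.2 ∧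
      (m.1 : ℝ) - m.2 ≤ ((e : ℝ) - 3 * m.2) * (2 - τ)} f := by
  have hed' : (e : ℝ) ≤ d := by exact_mod_cast hed
  obtain ⟨a, ha1, ha2, ha3⟩ := tube_lead' h0 h1 (hom_isHomogeneous hf) (hom_ne_zero hf hne)
    (s := s) (by linarith)
  obtain ⟨n, hn⟩ : ∃ n, d = n + e := ⟨d - e, by omega⟩
  obtain ⟨t1, t2⟩ := theta0_lead (F := F) h0 h1 s
  have hU1 : Low (tube F τ s 0 ^ n) 0 := by simpa using t1.pow n
  have hU2 : (tube F τ s 0 ^ n).coeff 0 = 1 := by
    have := t1.coeff_pow n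
    rw [mul_zero, t2, one_pow] at this
    exact this
  have heq : ev (tube F τ s) (hom d f) = tube F τ s 0 ^ n * ev (tube F τ s) (hom e f) := by
    rw [hom_shift hn hf, map_mul, map_pow, ev_X]
  have hlow : Low (ev (tube F τ s) (hom d f)) a := by
    rw [heq]
    simpa using hU1.mul ha1
  have hco : (ev (tube F τ s) (hom d f)).coeff a = (ev (tube F τ s) (hom e f)).coeff a := by
    rw [heq]
    have := hU1.coeff_mul ha1
    rw [zero_add, hU2, one_mul] at this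
    exact this
  refine ⟨a, hlow, by rw [hco]; exact ha2, fun i k hik => ?_⟩
  have hik' : cf (ev (tube F τ s) (hom e f)) a i k ≠ 0 := by
    unfold cf at hik ⊢
    rwa [hco] at hik
  exact ha3 i k hik'

end slice

/-- the slices of a polynomial with exponents in the simplex -/
theorem theta_slices {σ : Type} [Fintype σ] [DecidableEq σ] (d : ℕ) (j : σ)
    {τ : ℝ} (h0 : 0 < τ) (h1 : τ < 1) {F : Type} [Field F] {s : ℝ} (hs : 3 * d + 3 < s)
    (c : σ → ℤ) (f : (ℤ × ℤ) →₀ HK F) (hne : f ≠ 0)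
    (hf : ∀ m ∈ f.support, (m.1, Function.update c j m.2) ∈
      RegS (0 : ℝ) d (fun _ : σ => 0) (fun _ => 1)) :
    SliceLead (tube F τ s) d {m | ((m.1 - m.2, Function.update c j m.2) : ℤ × (σ → ℤ)) ∈
      RegS (-((1 + τ) * d)) ((2 - τ) * d)
      (Function.update (fun _ => 1 + τ) j (3 * (1 + τ)))
      (Function.update (fun _ => 2 - τ) j (3 * (2 - τ)))} f := by
  classical
  -- the sum of the other heights
  obtain ⟨C0, hC0⟩ : ∃ C0 : ℤ, C0 = ∑ i ∈ Finset.univ.erase j, c i := ⟨_, rfl⟩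
  have hsumZ : ∀ k : ℤ, ∑ i, Function.update c j k i = k + C0 := by
    intro k
    rw [← Finset.add_sum_erase _ _ (Finset.mem_univ j), Function.update_self, hC0]
    congr 1
    exact Finset.sum_congr rfl fun i hi => by
      rw [Function.update_of_ne (Finset.ne_of_mem_erase hi)]
  have hmem : ∀ m ∈ f.support, (∀ i, i ≠ j → 0 ≤ c i) ∧ 0 ≤ m.1 ∧ 0 ≤ m.2 ∧
      m.1 + m.2 + C0 ≤ d := by
    intro m hm
    obtain ⟨g1, g2, g3⟩ := hf m hm
    simp only at g1 g2 g3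
    refine ⟨fun i hi => ?_, ?_, ?_, ?_⟩
    · have := g1 i
      rwa [Function.update_of_ne hi] at this
    · have : (0 : ℝ) ≤ m.1 := by simpa using g2
      exact_mod_cast this
    · have := g1 j
      rwa [Function.update_self] at this
    · have h3 : (m.1 : ℝ) ≤ d - ((∑ i, Function.update c j m.2 i : ℤ) : ℝ) := by
        push_cast
        simpa using g3
      rw [hsumZ] at h3
      push_cast at h3
      have : ((m.1 + m.2 + C0 : ℤ) : ℝ) ≤ ((d : ℤ) : ℝ) := by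
        push_cast
        linarith
      exact_mod_cast this
  obtain ⟨m₀, hm₀⟩ := Finsupp.support_nonempty_iff.2 hne
  obtain ⟨hc, g1, g2, g3⟩ := hmem m₀ hm₀
  have hC0n : 0 ≤ C0 := by
    rw [hC0]
    exact Finset.sum_nonneg fun i hi => hc i (Finset.ne_of_mem_erase hi)
  obtain ⟨e, he⟩ : ∃ e : ℕ, (e : ℤ) = d - C0 := ⟨(d - C0).toNat, by omega⟩
  have hed : e ≤ d := by omega
  obtain ⟨a, ha1, ha2, ha3⟩ := theta_slice h0 h1 hed hs hne (fun m hm => by
    obtain ⟨-, g4, g5, g6⟩ := hmem m hm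
    exact ⟨g4, g5, by omega⟩)
  refine ⟨a, ha1, ha2, fun i k hik => ?_⟩
  obtain ⟨k1, k2, k3⟩ := ha3 i k hik
  simp only at k1 k2 k3
  have heR : (e : ℝ) = d - C0 := by exact_mod_cast he
  have hC0R : (C0 : ℝ) = ∑ i ∈ Finset.univ.erase j, (c i : ℝ) := by
    rw [hC0]
    push_cast
    rfl
  have hsl : ∀ (x y : ℝ), ∑ i, Function.update (fun _ => x) j y i *
      ((Function.update c j k i : ℤ) : ℝ) = y * k + x * C0 := by
    intro x y
    rw [← Finset.add_sum_erase _ _ (Finset.mem_univ j), Function.update_self, Function.update_self,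
      hC0R, Finset.mul_sum]
    congr 1
    exact Finset.sum_congr rfl fun i hi => by
      rw [Function.update_of_ne (Finset.ne_of_mem_erase hi),
        Function.update_of_ne (Finset.ne_of_mem_erase hi)]
  refine ⟨fun i' => ?_, ?_, ?_⟩
  · show 0 ≤ Function.update c j k i'
    by_cases hi : i' = j
    · subst hi
      rw [Function.update_self]
      exact k1
    · rw [Function.update_of_ne hi]
      exact hc i' hi
  · show -((1 + τ) * d) + ∑ i', Function.update (fun _ => 1 + τ) j (3 * (1 + τ)) i' *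
      ((Function.update c j k i' : ℤ) : ℝ) ≤ ((i - k : ℤ) : ℝ)
    rw [hsl]
    push_cast
    rw [heR] at k2
    nlinarith
  · show ((i - k : ℤ) : ℝ) ≤ (2 - τ) * d - ∑ i', Function.update (fun _ => 2 - τ) j (3 * (2 - τ)) i' *
      ((Function.update c j k i' : ℤ) : ℝ)
    rw [hsl]
    push_cast
    rw [heR] at k3
    nlinarith

end Pool.Agent.TH3.IR
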