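import Pool.Agent.TH3.IR.EmptyW
import Pool.Agent.H932R5.Points

/-! Emptiness and independence in all degrees outside a window, for one open set of points, from
emptiness and from independence of equal multiplicities in one degree. -/

set_option autoImplicit false

namespace Pool.Agent.TH3.IR

open MvPolynomial

theorem surjAt_of_finrank {K : Type*} [Field K] {E n : ℕ} {w : Fin n → ℕ}
    {P : Fin n → Fin (E + 1) → K} {d : ℕ}
    (h : (d + E + 1).choose (E + 1) = ∑ i, (w i + E).choose (E + 1) +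
      Module.finrank K ↥(H932R5.Vd d w P)) : H932R5.SurjAt w P d := by
  classical
  rw [H932R5.finrank_Vd_eq] at h
  unfold H932R5.SurjAt
  rw [← H932R5.coe_dg] at h ⊢
  have hfin := H932R5.finite_mspan (K := K) (H932R5.dg E (d + 1))
  let L : ↥(H932R5.mspan K (↑(H932R5.dg E (d + 1)) : Set (Fin (E + 1) →₀ ℕ))) →ₗ[K]
      (H932R5.Cnd E w → K) := (H932R5.cnd w P).comp (Submodule.subtype _)
  have hL : ∀ f, L f = H932R5.cnd w P f.1 := fun _ => rfl
  have h1 := LinearMap.finrank_range_add_finrank_ker L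
  rw [H932R5.finrank_mspan, H932R5.card_dg] at h1
  have h3 : Module.finrank K (LinearMap.ker L) = Module.finrank K
      ↥(H932R5.mspan K (↑(H932R5.dg E (d + 1)) : Set (Fin (E + 1) →₀ ℕ)) ⊓
        Submodule.restrictScalars K (H932R5.Z w P)) := by
    refine LinearEquiv.finrank_eq (LinearEquiv.ofBijective
      { toFun := fun f => ⟨f.1.1, Submodule.mem_inf.2 ⟨f.1.2, H932R5.mem_Z_iff.2 f.2⟩⟩
        map_add' := fun f g => rfl
        map_smul' := fun a f => rfl } ⟨?_, ?_⟩)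
    · intro f g hfg
      have h : f.1.1 = g.1.1 :=
        congrArg (fun z : ↥(H932R5.mspan K (↑(H932R5.dg E (d + 1)) : Set (Fin (E + 1) →₀ ℕ)) ⊓
          Submodule.restrictScalars K (H932R5.Z w P)) => (z : MvPolynomial (Fin (E + 1)) K)) hfg
      exact Subtype.ext (Subtype.ext h)
    · rintro ⟨f, hf⟩
      rw [Submodule.mem_inf] at hf
      exact ⟨⟨⟨f, hf.1⟩, H932R5.mem_Z_iff.1 hf.2⟩, rfl⟩
  have e : d + 1 + E = d + E + 1 := by ring
  rw [h3, e, h] at h1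
  have h4 : Module.finrank K (LinearMap.range L) = ∑ i, (w i + E).choose (E + 1) := by omega
  have h5 : LinearMap.range L = ⊤ := by
    apply Submodule.eq_top_of_finrank_eq
    rw [h4, Module.finrank_fintype_fun_eq_card, H932R5.card_Cnd]
  intro y
  have hy : y ∈ LinearMap.range L := by rw [h5]; exact Submodule.mem_top
  obtain ⟨f, hf⟩ := hy
  exact ⟨f.1, f.2, hf⟩

/-- no nonzero form of degree `d` with multiplicities `w` at the points `(1 : P i)` -/
def NoForms {N r : ℕ} (w : Fin r → ℕ) (P : Fin r → Fin N → ℂ) (d : ℕ) : Prop :=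
  ∀ G : MvPolynomial (Fin (N + 1)) ℂ, G.IsHomogeneous d →
    (∀ i, G ∈ (Ideal.span (Set.range fun j : Fin N =>
      (X j.succ - C (P i j) * X 0 : MvPolynomial (Fin (N + 1)) ℂ))) ^ (w i)) → G = 0

theorem vd_eq_bot {E r : ℕ} {w : Fin r → ℕ} {P : Fin r → Fin (E + 1) → ℂ} {d : ℕ}
    (h : NoForms w P d) : H932R5.Vd d w P = ⊥ := by
  rw [eq_bot_iff]
  intro G hG
  unfold H932R5.Vd at hG
  rw [Submodule.mem_inf, mem_homogeneousSubmodule, Submodule.restrictScalars_mem,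
    Ideal.mem_iInf] at hG
  rw [Submodule.mem_bot]
  exact h G hG.1 hG.2

theorem window_of {E r : ℕ} (hE : 1 ≤ E) (hr : 3 ^ (E + 1) ≤ r) (w : Fin r → ℕ)
    (hInd : ∀ m d : ℕ,
      (r : ℝ) ^ ((1 : ℝ) / ((E + 1 : ℕ) : ℝ)) * (m + (E + 1 : ℕ) - 1) + ((E + 1 : ℕ) - 1) ≤ d →
      ∃ F : MvPolynomial (Fin r × Fin (E + 1)) ℂ, F ≠ 0 ∧ ∀ P : Fin r → Fin (E + 1) → ℂ,
        MvPolynomial.eval (fun q : Fin r × Fin (E + 1) => P q.1 q.2) F ≠ 0 →
        Module.finrank ℂ ↥(MvPolynomial.homogeneousSubmodule (Fin (E + 1 + 1)) ℂ d ⊓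
          Submodule.restrictScalars ℂ (⨅ i : Fin r, (Ideal.span (Set.range fun j : Fin (E + 1) =>
            (X j.succ - C (P i j) * X 0 : MvPolynomial (Fin (E + 1 + 1)) ℂ))) ^ m)) +
          r * (m + (E + 1) - 1).choose (E + 1) = (d + (E + 1)).choose (E + 1)) :
    ∃ F : MvPolynomial (Fin r × Fin (E + 1)) ℂ, F ≠ 0 ∧ ∀ P : Fin r → Fin (E + 1) → ℂ,
      MvPolynomial.eval (fun q : Fin r × Fin (E + 1) => P q.1 q.2) F ≠ 0 → ∀ d : ℕ,
        ((r : ℝ) ^ ((((E + 1 : ℕ) : ℝ) - 1) / ((E + 1 : ℕ) : ℝ)) * d < ∑ i, (w i : ℝ) →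
          NoForms w P d) ∧
        ((∀ i, (r : ℝ) ^ ((1 : ℝ) / ((E + 1 : ℕ) : ℝ)) * ((w i : ℝ) + (E + 1 : ℕ) - 1) +
          ((E + 1 : ℕ) - 1) ≤ d) → H932R5.SurjAt w P d) := by
  classical
  have hr0 : 0 < r := lt_of_lt_of_le (by positivity) hr
  have : Nonempty (Fin r) := ⟨⟨0, hr0⟩⟩
  set κ : ℝ := (r : ℝ) ^ ((((E + 1 : ℕ) : ℝ) - 1) / ((E + 1 : ℕ) : ℝ)) with hκ
  set ρ : ℝ := (r : ℝ) ^ ((1 : ℝ) / ((E + 1 : ℕ) : ℝ)) with hρ
  have hρ0 : 0 < ρ := Real.rpow_pos_of_pos (by exact_mod_cast hr0) _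
  have hκ1 : 1 ≤ κ := by
    apply Real.one_le_rpow
    · exact_mod_cast hr0
    · apply div_nonneg
      · push_cast
        have : (0 : ℝ) ≤ (E : ℝ) := Nat.cast_nonneg _
        linarith
      · positivity
  -- emptiness: finitely many degrees
  have hA : ∀ d : ℕ, ∃ F : MvPolynomial (Fin r × Fin (E + 1)) ℂ, F ≠ 0 ∧
      ∀ P : Fin r → Fin (E + 1) → ℂ,
      MvPolynomial.eval (fun q : Fin r × Fin (E + 1) => P q.1 q.2) F ≠ 0 →
      κ * d < ∑ i, (w i : ℝ) → NoForms w P d := by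
    intro d
    by_cases hd : κ * d < ∑ i, (w i : ℝ)
    · obtain ⟨F, hF, h⟩ := main_empty_w (E + 1) r (by omega) hr w d hd
      exact ⟨F, hF, fun P hP _ => h P hP⟩
    · exact ⟨1, one_ne_zero, fun P _ h => absurd h hd⟩
  choose FA hFA hA' using hA
  -- independence: one degree
  obtain ⟨M, hM⟩ : ∃ M : ℕ, (∀ i, w i ≤ M) ∧ ∃ i, w i = M := by
    refine ⟨Finset.univ.sup w, fun i => Finset.le_sup (Finset.mem_univ i), ?_⟩
    obtain ⟨i, _, hi⟩ := Finset.exists_mem_eq_sup (Finset.univ : Finset (Fin r))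
      Finset.univ_nonempty w
    exact ⟨i, hi.symm⟩
  obtain ⟨hM1, i0, hi0⟩ := hM
  obtain ⟨FB, hFB, hB⟩ := hInd M ⌈ρ * (M + (E + 1 : ℕ) - 1) + ((E + 1 : ℕ) - 1)⌉₊ (Nat.le_ceil _)
  set D := ⌈ρ * (M + (E + 1 : ℕ) - 1) + ((E + 1 : ℕ) - 1)⌉₊ with hD
  set S := ∑ i, w i with hS
  refine ⟨(∏ d ∈ Finset.range (S + 1), FA d) * FB,
    mul_ne_zero (Finset.prod_ne_zero_iff.2 fun d _ => hFA d) hFB, fun P hP d => ⟨fun hd => ?_,
      fun hd => ?_⟩⟩
  · rw [map_mul, map_prod] at hP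
    have h1 := Finset.prod_ne_zero_iff.1 (left_ne_zero_of_mul hP)
    refine hA' d P (h1 d ?_) hd
    rw [Finset.mem_range, Nat.lt_succ_iff]
    have h2 : (d : ℝ) ≤ κ * d := by
      have : (0 : ℝ) ≤ (d : ℝ) := Nat.cast_nonneg _
      nlinarith
    have h3 : ((∑ i, w i : ℕ) : ℝ) = ∑ i, (w i : ℝ) := by push_cast; rfl
    have h4 : (d : ℝ) < ((∑ i, w i : ℕ) : ℝ) := by
      rw [h3]; exact lt_of_le_of_lt h2 hd
    have h5 : d < ∑ i, w i := by exact_mod_cast h4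
    exact h5.le
  · rw [map_mul] at hP
    have h1 := hB P (right_ne_zero_of_mul hP)
    have h2 : H932R5.SurjAt (fun _ : Fin r => M) P D := by
      apply surjAt_of_finrank
      rw [Finset.sum_const, Finset.card_univ, Fintype.card_fin, smul_eq_mul]
      have e1 : M + (E + 1) - 1 = M + E := by omega
      have e2 : D + (E + 1) = D + E + 1 := by omega
      rw [e1, e2] at h1
      exact h1.symm.trans (Nat.add_comm _ _)
    have h3 := hd i0
    rw [hi0] at h3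
    have h4 : D ≤ d := by
      rw [hD]
      apply Nat.ceil_le.2
      exact h3
    exact (h2.mono_w hM1).mono_d h4

end Pool.Agent.TH3.IR
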